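import Mathlib

set_option autoImplicit false

namespace Pool.Agent.EDT

section Comp
variable {α : Type}

/-- Drop one leading `none`. -/
def dn : List (Option α) → List (Option α)
  | none :: l => l
  | l => l

/-- Merge adjacent `none`s. -/
def comp : List (Option α) → List (Option α)
  | [] => []
  | some a :: l => some a :: comp l
  | none :: l => none :: dn (comp l)

/-- Replace the `q`-th `none` by the list `p`. -/
def rep : ℕ → List (Option α) → List (Option α) → List (Option α)
  | _, _, [] => []
  | q, p, some a :: l => some a :: rep q p l
  | 0, p, none :: l => p ++ l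
  | q + 1, p, none :: l => none :: rep q p l

theorem dn_append_some (y z : List (Option α)) (x : α) :
    dn (y ++ some x :: z) = dn y ++ some x :: z := by
  cases y with
  | nil => rfl
  | cons a y => cases a <;> rfl

theorem comp_append_some (u v : List (Option α)) (x : α) :
    comp (u ++ some x :: v) = comp u ++ some x :: comp v := by
  induction u with
  | nil => rfl
  | cons a u ih =>
    cases a with
    | none =>
      show none :: dn (comp (u ++ some x :: v)) = none :: dn (comp u) ++ some x :: comp v
      rw [ih, dn_append_some]; rfl
    | some a =>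
      show some a :: comp (u ++ some x :: v) = some a :: comp u ++ some x :: comp v
      rw [ih]; rfl

theorem dn_cases (y : List (Option α)) : y = dn y ∨ y = none :: dn y := by
  cases y with
  | nil => left; rfl
  | cons a y => cases a with
    | none => right; rfl
    | some a => left; rfl

theorem comp_append_none (u v : List (Option α)) :
    ∃ A B, comp (u ++ none :: v) = A ++ none :: B ∧ (comp u = A ∨ comp u = A ++ [none]) ∧
      (comp v = B ∨ comp v = none :: B) := by
  induction u with
  | nil =>
    refine ⟨[], dn (comp v), rfl, Or.inl rfl, ?_⟩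
    exact dn_cases _
  | cons a u ih =>
    obtain ⟨A, B, h1, h2, h3⟩ := ih
    cases a with
    | some a =>
      refine ⟨some a :: A, B, ?_, ?_, h3⟩
      · show some a :: comp (u ++ none :: v) = _
        rw [h1]; rfl
      · show some a :: comp u = _ ∨ some a :: comp u = _
        rcases h2 with h | h
        · left; rw [h]
        · right; rw [h]; rfl
    | none =>
      cases A with
      | nil =>
        refine ⟨[], B, ?_, ?_, h3⟩
        · show none :: dn (comp (u ++ none :: v)) = _
          rw [h1]; rfl
        · right
          show none :: dn (comp u) = _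
          rcases h2 with h | h
          · rw [h]; rfl
          · rw [h]; rfl
      | cons b A =>
        cases b with
        | none =>
          refine ⟨none :: A, B, ?_, ?_, h3⟩
          · show none :: dn (comp (u ++ none :: v)) = _
            rw [h1]; rfl
          · show none :: dn (comp u) = _ ∨ none :: dn (comp u) = _
            rcases h2 with h | h
            · left; rw [h]; rfl
            · right; rw [h]; rfl
        | some b =>
          refine ⟨none :: some b :: A, B, ?_, ?_, h3⟩
          · show none :: dn (comp (u ++ none :: v)) = _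
            rw [h1]; rfl
          · show none :: dn (comp u) = _ ∨ none :: dn (comp u) = _
            rcases h2 with h | h
            · left; rw [h]; rfl
            · right; rw [h]; rfl

/-- Number of `none`s. -/
def cn (l : List (Option α)) : ℕ := l.countP (fun o => o.isNone)

theorem rep_split (A B p : List (Option α)) : rep (cn A) p (A ++ none :: B) = A ++ p ++ B := by
  induction A with
  | nil => rfl
  | cons a A ih =>
    cases a with
    | none =>
      have : cn (none :: A) = cn A + 1 := by simp [cn]
      rw [this]
      show none :: rep (cn A) p (A ++ none :: B) = _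
      rw [ih]; rfl
    | some a =>
      have : cn (some a :: A) = cn A := by simp [cn]
      rw [this]
      cases hq : cn A with
      | zero =>
        show some a :: rep 0 p (A ++ none :: B) = _
        rw [← hq, ih]; rfl
      | succ q =>
        show some a :: rep (q+1) p (A ++ none :: B) = _
        rw [← hq, ih]; rfl

theorem comp_none_head (l : List (Option α)) : ∃ l', comp (none :: l) = none :: l' := ⟨_, rfl⟩

/-- The number of `none`s of the compressed list is the number of right ends of runs. -/
theorem cn_comp_range (f : ℕ → Option α) (n s : ℕ) :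
    cn (comp ((List.range' s n).map f)) =
      ((Finset.Ico s (s + n)).filter (fun i => f i = none ∧ (i + 1 = s + n ∨ f (i + 1) ≠ none))).card := by
  induction n generalizing s with
  | zero => simp [comp, cn]
  | succ n ih =>
    have hs : Finset.Ico s (s + (n + 1)) = insert s (Finset.Ico (s + 1) (s + 1 + n)) := by
      ext x; simp only [Finset.mem_Ico, Finset.mem_insert]; omega
    have e1 : s + (n + 1) = s + 1 + n := by omega
    rw [List.range'_succ, List.map_cons, hs, Finset.filter_insert, e1]
    have hnot : s ∉ (Finset.Ico (s + 1) (s + 1 + n)).filter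
        (fun i => f i = none ∧ (i + 1 = s + 1 + n ∨ f (i + 1) ≠ none)) := by simp
    have ih' := ih (s + 1)
    cases hf : f s with
    | some a =>
      simp only [reduceCtorEq, false_and, if_false]
      rw [← ih']
      simp [comp, cn]
    | none =>
      cases n with
      | zero =>
        simp [comp, cn, dn]
      | succ n =>
        cases hf1 : f (s + 1) with
        | some b =>
          have : (none : Option α) = none ∧ (s + 1 = s + 1 + (n + 1) ∨ (some b : Option α) ≠ none) := by simp
          rw [if_pos this, Finset.card_insert_of_notMem hnot, ← ih']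
          rw [List.range'_succ, List.map_cons, hf1]
          simp [comp, cn, dn]
        | none =>
          have : ¬ ((none : Option α) = none ∧ (s + 1 = s + 1 + (n + 1) ∨ (none : Option α) ≠ none)) := by
            simp
          rw [if_neg this, ← ih']
          rw [List.range'_succ, List.map_cons, hf1]
          simp [comp, cn, dn]

end Comp

section Reach

/-- States: a compressed word and the list of the types of the active elements. -/
abbrev St (m : ℕ) := List (Option (Fin m)) × List (Fin m)

def pat {m : ℕ} (b : Bool × Bool) (x : Fin m) : List (Option (Fin m)) :=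
  (if b.1 then [none] else []) ++ [some x] ++ (if b.2 then [none] else [])

/-- The possible successors of a state. -/
def succs {m : ℕ} (c c' : ℕ) (xs : List (Fin m) → Finset (Fin m)) (st : St m) : Finset (St m) :=
  ((st.2.sublists.filter (fun l => decide (l.length ≤ c))).toFinset).biUnion fun act =>
    (xs act).biUnion fun x => (Finset.range c').biUnion fun q =>
      (Finset.univ : Finset (Bool × Bool)).image fun b => (rep q (pat b x) st.1, x :: act)

/-- States reachable with `s` insertions of which at most `a` are explicit. -/
def reach (m c c' : ℕ) : ℕ → ℕ → Finset (St m)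
  | 0, _ => {([none], [])}
  | s + 1, 0 => (reach m c c' s 0).biUnion (succs c c' List.toFinset)
  | s + 1, a + 1 => (reach m c c' s (a + 1)).biUnion (succs c c' List.toFinset) ∪
      (reach m c c' s a).biUnion (succs c c' (fun _ => Finset.univ))

theorem reach_mono {m c c' : ℕ} (s a : ℕ) : reach m c c' s a ⊆ reach m c c' s (a + 1) := by
  induction s generalizing a with
  | zero => simp [reach]
  | succ s ih =>
    cases a with
    | zero =>
      show (reach m c c' s 0).biUnion (succs c c' List.toFinset) ⊆
        (reach m c c' s 1).biUnion (succs c c' List.toFinset) ∪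
          (reach m c c' s 0).biUnion (succs c c' (fun _ => Finset.univ))
      refine Finset.Subset.trans ?_ Finset.subset_union_left
      exact Finset.biUnion_subset_biUnion_of_subset_left _ (ih 0)
    | succ a =>
      show (reach m c c' s (a + 1)).biUnion (succs c c' List.toFinset) ∪
          (reach m c c' s a).biUnion (succs c c' (fun _ => Finset.univ)) ⊆
        (reach m c c' s (a + 1 + 1)).biUnion (succs c c' List.toFinset) ∪
          (reach m c c' s (a + 1)).biUnion (succs c c' (fun _ => Finset.univ))
      exact Finset.union_subset_union (Finset.biUnion_subset_biUnion_of_subset_left _ (ih (a + 1)))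
        (Finset.biUnion_subset_biUnion_of_subset_left _ (ih a))

theorem reach_mono_le {m c c' : ℕ} (s : ℕ) {a b : ℕ} (h : a ≤ b) :
    reach m c c' s a ⊆ reach m c c' s b := by
  induction h with
  | refl => exact Finset.Subset.refl _
  | step _ ih => exact ih.trans (reach_mono s _)

theorem mem_succs {m : ℕ} {c c' : ℕ} {xs : List (Fin m) → Finset (Fin m)} {st st' : St m}
    (h : st' ∈ succs c c' xs st) : st'.2.length ≤ c + 1 := by
  simp only [succs, Finset.mem_biUnion, List.mem_toFinset, List.mem_filter, List.mem_sublists,
    decide_eq_true_eq, Finset.mem_image] at h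
  obtain ⟨act, ⟨_, h1⟩, x, _, q, _, b, _, rfl⟩ := h
  simpa using h1

theorem reach_len {m c c' : ℕ} (s a : ℕ) : ∀ st ∈ reach m c c' s a, st.2.length ≤ c + 1 := by
  intro st hst
  cases s with
  | zero => simp [reach] at hst; subst hst; simp
  | succ s =>
    cases a with
    | zero =>
      simp only [reach, Finset.mem_biUnion] at hst
      obtain ⟨_, _, h⟩ := hst
      exact mem_succs h
    | succ a =>
      simp only [reach, Finset.mem_biUnion, Finset.mem_union] at hst
      rcases hst with ⟨_, _, h⟩ | ⟨_, _, h⟩
      · exact mem_succs h
      · exact mem_succs h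

theorem card_succs {m : ℕ} {c c' B : ℕ} {xs : List (Fin m) → Finset (Fin m)} {st : St m}
    (hlen : st.2.length ≤ c + 1) (hx : ∀ act : List (Fin m), act.length ≤ c → (xs act).card ≤ B) :
    (succs c c' xs st).card ≤ 2 ^ (c + 1) * (B * (c' * 4)) := by
  unfold succs
  have h1 : ((st.2.sublists.filter (fun l => decide (l.length ≤ c))).toFinset).card ≤ 2 ^ (c + 1) := by
    calc ((st.2.sublists.filter (fun l => decide (l.length ≤ c))).toFinset).card
        ≤ (st.2.sublists.filter (fun l => decide (l.length ≤ c))).length := List.toFinset_card_le _
      _ ≤ st.2.sublists.length := List.length_filter_le _ _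
      _ = 2 ^ st.2.length := List.length_sublists _
      _ ≤ 2 ^ (c + 1) := Nat.pow_le_pow_right (by norm_num) hlen
  refine (Finset.card_biUnion_le_card_mul _ _ (B * (c' * 4)) ?_).trans (Nat.mul_le_mul_right _ h1)
  intro act hact
  simp only [List.mem_toFinset, List.mem_filter, decide_eq_true_eq] at hact
  refine (Finset.card_biUnion_le_card_mul _ _ (c' * 4) ?_).trans (Nat.mul_le_mul_right _ (hx act hact.2))
  intro x _
  refine (Finset.card_biUnion_le_card_mul _ _ 4 ?_).trans ?_
  · intro q _
    refine Finset.card_image_le.trans ?_
    simp
  · simp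

theorem card_reach {m c c' : ℕ} (hm : 0 < m) (s a : ℕ) :
    (reach m c c' s a).card ≤ (2 ^ (c + 1) * ((c + 1) * (c' * 4))) ^ s * m ^ a := by
  have hx1 : ∀ act : List (Fin m), act.length ≤ c → (List.toFinset act).card ≤ c :=
    fun act h => (List.toFinset_card_le _).trans h
  have hx2 : ∀ act : List (Fin m), act.length ≤ c →
      ((fun _ => Finset.univ : List (Fin m) → Finset (Fin m)) act).card ≤ m := by
    intro act _; simp
  induction s generalizing a with
  | zero =>
    simp only [reach, Finset.card_singleton, pow_zero, one_mul]
    exact Nat.one_le_pow _ _ hm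
  | succ s ih =>
    have key1 : ∀ a, ((reach m c c' s a).biUnion (succs c c' List.toFinset)).card ≤
        (2 ^ (c + 1) * ((c + 1) * (c' * 4))) ^ s * m ^ a * (2 ^ (c + 1) * (c * (c' * 4))) := by
      intro a
      refine (Finset.card_biUnion_le_card_mul _ _ (2 ^ (c + 1) * (c * (c' * 4))) ?_).trans
        (Nat.mul_le_mul_right _ (ih a))
      intro st hst
      exact card_succs (reach_len s a st hst) hx1
    have key2 : ∀ a, ((reach m c c' s a).biUnion (succs c c' (fun _ => Finset.univ))).card ≤
        (2 ^ (c + 1) * ((c + 1) * (c' * 4))) ^ s * m ^ a * (2 ^ (c + 1) * (m * (c' * 4))) := by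
      intro a
      refine (Finset.card_biUnion_le_card_mul _ _ (2 ^ (c + 1) * (m * (c' * 4))) ?_).trans
        (Nat.mul_le_mul_right _ (ih a))
      intro st hst
      exact card_succs (reach_len s a st hst) hx2
    cases a with
    | zero =>
      refine (key1 0).trans ?_
      rw [pow_succ]
      have : 2 ^ (c + 1) * (c * (c' * 4)) ≤ 2 ^ (c + 1) * ((c + 1) * (c' * 4)) :=
        Nat.mul_le_mul_left _ (Nat.mul_le_mul_right _ (Nat.le_succ _))
      calc _ = (2 ^ (c + 1) * ((c + 1) * (c' * 4))) ^ s * (2 ^ (c + 1) * (c * (c' * 4))) * m ^ 0 := by ring
        _ ≤ _ := Nat.mul_le_mul_right _ (Nat.mul_le_mul_left _ this)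
    | succ a =>
      refine (Finset.card_union_le _ _).trans ?_
      refine (Nat.add_le_add (key1 (a + 1)) (key2 a)).trans (le_of_eq ?_)
      ring

end Reach

section Sim

/-- The compressed word of the elements `i < r` with `κ i < T`. -/
def word {m : ℕ} (σ : ℕ → Fin m) (κ : ℕ → ℕ) (r T : ℕ) : List (Option (Fin m)) :=
  comp ((List.range r).map (fun i => if κ i < T then some (σ i) else none))

theorem range_split {r i : ℕ} (hi : i < r) :
    List.range r = List.range i ++ i :: List.range' (i + 1) (r - i - 1) := by
  have h1 : List.range r = List.range' 0 i ++ List.range' i (r - i) := by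
    rw [List.range_eq_range']
    have := List.range'_append_1 (s := 0) (m := i) (n := r - i)
    simp only [zero_add] at this
    rw [this]
    congr 1
    omega
  have h2 : List.range' i (r - i) = i :: List.range' (i + 1) (r - i - 1) := by
    have : r - i = (r - i - 1) + 1 := by omega
    rw [this, List.range'_succ]
    simp
  rw [h1, h2, List.range_eq_range']

theorem word_step {m : ℕ} (σ : ℕ → Fin m) (κ : ℕ → ℕ) (r T i : ℕ) (hi : i < r) (hT : κ i = T)
    (hinj : ∀ j < r, κ j = T → j = i) :
    ∃ q b, q < cn (word σ κ r T) ∧ word σ κ r (T + 1) = rep q (pat b (σ i)) (word σ κ r T) := by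
  have hu : (List.range i).map (fun j => if κ j < T + 1 then some (σ j) else none) =
      (List.range i).map (fun j => if κ j < T then some (σ j) else none) := by
    apply List.map_congr_left
    intro j hj
    rw [List.mem_range] at hj
    have hne : κ j ≠ T := fun h => by have := hinj j (by omega) h; omega
    by_cases h : κ j < T
    · rw [if_pos h, if_pos (by omega)]
    · rw [if_neg h, if_neg (by omega)]
  have hv : (List.range' (i + 1) (r - i - 1)).map (fun j => if κ j < T + 1 then some (σ j) else none) =
      (List.range' (i + 1) (r - i - 1)).map (fun j => if κ j < T then some (σ j) else none) := by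
    apply List.map_congr_left
    intro j hj
    rw [List.mem_range'_1] at hj
    have hne : κ j ≠ T := fun h => by have := hinj j (by omega) h; omega
    by_cases h : κ j < T
    · rw [if_pos h, if_pos (by omega)]
    · rw [if_neg h, if_neg (by omega)]
  have hw : word σ κ r T = comp ((List.range i).map (fun j => if κ j < T then some (σ j) else none) ++
      none :: (List.range' (i + 1) (r - i - 1)).map (fun j => if κ j < T then some (σ j) else none)) := by
    unfold word
    rw [range_split hi, List.map_append, List.map_cons, if_neg (by omega)]
  have hw' : word σ κ r (T + 1) = comp ((List.range i).map (fun j => if κ j < T then some (σ j) else none) ++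
      some (σ i) :: (List.range' (i + 1) (r - i - 1)).map
        (fun j => if κ j < T then some (σ j) else none)) := by
    unfold word
    rw [range_split hi, List.map_append, List.map_cons, if_pos (by omega), hu, hv]
  rw [hw', hw]
  obtain ⟨A, B, h1, h2, h3⟩ := comp_append_none
    ((List.range i).map (fun j => if κ j < T then some (σ j) else none))
    ((List.range' (i + 1) (r - i - 1)).map (fun j => if κ j < T then some (σ j) else none))
  rw [comp_append_some, h1]
  have hcn : cn A < cn (A ++ none :: B) := by simp [cn]
  have hrep : ∀ p, rep (cn A) p (A ++ none :: B) = A ++ p ++ B := fun p => rep_split A B p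
  rcases h2 with h2 | h2 <;> rcases h3 with h3 | h3
  · exact ⟨cn A, (false, false), hcn, by rw [hrep, h2, h3]; simp [pat]⟩
  · exact ⟨cn A, (false, true), hcn, by rw [hrep, h2, h3]; simp [pat]⟩
  · exact ⟨cn A, (true, false), hcn, by rw [hrep, h2, h3]; simp [pat]⟩
  · exact ⟨cn A, (true, true), hcn, by rw [hrep, h2, h3]; simp [pat]⟩

variable {m : ℕ}

/-- `j` is explained by an earlier element of the same type. -/
def Expl (σ : ℕ → Fin m) (κ α ω : ℕ → ℕ) (r j : ℕ) : Prop :=
  ∃ i < r, κ i < κ j ∧ σ i = σ j ∧ α j < ω i

open Classical in
theorem sim (σ : ℕ → Fin m) (α ω : ℕ → ℕ) (r c : ℕ) (hr : 0 < r)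
    (hαω : ∀ i < r, α i < ω i)
    (H1 : ∀ t, ((Finset.range r).filter (fun i => α i ≤ t ∧ t < ω i)).card ≤ c)
    (H2 : ∀ t, ((Finset.range r).filter (fun i => t < α i ∧ (i + 1 = r ∨ α (i + 1) ≤ t))).card ≤ c)
    (κ : ℕ → ℕ) (hκ : ∀ i, κ i = α i * r + i) (T : ℕ) :
    ∃ act : List ℕ, act.Nodup ∧ (∀ j ∈ act, j < r ∧ κ j < T) ∧
      (∀ j < r, κ j < T → ∀ i < r, T ≤ κ i → α i < ω j → j ∈ act) ∧
      (word σ κ r T, act.map σ) ∈ reach m c (2 * c)
        ((Finset.range r).filter (fun j => κ j < T)).card
        ((Finset.range r).filter (fun j => κ j < T ∧ ¬ Expl σ κ α ω r j)).card := by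
  have κlt : ∀ i < r, ∀ j < r, κ i < κ j → α i ≤ α j := by
    intro i hi j hj h
    rw [hκ, hκ] at h
    by_contra hc
    push Not at hc
    have : (α j + 1) * r ≤ α i * r := Nat.mul_le_mul_right _ hc
    rw [add_mul] at this
    omega
  have κinj : ∀ i < r, ∀ j < r, κ i = κ j → i = j := by
    intro i hi j hj h
    have h1 : κ i % r = i := by rw [hκ, Nat.mul_add_mod_of_lt hi]
    have h2 : κ j % r = j := by rw [hκ, Nat.mul_add_mod_of_lt hj]
    rw [← h1, ← h2, h]
  induction T with
  | zero =>
    refine ⟨[], List.nodup_nil, by simp, by simp, ?_⟩
    have : word σ κ r 0 = [none] := by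
      unfold word
      simp only [not_lt_zero, if_false]
      obtain ⟨r, rfl⟩ : ∃ r', r = r' + 1 := ⟨r - 1, by omega⟩
      clear hr H1 H2 hαω κlt κinj hκ
      rw [List.map_const', List.length_range]
      induction r with
      | zero => rfl
      | succ r ih =>
        rw [List.replicate_succ]
        show none :: dn (comp (List.replicate (r + 1) none)) = _
        rw [ih]; rfl
    simp [this, reach]
  | succ T ih =>
    obtain ⟨act, hnd, hact1, hact2, hreach⟩ := ih
    by_cases hex : ∃ i < r, κ i = T
    · obtain ⟨i, hir, hiT⟩ := hex
      have hinj : ∀ j < r, κ j = T → j = i := fun j hj h => κinj j hj i hir (by rw [h, hiT])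
      obtain ⟨q, b, hq, hword⟩ := word_step σ κ r T i hir hiT hinj
      set act0 := act.filter (fun j => decide (α i < ω j)) with hact0
      have hact0len : act0.length ≤ c := by
        have hnd0 : act0.Nodup := hnd.filter _
        rw [← List.toFinset_card_of_nodup hnd0]
        refine (Finset.card_le_card ?_).trans (H1 (α i))
        intro j hj
        rw [List.mem_toFinset, hact0, List.mem_filter] at hj
        simp only [decide_eq_true_eq] at hj
        obtain ⟨h1, h2⟩ := hj
        obtain ⟨h3, h4⟩ := hact1 j h1
        simp only [Finset.mem_filter, Finset.mem_range]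
        exact ⟨h3, κlt j h3 i hir (by omega), h2⟩
      have hqc : q < 2 * c := by
        refine lt_of_lt_of_le hq ?_
        unfold word
        rw [List.range_eq_range', cn_comp_range]
        have hsub : (Finset.Ico 0 (0 + r)).filter (fun j => (if κ j < T then some (σ j) else none) = none ∧
            (j + 1 = 0 + r ∨ (if κ (j + 1) < T then some (σ (j + 1)) else none) ≠ none)) ⊆
            ((Finset.range r).filter (fun j => α i < α j ∧ (j + 1 = r ∨ α (j + 1) ≤ α i))) ∪
            ((Finset.range r).filter (fun j => α j ≤ α i ∧ α i < ω j)) := by
          intro j hj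
          simp only [Finset.mem_filter, Finset.mem_Ico, Finset.mem_union, Finset.mem_range, zero_add] at hj ⊢
          obtain ⟨⟨_, hjr⟩, hj1, hj2⟩ := hj
          have hjT : T ≤ κ j := by
            by_contra hc
            rw [if_pos (by omega)] at hj1
            exact absurd hj1 (by simp)
          by_cases hjα : α i < α j
          · left
            refine ⟨hjr, hjα, ?_⟩
            rcases hj2 with h | h
            · left; exact h
            · by_cases hj1r : j + 1 = r
              · left; exact hj1r
              right
              have hlt : κ (j + 1) < T := by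
                by_contra hc
                rw [if_neg hc] at h
                exact h rfl
              exact κlt (j + 1) (by omega) i hir (by omega)
          · right
            have : α i ≤ α j := by
              rcases Nat.lt_or_ge (κ i) (κ j) with h | h
              · exact κlt i hir j hjr h
              · have : κ i = κ j := by omega
                rw [κinj i hir j hjr this]
            refine ⟨hjr, by omega, ?_⟩
            have := hαω j hjr
            omega
        refine (Finset.card_le_card hsub).trans ((Finset.card_union_le _ _).trans ?_)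
        have := H1 (α i)
        have := H2 (α i)
        omega
      have hS : ((Finset.range r).filter (fun j => κ j < T + 1)) =
          insert i ((Finset.range r).filter (fun j => κ j < T)) := by
        ext j
        simp only [Finset.mem_filter, Finset.mem_range, Finset.mem_insert]
        constructor
        · rintro ⟨h1, h2⟩
          rcases Nat.lt_or_ge (κ j) T with h | h
          · right; exact ⟨h1, h⟩
          · left; exact hinj j h1 (by omega)
        · rintro (rfl | ⟨h1, h2⟩)
          · exact ⟨hir, by omega⟩
          · exact ⟨h1, by omega⟩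
      have hScard : ((Finset.range r).filter (fun j => κ j < T + 1)).card =
          ((Finset.range r).filter (fun j => κ j < T)).card + 1 := by
        rw [hS, Finset.card_insert_of_notMem]
        simp [hiT]
      have hmem0 : ((act0.map σ) ∈ ((act.map σ).sublists.filter
          (fun l => decide (l.length ≤ c))).toFinset) := by
        rw [List.mem_toFinset, List.mem_filter, List.mem_sublists]
        refine ⟨List.Sublist.map _ List.filter_sublist, ?_⟩
        simpa using hact0len
      refine ⟨i :: act0, ?_, ?_, ?_, ?_⟩
      · refine List.nodup_cons.2 ⟨?_, hnd.filter _⟩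
        intro hi
        have := (hact1 i (List.mem_of_mem_filter hi)).2
        omega
      · intro j hj
        rw [List.mem_cons] at hj
        rcases hj with rfl | hj
        · exact ⟨hir, by omega⟩
        · have := hact1 j (List.mem_of_mem_filter hj)
          exact ⟨this.1, by omega⟩
      · intro j hj hjT i' hi' hi'T hlt
        rw [List.mem_cons]
        by_cases hji : j = i
        · left; exact hji
        · right
          rw [hact0, List.mem_filter]
          have hjT' : κ j < T := by
            rcases Nat.lt_or_ge (κ j) T with h | h
            · exact h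
            · exact absurd (hinj j hj (by omega)) hji
          have hle : α i ≤ α i' := κlt i hir i' hi' (by omega)
          refine ⟨hact2 j hj hjT' i hir (by omega) (by omega), ?_⟩
          simp only [decide_eq_true_eq]
          omega
      · rw [hword, hScard]
        by_cases hexpl : Expl σ κ α ω r i
        · have hE : ((Finset.range r).filter (fun j => κ j < T + 1 ∧ ¬ Expl σ κ α ω r j)) =
              ((Finset.range r).filter (fun j => κ j < T ∧ ¬ Expl σ κ α ω r j)) := by
            ext j
            simp only [Finset.mem_filter, Finset.mem_range]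
            constructor
            · rintro ⟨h1, h2, h3⟩
              refine ⟨h1, ?_, h3⟩
              rcases Nat.lt_or_ge (κ j) T with h | h
              · exact h
              · exact absurd (hinj j h1 (by omega) ▸ hexpl) h3
            · rintro ⟨h1, h2, h3⟩
              exact ⟨h1, by omega, h3⟩
          rw [hE]
          obtain ⟨i0, hi0, hi0κ, hi0σ, hi0ω⟩ := hexpl
          have hi0act : i0 ∈ act0 := by
            rw [hact0, List.mem_filter]
            refine ⟨hact2 i0 hi0 (by omega) i hir (by omega) hi0ω, ?_⟩
            simpa using hi0ω
          have hmem : (rep q (pat b (σ i)) (word σ κ r T), (i :: act0).map σ) ∈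
              succs c (2 * c) List.toFinset (word σ κ r T, act.map σ) := by
            simp only [succs, Finset.mem_biUnion, Finset.mem_range, Finset.mem_image]
            refine ⟨act0.map σ, hmem0, σ i, ?_, q, hqc, b, Finset.mem_univ _, rfl⟩
            rw [List.mem_toFinset, List.mem_map]
            exact ⟨i0, hi0act, hi0σ⟩
          generalize ((Finset.range r).filter (fun j => κ j < T ∧ ¬ Expl σ κ α ω r j)).card = a at hreach ⊢
          generalize ((Finset.range r).filter (fun j => κ j < T)).card = s at hreach ⊢
          cases a with
          | zero =>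
            show _ ∈ (reach m c (2 * c) s 0).biUnion (succs c (2 * c) List.toFinset)
            exact Finset.mem_biUnion.2 ⟨_, hreach, hmem⟩
          | succ a =>
            show _ ∈ (reach m c (2 * c) s (a + 1)).biUnion (succs c (2 * c) List.toFinset) ∪ _
            exact Finset.mem_union_left _ (Finset.mem_biUnion.2 ⟨_, hreach, hmem⟩)
        · have hE : ((Finset.range r).filter (fun j => κ j < T + 1 ∧ ¬ Expl σ κ α ω r j)) =
              insert i ((Finset.range r).filter (fun j => κ j < T ∧ ¬ Expl σ κ α ω r j)) := by
            ext j
            simp only [Finset.mem_filter, Finset.mem_range, Finset.mem_insert]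
            constructor
            · rintro ⟨h1, h2, h3⟩
              rcases Nat.lt_or_ge (κ j) T with h | h
              · right; exact ⟨h1, h, h3⟩
              · left; exact hinj j h1 (by omega)
            · rintro (rfl | ⟨h1, h2, h3⟩)
              · exact ⟨hir, by omega, hexpl⟩
              · exact ⟨h1, by omega, h3⟩
          have hEcard : ((Finset.range r).filter (fun j => κ j < T + 1 ∧ ¬ Expl σ κ α ω r j)).card =
              ((Finset.range r).filter (fun j => κ j < T ∧ ¬ Expl σ κ α ω r j)).card + 1 := by
            rw [hE, Finset.card_insert_of_notMem]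
            simp [hiT]
          rw [hEcard]
          show _ ∈ _ ∪ (reach m c (2 * c) _ _).biUnion (succs c (2 * c) (fun _ => Finset.univ))
          refine Finset.mem_union_right _ (Finset.mem_biUnion.2 ⟨_, hreach, ?_⟩)
          simp only [succs, Finset.mem_biUnion, Finset.mem_range, Finset.mem_image]
          exact ⟨act0.map σ, hmem0, σ i, Finset.mem_univ _, q, hqc, b, Finset.mem_univ _, rfl⟩
    · push Not at hex
      have hlt : ∀ j < r, (κ j < T + 1 ↔ κ j < T) := by
        intro j hj
        have := hex j hj
        omega
      have hw : word σ κ r (T + 1) = word σ κ r T := by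
        unfold word
        congr 1
        apply List.map_congr_left
        intro j hj
        rw [List.mem_range] at hj
        simp only [hlt j hj]
      have h1 : ((Finset.range r).filter (fun j => κ j < T + 1)) =
          ((Finset.range r).filter (fun j => κ j < T)) := by
        apply Finset.filter_congr
        intro j hj
        rw [Finset.mem_range] at hj
        exact hlt j hj
      have h2 : ((Finset.range r).filter (fun j => κ j < T + 1 ∧ ¬ Expl σ κ α ω r j)) =
          ((Finset.range r).filter (fun j => κ j < T ∧ ¬ Expl σ κ α ω r j)) := by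
        apply Finset.filter_congr
        intro j hj
        rw [Finset.mem_range] at hj
        rw [hlt j hj]
      refine ⟨act, hnd, ?_, ?_, ?_⟩
      · intro j hj
        have := hact1 j hj
        exact ⟨this.1, by omega⟩
      · intro j hj hjT i hi hiT hlt'
        exact hact2 j hj ((hlt j hj).1 hjT) i hi (by omega) hlt'
      · rw [hw, h1, h2]; exact hreach

end Sim

section Final

theorem comp_map_some {α : Type} (l : List α) : comp (l.map some) = l.map some := by
  induction l with
  | nil => rfl
  | cons a l ih => show some a :: comp (l.map some) = _; rw [ih]; rfl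

open Classical in
theorem expl_count {m : ℕ} (σ : ℕ → Fin m) (α ω : ℕ → ℕ) (r : ℕ)
    (κ : ℕ → ℕ) (hκ : ∀ i, κ i = α i * r + i) :
    ((Finset.range r).filter (fun i => ∃ j < r, j ≠ i ∧ σ j = σ i ∧ α j < ω i ∧ α i < ω j)).card ≤
      2 * ((Finset.range r).filter (fun j => Expl σ κ α ω r j)).card := by
  have κlt : ∀ i < r, ∀ j < r, κ i < κ j → α i ≤ α j := by
    intro i hi j hj h
    rw [hκ, hκ] at h
    by_contra hc
    push Not at hc
    have : (α j + 1) * r ≤ α i * r := Nat.mul_le_mul_right _ hc
    rw [add_mul] at this
    omega
  have κinj : ∀ i < r, ∀ j < r, κ i = κ j → i = j := by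
    intro i hi j hj h
    have h1 : κ i % r = i := by rw [hκ, Nat.mul_add_mod_of_lt hi]
    have h2 : κ j % r = j := by rw [hκ, Nat.mul_add_mod_of_lt hj]
    rw [← h1, ← h2, h]
  set NS := (Finset.range r).filter (fun i => ∃ j < r, j ≠ i ∧ σ j = σ i ∧ α j < ω i ∧ α i < ω j)
  set E := (Finset.range r).filter (fun j => Expl σ κ α ω r j)
  have hsplit : NS.card ≤ E.card + (NS \ E).card := by
    have : NS ⊆ E ∪ (NS \ E) := by
      intro x hx
      by_cases h : x ∈ E
      · exact Finset.mem_union_left _ h
      · exact Finset.mem_union_right _ (Finset.mem_sdiff.2 ⟨hx, h⟩)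
    exact (Finset.card_le_card this).trans (Finset.card_union_le _ _)
  have hpartner : ∀ i ∈ NS \ E, ∃ j < r, κ i < κ j ∧ σ j = σ i ∧ α j < ω i ∧ α i < ω j := by
    intro i hi
    rw [Finset.mem_sdiff, Finset.mem_filter, Finset.mem_filter, Finset.mem_range] at hi
    obtain ⟨⟨hir, j, hj, hji, hσ, h1, h2⟩, hnE⟩ := hi
    refine ⟨j, hj, ?_, hσ, h1, h2⟩
    by_contra hc
    have hne : κ j ≠ κ i := fun h => hji (κinj j hj i hir h)
    exact hnE ⟨hir, j, hj, by omega, hσ, h2⟩
  choose! f hf using hpartner
  have hinj : (NS \ E).card ≤ E.card := by
    refine Finset.card_le_card_of_injOn f ?_ ?_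
    · intro i hi
      obtain ⟨h1, h2, h3, h4, h5⟩ := hf i hi
      have hir : i < r := by
        have := (Finset.mem_sdiff.1 hi).1
        exact Finset.mem_range.1 (Finset.mem_filter.1 this).1
      simp only [E, Finset.coe_filter, Finset.mem_range, Set.mem_ofPred_eq]
      exact ⟨h1, i, hir, h2, h3.symm, h4⟩
    · intro i hi i' hi' heq
      have key : ∀ i ∈ NS \ E, ∀ i' ∈ NS \ E, f i = f i' → ¬ κ i < κ i' := by
        intro i hi i' hi' heq hlt
        have hir : i < r := by
          have := (Finset.mem_sdiff.1 hi).1
          exact Finset.mem_range.1 (Finset.mem_filter.1 this).1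
        have hir' : i' < r := by
          have := (Finset.mem_sdiff.1 hi').1
          exact Finset.mem_range.1 (Finset.mem_filter.1 this).1
        obtain ⟨h1, h2, h3, h4, h5⟩ := hf i hi
        obtain ⟨g1, g2, g3, g4, g5⟩ := hf i' hi'
        have hE : i' ∈ E := by
          simp only [E, Finset.mem_filter, Finset.mem_range]
          refine ⟨hir', i, hir, hlt, ?_, ?_⟩
          · rw [← h3, ← g3, heq]
          · have := κlt i' hir' (f i') g1 g2
            rw [← heq] at this
            omega
        exact (Finset.mem_sdiff.1 hi').2 hE
      have hir : i < r := by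
        have := (Finset.mem_sdiff.1 hi).1
        exact Finset.mem_range.1 (Finset.mem_filter.1 this).1
      have hir' : i' < r := by
        have := (Finset.mem_sdiff.1 hi').1
        exact Finset.mem_range.1 (Finset.mem_filter.1 this).1
      have a1 := key i hi i' hi' heq
      have a2 := key i' hi' i hi heq.symm
      exact κinj i hir i' hir' (by omega)
  omega

open Classical in
/-- **Coding lemma.** -/
theorem coding (c : ℕ) : ∃ m : ℕ, 0 < m ∧ ∀ r : ℕ, 0 < r → ∃ σ : ℕ → Fin m, ∀ α ω : ℕ → ℕ,
    (∀ i < r, α i < ω i) →
    (∀ t, ((Finset.range r).filter (fun i => α i ≤ t ∧ t < ω i)).card ≤ c) →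
    (∀ t, ((Finset.range r).filter (fun i => t < α i ∧ (i + 1 = r ∨ α (i + 1) ≤ t))).card ≤ c) →
    2 * ((Finset.range r).filter
      (fun i => ∃ j < r, j ≠ i ∧ σ j = σ i ∧ α j < ω i ∧ α i < ω j)).card < r := by
  set C := 2 ^ (c + 1) * ((c + 1) * (2 * c * 4)) with hC
  refine ⟨C ^ 4 + 1, Nat.succ_pos _, ?_⟩
  set m := C ^ 4 + 1 with hm
  intro r hr
  by_contra hcon
  push Not at hcon
  have hz : 0 < m := Nat.succ_pos _
  let ext : (Fin r → Fin m) → ℕ → Fin m := fun σ i => if h : i < r then σ ⟨i, h⟩ else ⟨0, hz⟩
  let Φ : (Fin r → Fin m) → List (Option (Fin m)) := fun σ => (List.range r).map (fun i => some (ext σ i))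
  have hΦinj : Function.Injective Φ := by
    intro σ τ h
    funext i
    have h1 : (Φ σ)[i.1]? = (Φ τ)[i.1]? := by rw [h]
    simp only [Φ, List.getElem?_map, List.getElem?_range i.2, Option.map_some, ext, dif_pos i.2] at h1
    simpa using h1
  have himg : ∀ σ, Φ σ ∈ (reach m c (2 * c) r (3 * r / 4)).image Prod.fst := by
    intro σ
    obtain ⟨α, ω, h1, h2, h3, h4⟩ := hcon (ext σ)
    obtain ⟨κ, hκ⟩ : ∃ κ : ℕ → ℕ, ∀ i, κ i = α i * r + i := ⟨fun i => α i * r + i, fun _ => rfl⟩
    set T := 1 + ∑ j ∈ Finset.range r, κ j with hT
    have hlt : ∀ j < r, κ j < T := by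
      intro j hj
      have : κ j ≤ ∑ j ∈ Finset.range r, κ j :=
        Finset.single_le_sum (f := κ) (fun i _ => Nat.zero_le _) (Finset.mem_range.2 hj)
      omega
    obtain ⟨act, _, _, _, hreach⟩ := sim (ext σ) α ω r c hr h1 h2 h3 κ hκ T
    have e1 : ((Finset.range r).filter (fun j => κ j < T)).card = r := by
      rw [Finset.filter_true_of_mem, Finset.card_range]
      intro j hj; exact hlt j (Finset.mem_range.1 hj)
    have e2 : ((Finset.range r).filter (fun j => κ j < T ∧ ¬ Expl (ext σ) κ α ω r j)).card +
        ((Finset.range r).filter (fun j => Expl (ext σ) κ α ω r j)).card = r := by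
      have : ((Finset.range r).filter (fun j => κ j < T ∧ ¬ Expl (ext σ) κ α ω r j)) =
          ((Finset.range r).filter (fun j => ¬ Expl (ext σ) κ α ω r j)) := by
        apply Finset.filter_congr
        intro j hj
        have := hlt j (Finset.mem_range.1 hj)
        simp [this]
      rw [this, add_comm]
      have h := Finset.card_filter_add_card_filter_not (s := Finset.range r)
        (fun j => Expl (ext σ) κ α ω r j)
      rw [Finset.card_range] at h
      exact h
    have e3 := expl_count (ext σ) α ω r κ hκ
    have e4 : ((Finset.range r).filter (fun j => κ j < T ∧ ¬ Expl (ext σ) κ α ω r j)).card ≤ 3 * r / 4 := by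
      omega
    have e5 : word (ext σ) κ r T = Φ σ := by
      unfold word
      have : (List.range r).map (fun i => if κ i < T then some (ext σ i) else none) =
          ((List.range r).map (ext σ)).map some := by
        rw [List.map_map]
        apply List.map_congr_left
        intro j hj
        rw [List.mem_range] at hj
        rw [if_pos (hlt j hj)]; rfl
      rw [this, comp_map_some, List.map_map]; rfl
    rw [Finset.mem_image]
    refine ⟨(word (ext σ) κ r T, act.map (ext σ)), ?_, e5⟩
    rw [e1] at hreach
    exact reach_mono_le r e4 hreach
  have hcard : m ^ r ≤ C ^ r * m ^ (3 * r / 4) := by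
    have h1 : (Finset.univ.image Φ).card = m ^ r := by
      rw [Finset.card_image_of_injective _ hΦinj]
      simp
    rw [← h1]
    refine (Finset.card_le_card (t := (reach m c (2 * c) r (3 * r / 4)).image Prod.fst) ?_).trans
      ((Finset.card_image_le (f := Prod.fst)).trans (card_reach hz r (3 * r / 4)))
    intro x hx
    obtain ⟨σ, _, rfl⟩ := Finset.mem_image.1 hx
    exact himg σ
  have h2 : (m ^ r) ^ 4 ≤ (C ^ 4) ^ r * m ^ (3 * r) := by
    calc (m ^ r) ^ 4 ≤ (C ^ r * m ^ (3 * r / 4)) ^ 4 := Nat.pow_le_pow_left hcard 4
      _ = (C ^ 4) ^ r * m ^ (3 * r / 4 * 4) := by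
        rw [mul_pow, ← pow_mul, ← pow_mul, ← pow_mul, mul_comm r 4]
      _ ≤ (C ^ 4) ^ r * m ^ (3 * r) := by
        apply Nat.mul_le_mul_left
        exact Nat.pow_le_pow_right hz (by omega)
  have h3 : (m ^ r) ^ 4 = m ^ r * m ^ (3 * r) := by
    rw [← pow_mul, ← pow_add]; congr 1; ring
  rw [h3] at h2
  have h4 : m ^ r ≤ (C ^ 4) ^ r := Nat.le_of_mul_le_mul_right h2 (pow_pos hz _)
  have h5 : (C ^ 4) ^ r < m ^ r := Nat.pow_lt_pow_left (by omega) (by omega)
  omega

end Final

end Pool.Agent.EDT
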