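import Mathlib
import Pool.Agent.EDT.Coding

set_option autoImplicit false

namespace Pool.Agent.EDT

open scoped Pointwise

variable {G : Type} [Group G]

/-! ### Cuts -/

/-- Alternating product along a list of cuts. Left ends contribute `(P e)⁻¹`, right ends
contribute `P e * coefficient`. -/
def pv (P : ℕ → G) : Bool → List (ℕ × G) → G
  | _, [] => 1
  | false, c :: l => (P c.1)⁻¹ * pv P true l
  | true, c :: l => P c.1 * c.2 * pv P false l

def nxt (s : Bool) (n : ℕ) : Bool := if Even n then s else !s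

theorem nxt_zero (s : Bool) : nxt s 0 = s := by simp [nxt]

theorem nxt_succ (s : Bool) (n : ℕ) : nxt s (n + 1) = nxt (!s) n := by
  unfold nxt
  by_cases h : Even n
  · have h' : ¬ Even (n + 1) := by
      rw [Nat.even_add_one]; simpa using h
    rw [if_neg h', if_pos h]
  · have h' : Even (n + 1) := by
      rw [Nat.even_add_one]; exact h
    rw [if_pos h', if_neg h]; simp

theorem pv_append (P : ℕ → G) (s : Bool) (l₁ l₂ : List (ℕ × G)) :
    pv P s (l₁ ++ l₂) = pv P s l₁ * pv P (nxt s l₁.length) l₂ := by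
  induction l₁ generalizing s with
  | nil => simp [pv, nxt_zero]
  | cons c l ih =>
    cases s with
    | false =>
      show (P c.1)⁻¹ * pv P true (l ++ l₂) = (P c.1)⁻¹ * pv P true l * _
      rw [ih, List.length_cons, nxt_succ, mul_assoc]; rfl
    | true =>
      show P c.1 * c.2 * pv P false (l ++ l₂) = P c.1 * c.2 * pv P false l * _
      rw [ih, List.length_cons, nxt_succ]
      simp only [mul_assoc]; rfl

theorem pv_left_mul (P P' : ℕ → G) (h : G) (s : Bool) (l : List (ℕ × G))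
    (hP : ∀ c ∈ l, P c.1 = h * P' c.1) :
    pv P s l = (if s then h else 1) * pv P' s l * (if nxt s l.length then h⁻¹ else 1) := by
  induction l generalizing s with
  | nil => cases s <;> simp [pv, nxt_zero]
  | cons c l ih =>
    have h1 := hP c List.mem_cons_self
    have ih' := fun s => ih s (fun c hc => hP c (List.mem_cons_of_mem _ hc))
    rw [List.length_cons, nxt_succ]
    cases s with
    | false =>
      show (P c.1)⁻¹ * pv P true l = _
      rw [ih', h1]
      simp only [if_true, Bool.false_eq_true, if_false, one_mul, Bool.not_false]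
      show _ = (P' c.1)⁻¹ * pv P' true l * _
      group
    | true =>
      show P c.1 * c.2 * pv P false l = _
      rw [ih', h1]
      simp only [if_true, Bool.false_eq_true, if_false, one_mul, Bool.not_true]
      show _ = h * (P' c.1 * c.2 * pv P' false l) * _
      simp only [mul_assoc]

open Classical in
/-- Possible factors. -/
noncomputable def Fs (Pf 𝓑 : Finset G) : Finset G := insert 1 (Pf⁻¹ ∪ Pf * 𝓑)

open Classical in
theorem card_Fs (Pf 𝓑 : Finset G) : (Fs Pf 𝓑).card ≤ 1 + Pf.card * (1 + 𝓑.card) := by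
  unfold Fs
  refine (Finset.card_insert_le _ _).trans ?_
  have h1 := Finset.card_union_le (Pf⁻¹) (Pf * 𝓑)
  have h2 : (Pf⁻¹).card = Pf.card := Finset.card_inv _
  have h3 : (Pf * 𝓑).card ≤ Pf.card * 𝓑.card := Finset.card_mul_le
  have h4 : Pf.card * (1 + 𝓑.card) = Pf.card + Pf.card * 𝓑.card := by ring
  omega

open Classical in
theorem one_mem_Fs (Pf 𝓑 : Finset G) : (1 : G) ∈ Fs Pf 𝓑 := Finset.mem_insert_self _ _

open Classical in
theorem pv_mem_pow (P : ℕ → G) (s : Bool) (l : List (ℕ × G)) (Pf 𝓑 : Finset G)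
    (h : ∀ c ∈ l, P c.1 ∈ Pf ∧ c.2 ∈ 𝓑) : pv P s l ∈ (Fs Pf 𝓑) ^ l.length := by
  induction l generalizing s with
  | nil => simp [pv]
  | cons c l ih =>
    have h1 := h c List.mem_cons_self
    have ih' := fun s => ih s (fun c hc => h c (List.mem_cons_of_mem _ hc))
    rw [List.length_cons, pow_succ']
    cases s with
    | false =>
      show (P c.1)⁻¹ * pv P true l ∈ _
      refine Finset.mul_mem_mul ?_ (ih' true)
      unfold Fs
      exact Finset.mem_insert_of_mem (Finset.mem_union_left _ (Finset.inv_mem_inv h1.1))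
    | true =>
      show P c.1 * c.2 * pv P false l ∈ _
      refine Finset.mul_mem_mul ?_ (ih' false)
      unfold Fs
      exact Finset.mem_insert_of_mem (Finset.mem_union_right _ (Finset.mul_mem_mul h1.1 h1.2))

open Classical in
theorem pv_mem_pow' (P : ℕ → G) (s : Bool) (l : List (ℕ × G)) (Pf 𝓑 : Finset G) (K : ℕ)
    (hK : l.length ≤ K)
    (h : ∀ c ∈ l, P c.1 ∈ Pf ∧ c.2 ∈ 𝓑) : pv P s l ∈ (Fs Pf 𝓑) ^ K :=
  Finset.pow_subset_pow_right (one_mem_Fs _ _) hK (pv_mem_pow P s l Pf 𝓑 h)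

/-- Block `p` is inside. -/
def inn (L : List (ℕ × G)) (p : ℕ) : Prop := Odd (L.countP (fun c => decide (c.1 ≤ p)))

/-- Blocks `p, ..., q` are inside and in the same interval. -/
def conn (L : List (ℕ × G)) (p q : ℕ) : Prop := inn L p ∧ ∀ c ∈ L, ¬ (p < c.1 ∧ c.1 ≤ q)

omit [Group G] in
theorem inn_congr {L : List (ℕ × G)} {p q : ℕ} (hpq : p ≤ q)
    (h : ∀ c ∈ L, ¬ (p < c.1 ∧ c.1 ≤ q)) : inn L p ↔ inn L q := by
  unfold inn
  have : L.countP (fun c => decide (c.1 ≤ p)) = L.countP (fun c => decide (c.1 ≤ q)) := by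
    apply List.countP_congr
    intro c hc
    have := h c hc
    simp only [decide_eq_true_eq]
    omega
  rw [this]

omit [Group G] in
theorem conn_self {L : List (ℕ × G)} {p : ℕ} : conn L p p ↔ inn L p := by
  unfold conn
  constructor
  · exact fun h => h.1
  · exact fun h => ⟨h, fun c _ hc => by omega⟩

omit [Group G] in
theorem conn_sub {L : List (ℕ × G)} {p q p' q' : ℕ} (h : conn L p q) (h1 : p ≤ p') (h2 : p' ≤ q')
    (h3 : q' ≤ q) : conn L p' q' := by
  refine ⟨(inn_congr h1 (fun c hc hc' => h.2 c hc ⟨hc'.1, by omega⟩)).1 h.1, ?_⟩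
  intro c hc hc'
  exact h.2 c hc ⟨by omega, by omega⟩

omit [Group G] in
theorem exists_cut {L : List (ℕ × G)} {p q : ℕ} (hpq : p ≤ q) (h : ¬ (inn L p ↔ inn L q)) :
    ∃ c ∈ L, p < c.1 ∧ c.1 ≤ q := by
  by_contra hc
  push Not at hc
  exact h (inn_congr hpq (fun c hc' hh => by have := hc c hc' hh.1; omega))

omit [Group G] in
theorem not_inn_nil (p : ℕ) : ¬ inn ([] : List (ℕ × G)) p := by simp [inn]

/-- A sweep of the word `w`. -/
structure Sweep (K D : ℕ) (𝓑 : Finset G) (w : List G) where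
  b : ℕ → G
  cuts : ℕ → List (ℕ × G)
  hb : ∀ t, b t ∈ 𝓑
  hc : ∀ t, ∀ c ∈ cuts t, c.2 ∈ 𝓑
  sorted : ∀ t, (cuts t).Pairwise (fun c c' => c.1 ≤ c'.1)
  len : ∀ t, (cuts t).length ≤ K
  eqn : ∀ t, b t * pv (fun i => (w.take i).prod) false (cuts t) = 1
  adj : ∀ t, ∀ c ∈ cuts t, inn (cuts t) c.1 ∨ (0 < c.1 ∧ inn (cuts t) (c.1 - 1))
  mono : ∀ t p q, p ≤ q → q < w.length → conn (cuts (t + 1)) p q → conn (cuts t) p q
  init : ∀ p q, p ≤ q → q < w.length → conn (cuts 0) p q
  fin : ∃ T, ∀ t, T ≤ t → cuts t = []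
  jump : ∀ t p, p + D < w.length → conn (cuts t) p (p + D) →
    ∃ q, p ≤ q ∧ q ≤ p + D ∧ inn (cuts (t + 1)) q

namespace Sweep

variable {K D : ℕ} {𝓑 : Finset G} {w : List G} (S : Sweep K D 𝓑 w)

/-- Value of the first `i` letters. -/
def P (_ : Sweep K D 𝓑 w) : ℕ → G := fun i => (w.take i).prod

theorem mono_le {t t' p q : ℕ} (htt : t ≤ t') (hpq : p ≤ q) (hq : q < w.length)
    (h : conn (S.cuts t') p q) : conn (S.cuts t) p q := by
  induction htt with
  | refl => exact h
  | step _ ih => exact ih (S.mono _ _ _ hpq hq h)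

theorem inn_mono {t t' p : ℕ} (htt : t ≤ t') (hp : p < w.length)
    (h : inn (S.cuts t') p) : inn (S.cuts t) p :=
  conn_self.1 (S.mono_le htt le_rfl hp (conn_self.2 h))

/-- There is a cut in the closed region `[a,b]`. -/
def nonclean (t a b : ℕ) : Prop := ∃ c ∈ S.cuts t, a ≤ c.1 ∧ c.1 ≤ b

def cnt (t a b : ℕ) : ℕ := (S.cuts t).countP (fun c => decide (a ≤ c.1 ∧ c.1 ≤ b))

theorem ex_al (a b : ℕ) : ∃ t, ¬ conn (S.cuts t) (a - 1) b := by
  obtain ⟨T, hT⟩ := S.fin
  refine ⟨T, ?_⟩
  rw [hT T le_rfl]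
  exact fun h => not_inn_nil _ h.1

theorem ex_om (a b : ℕ) : ∃ t, ∀ q, a - 1 ≤ q → q ≤ b → ¬ inn (S.cuts t) q := by
  obtain ⟨T, hT⟩ := S.fin
  refine ⟨T, ?_⟩
  rw [hT T le_rfl]
  exact fun q _ _ => not_inn_nil _

open Classical in
/-- First time the region is not in-clean. -/
noncomputable def al (a b : ℕ) : ℕ := Nat.find (S.ex_al a b)

open Classical in
/-- First time the region is out-clean. -/
noncomputable def om (a b : ℕ) : ℕ := Nat.find (S.ex_om a b)

theorem conn_of_lt_al {a b t : ℕ} (h : t < S.al a b) : conn (S.cuts t) (a - 1) b := by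
  classical
  have := Nat.find_min (S.ex_al a b) h
  push Not at this
  exact this

theorem not_conn_of_al_le {a b t : ℕ} (hab : a ≤ b) (hb : b < w.length) (h : S.al a b ≤ t) :
    ¬ conn (S.cuts t) (a - 1) b := by
  classical
  intro hc
  have := Nat.find_spec (S.ex_al a b)
  exact this (S.mono_le h (by omega) hb hc)

theorem out_of_om_le {a b t : ℕ} (hb : b < w.length) (h : S.om a b ≤ t) :
    ∀ q, a - 1 ≤ q → q ≤ b → ¬ inn (S.cuts t) q := by
  classical
  intro q h1 h2 hq
  exact Nat.find_spec (S.ex_om a b) q h1 h2 (S.inn_mono h (by omega) hq)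

theorem ex_in_of_lt_om {a b t : ℕ} (h : t < S.om a b) :
    ∃ q, a - 1 ≤ q ∧ q ≤ b ∧ inn (S.cuts t) q := by
  classical
  have := Nat.find_min (S.ex_om a b) h
  push Not at this
  obtain ⟨q, h1, h2, h3⟩ := this
  exact ⟨q, h1, h2, h3⟩

theorem nonclean_iff {a b t : ℕ} (ha : 1 ≤ a) (hab : a ≤ b) (hb : b < w.length) :
    S.nonclean t a b ↔ S.al a b ≤ t ∧ t < S.om a b := by
  constructor
  · rintro ⟨c, hc, h1, h2⟩
    constructor
    · by_contra hlt
      push Not at hlt
      exact (S.conn_of_lt_al hlt).2 c hc ⟨by omega, h2⟩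
    · by_contra hlt
      push Not at hlt
      have hout := S.out_of_om_le hb hlt
      rcases S.adj t c hc with h | ⟨h0, h⟩
      · exact hout _ (by omega) h2 h
      · exact hout _ (by omega) (by omega) h
  · rintro ⟨h1, h2⟩
    by_contra hno
    have hno' : ∀ c ∈ S.cuts t, ¬ (a - 1 < c.1 ∧ c.1 ≤ b) :=
      fun c hc hh => hno ⟨c, hc, by omega, hh.2⟩
    obtain ⟨q, h3, h4, h5⟩ := S.ex_in_of_lt_om h2
    have hin : inn (S.cuts t) (a - 1) :=
      (inn_congr h3 (fun c hc hh => hno' c hc ⟨hh.1, by omega⟩)).2 h5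
    exact S.not_conn_of_al_le hab hb h1 ⟨hin, hno'⟩

theorem al_lt_om {a b : ℕ} (ha : 1 ≤ a) (hab : a ≤ b) (hb : b < w.length) (hD : D ≤ b - a + 1) :
    S.al a b < S.om a b := by
  classical
  by_contra hcon
  push Not at hcon
  have h0 : 0 < S.om a b := by
    rcases Nat.eq_zero_or_pos (S.om a b) with h | h
    · exfalso
      have := S.out_of_om_le (a := a) hb (le_of_eq h) b (by omega) le_rfl
      exact this (conn_self.1 (S.init b b le_rfl hb))
    · exact h
  have h1 : conn (S.cuts (S.om a b - 1)) (a - 1) b := S.conn_of_lt_al (by omega)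
  have h2 : conn (S.cuts (S.om a b - 1)) (a - 1) (a - 1 + D) := conn_sub h1 le_rfl (by omega) (by omega)
  obtain ⟨q, hq1, hq2, hq3⟩ := S.jump _ _ (by omega) h2
  have : S.om a b - 1 + 1 = S.om a b := by omega
  rw [this] at hq3
  exact S.out_of_om_le hb le_rfl q hq1 (by omega) hq3

/-- Trace lemma. -/
theorem trace_gap {p q t0 t : ℕ} (hpq : p < q) (hq : q < w.length) (ht : t0 ≤ t)
    (hpq1 : conn (S.cuts t0) p q → conn (S.cuts t) p q)
    (hcut : ∃ c ∈ S.cuts t, p < c.1 ∧ c.1 ≤ q) : ∃ c ∈ S.cuts t0, p < c.1 ∧ c.1 ≤ q := by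
  by_cases hp : inn (S.cuts t0) p
  · by_contra hno
    push Not at hno
    have hc : conn (S.cuts t0) p q := ⟨hp, fun c hc hh => by have := hno c hc hh.1; omega⟩
    obtain ⟨c, hc', h1, h2⟩ := hcut
    exact (hpq1 hc).2 c hc' ⟨h1, h2⟩
  · by_cases hqq : inn (S.cuts t0) q
    · exact exists_cut hpq.le (fun h => hp (h.2 hqq))
    · -- both out
      have hp' : ¬ inn (S.cuts t) p := fun h => hp (S.inn_mono ht (by omega) h)
      have hq' : ¬ inn (S.cuts t) q := fun h => hqq (S.inn_mono ht hq h)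
      obtain ⟨c, hc, h1, h2⟩ := hcut
      have : ∃ x, p < x ∧ x < q ∧ inn (S.cuts t) x := by
        rcases S.adj t c hc with h | ⟨h0, h⟩
        · refine ⟨c.1, h1, ?_, h⟩
          rcases Nat.lt_or_ge c.1 q with h' | h'
          · exact h'
          · have : c.1 = q := by omega
            rw [this] at h; exact absurd h hq'
        · refine ⟨c.1 - 1, ?_, by omega, h⟩
          rcases Nat.lt_or_ge p (c.1 - 1) with h' | h'
          · exact h'
          · have : c.1 - 1 = p := by omega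
            rw [this] at h; exact absurd h hp'
      obtain ⟨x, hx1, hx2, hx3⟩ := this
      have hx4 : inn (S.cuts t0) x := S.inn_mono ht (by omega) hx3
      obtain ⟨c', hc', h3, h4⟩ := exists_cut hx1.le (fun h => hp (h.2 hx4))
      exact ⟨c', hc', h3, by omega⟩

end Sweep

end Pool.Agent.EDT
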