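import Mathlib
import Pool.Agent.EDT.Sweep

set_option autoImplicit false

namespace Pool.Agent.EDT

open scoped Pointwise

variable {G : Type} [Group G]

theorem nxt_add (s : Bool) (a b : ℕ) : nxt (nxt s a) b = nxt s (a + b) := by
  induction a generalizing s with
  | zero => simp [nxt_zero]
  | succ a ih =>
    rw [nxt_succ, ih, Nat.succ_add, nxt_succ]

theorem nxt_false_eq_true (n : ℕ) : nxt false n = true ↔ Odd n := by
  unfold nxt
  by_cases h : Even n
  · rw [if_pos h]
    constructor
    · intro h'; exact absurd h' (by simp)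
    · intro h'; exact absurd h (Nat.not_even_iff_odd.2 h')
  · rw [if_neg h]
    constructor
    · intro _; exact Nat.not_even_iff_odd.1 h
    · intro _; rfl

omit [Group G] in
theorem filter_split (L : List (ℕ × G)) (h : L.Pairwise (fun c c' => c.1 ≤ c'.1)) (a : ℕ) :
    L = L.filter (fun c => decide (c.1 < a)) ++ L.filter (fun c => decide (a ≤ c.1)) := by
  induction L with
  | nil => rfl
  | cons c L ih =>
    rw [List.pairwise_cons] at h
    by_cases hc : c.1 < a
    · rw [List.filter_cons_of_pos (by simpa using hc), List.filter_cons_of_neg (by simpa using hc),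
        List.cons_append, ← ih h.2]
    · push Not at hc
      rw [List.filter_cons_of_neg (by simpa using hc), List.filter_cons_of_pos (by simpa using hc)]
      have h1 : L.filter (fun c => decide (c.1 < a)) = [] := by
        rw [List.filter_eq_nil_iff]
        intro c' hc'
        have := h.1 c' hc'
        simp only [decide_eq_true_eq]; omega
      have h2 : L.filter (fun c => decide (a ≤ c.1)) = L := by
        rw [List.filter_eq_self]
        intro c' hc'
        have := h.1 c' hc'
        simp only [decide_eq_true_eq]; omega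
      rw [h1, h2, List.nil_append]

omit [Group G] in
theorem sorted_filter (L : List (ℕ × G)) (h : L.Pairwise (fun c c' => c.1 ≤ c'.1))
    (p : ℕ × G → Bool) : (L.filter p).Pairwise (fun c c' => c.1 ≤ c'.1) :=
  h.sublist List.filter_sublist

namespace Sweep

variable {K D : ℕ} {𝓑 : Finset G} {w : List G} (S : Sweep K D 𝓑 w)

def Lft (t a : ℕ) : G := S.b t * pv S.P false ((S.cuts t).filter (fun c => decide (c.1 < a)))

def Rgt (t b : ℕ) : G :=
  pv S.P (nxt false ((S.cuts t).countP (fun c => decide (c.1 ≤ b))))
    ((S.cuts t).filter (fun c => decide (b < c.1)))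

def Mid (t a b : ℕ) : List (ℕ × G) := (S.cuts t).filter (fun c => decide (a ≤ c.1 ∧ c.1 ≤ b))

theorem Mid_length (t a b : ℕ) : (S.Mid t a b).length = S.cnt t a b := by
  unfold Mid cnt
  rw [List.countP_eq_length_filter]

theorem cnt_le (t a b : ℕ) : S.cnt t a b ≤ K := by
  unfold cnt
  exact List.countP_le_length.trans (S.len t)

theorem Lft_eq {t A a : ℕ} (h : A ≤ a) : S.Lft t a = S.Lft t A *
    pv S.P (nxt false ((S.cuts t).filter (fun c => decide (c.1 < A))).length)
      ((S.cuts t).filter (fun c => decide (A ≤ c.1 ∧ c.1 < a))) := by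
  unfold Lft
  rw [mul_assoc, ← pv_append]
  congr 2
  have h1 := filter_split _ (sorted_filter _ (S.sorted t) (fun c => decide (c.1 < a))) A
  rw [h1, List.filter_filter, List.filter_filter]
  congr 1
  · apply List.filter_congr
    intro c _
    by_cases hc : c.1 < A
    · have : c.1 < a := by omega
      simp [hc, this]
    · simp [hc]
  · apply List.filter_congr
    intro c _
    by_cases hc : A ≤ c.1 <;> by_cases hc' : c.1 < a <;> simp [hc, hc']

theorem Rgt_eq {t b B : ℕ} (h : b ≤ B) : S.Rgt t b =
    pv S.P (nxt false ((S.cuts t).countP (fun c => decide (c.1 ≤ b))))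
      ((S.cuts t).filter (fun c => decide (b < c.1 ∧ c.1 ≤ B))) * S.Rgt t B := by
  unfold Rgt
  have h1 := filter_split _ (sorted_filter _ (S.sorted t) (fun c => decide (b < c.1))) (B + 1)
  rw [List.filter_filter, List.filter_filter] at h1
  have e1 : (S.cuts t).filter (fun c => decide (c.1 < B + 1) && decide (b < c.1)) =
      (S.cuts t).filter (fun c => decide (b < c.1 ∧ c.1 ≤ B)) := by
    apply List.filter_congr
    intro c _
    by_cases hc : b < c.1 <;> by_cases hc' : c.1 ≤ B
    · have : c.1 < B + 1 := by omega
      simp [hc, hc', this]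
    · have : ¬ c.1 < B + 1 := by omega
      simp [hc', this]
    · simp [hc]
    · simp [hc]
  have e2 : (S.cuts t).filter (fun c => decide (B + 1 ≤ c.1) && decide (b < c.1)) =
      (S.cuts t).filter (fun c => decide (B < c.1)) := by
    apply List.filter_congr
    intro c _
    by_cases hc : B < c.1
    · have h1 : B + 1 ≤ c.1 := by omega
      have h2 : b < c.1 := by omega
      simp [hc, h1, h2]
    · have h1 : ¬ B + 1 ≤ c.1 := by omega
      simp [hc, h1]
  rw [e1, e2] at h1
  rw [h1, pv_append, nxt_add]
  congr 3
  rw [List.countP_eq_length_filter, List.countP_eq_length_filter, ← List.length_append]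
  have h2 := filter_split _ (sorted_filter _ (S.sorted t) (fun c => decide (c.1 ≤ B))) (b + 1)
  rw [List.filter_filter, List.filter_filter] at h2
  rw [h2]
  congr 2
  · apply List.filter_congr
    intro c _
    by_cases hc : c.1 ≤ b
    · have h1 : c.1 < b + 1 := by omega
      have h2 : c.1 ≤ B := by omega
      simp [hc, h1, h2]
    · have h1 : ¬ c.1 < b + 1 := by omega
      simp [hc, h1]
  · apply List.filter_congr
    intro c _
    by_cases hc : b < c.1 <;> by_cases hc' : c.1 ≤ B
    · have : b + 1 ≤ c.1 := by omega
      simp [hc, hc', this]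
    · simp [hc']
    · have : ¬ b + 1 ≤ c.1 := by omega
      simp [hc, this]
    · simp [hc']

theorem region_eqn {t a b : ℕ} (hab : a ≤ b) :
    S.Lft t a * pv S.P (nxt false ((S.cuts t).countP (fun c => decide (c.1 < a)))) (S.Mid t a b) *
      S.Rgt t b = 1 := by
  have h0 := S.eqn t
  have h1 := filter_split _ (S.sorted t) a
  have h2 := filter_split _ (sorted_filter _ (S.sorted t) (fun c => decide (a ≤ c.1))) (b + 1)
  rw [List.filter_filter, List.filter_filter] at h2
  have e1 : (S.cuts t).filter (fun c => decide (c.1 < b + 1) && decide (a ≤ c.1)) = S.Mid t a b := by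
    unfold Mid
    apply List.filter_congr
    intro c _
    by_cases hc : a ≤ c.1 <;> by_cases hc' : c.1 ≤ b
    · have : c.1 < b + 1 := by omega
      simp [hc, hc', this]
    · have : ¬ c.1 < b + 1 := by omega
      simp [hc', this]
    · simp [hc]
    · simp [hc]
  have e2 : (S.cuts t).filter (fun c => decide (b + 1 ≤ c.1) && decide (a ≤ c.1)) =
      (S.cuts t).filter (fun c => decide (b < c.1)) := by
    apply List.filter_congr
    intro c _
    by_cases hc : b < c.1
    · have h1 : b + 1 ≤ c.1 := by omega
      have h2 : a ≤ c.1 := by omega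
      simp [hc, h1, h2]
    · have h1 : ¬ b + 1 ≤ c.1 := by omega
      simp [hc, h1]
  rw [e1, e2] at h2
  rw [h2] at h1
  have h3 : pv S.P false (S.cuts t) =
      pv S.P false ((S.cuts t).filter (fun c => decide (c.1 < a))) *
      (pv S.P (nxt false ((S.cuts t).countP (fun c => decide (c.1 < a)))) (S.Mid t a b) *
      pv S.P (nxt false ((S.cuts t).countP (fun c => decide (c.1 ≤ b))))
        ((S.cuts t).filter (fun c => decide (b < c.1)))) := by
    conv_lhs => rw [h1]
    rw [pv_append, pv_append, nxt_add, ← List.countP_eq_length_filter]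
    congr 3
    have hm : (S.Mid t a b).length = (S.cuts t).countP (fun c => decide (a ≤ c.1 ∧ c.1 ≤ b)) :=
      S.Mid_length t a b
    rw [hm]
    have h4 : (S.cuts t).countP (fun c => decide (c.1 ≤ b)) =
        (S.cuts t).countP (fun c => decide (c.1 < a)) +
        (S.cuts t).countP (fun c => decide (a ≤ c.1 ∧ c.1 ≤ b)) := by
      clear h0 h1 h2 e1 e2 hm
      induction S.cuts t with
      | nil => rfl
      | cons c L ih =>
        simp only [List.countP_cons, ih]
        by_cases hc : c.1 < a
        · have h1 : c.1 ≤ b := by omega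
          have h2 : ¬ a ≤ c.1 := by omega
          simp [hc, h1, h2]; omega
        · by_cases hc' : c.1 ≤ b
          · have h2 : a ≤ c.1 := by omega
            simp [hc, hc', h2]; omega
          · simp [hc, hc']
    rw [h4]
  unfold Lft Rgt
  have h5 : S.b t * pv S.P false (S.cuts t) = 1 := h0
  rw [h3] at h5
  rw [← h5]
  simp only [mul_assoc]

/-- The outside of the region `[a,b]` is `(z,E)`-tame. -/
def Tame (z E a b : ℕ) : Prop :=
  ∃ s : ℕ → ℕ, Monotone s ∧ (∀ t, s t ≤ E) ∧ ∀ v, ∃ F : Finset (G × G), F.card ≤ z ∧
    ∀ t, S.nonclean t a b → s t = v → (S.Lft t a, S.Rgt t b) ∈ F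

end Sweep

/-- `g` is `(k;z,E)`-hard. -/
def Hard (K D : ℕ) (𝓑 : Finset G) (k z E : ℕ) (g : List G) : Prop :=
  ∀ w u v : List G, w = u ++ g ++ v → u ≠ [] → v ≠ [] → ∀ S : Sweep K D 𝓑 w,
    S.Tame z E u.length (u.length + g.length) →
      ∃ t, k ≤ S.cnt t u.length (u.length + g.length)

end Pool.Agent.EDT
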