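import Mathlib
import Pool.Agent.EDT.Region

set_option autoImplicit false

namespace Pool.Agent.EDT

open scoped Pointwise

variable {G : Type} [Group G]

namespace Sweep

variable {K D : ℕ} {𝓑 : Finset G} {w : List G} (S : Sweep K D 𝓑 w)

open Classical in
/-- The gap of the position `e`. -/
noncomputable def gp (r : ℕ) (a b σ : ℕ → ℕ) (j e : ℕ) : ℕ × ℕ :=
  if h : ∃ i < r, σ i ≤ j ∧ a i ≤ e ∧ e ≤ b i then (a h.choose - 1, b h.choose) else (e - 1, e)

theorem gp_child {r : ℕ} {a b σ : ℕ → ℕ} {j e i : ℕ} (hdisj : ∀ i i', i < i' → i' < r → b i < a i')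
    (hi : i < r) (hσ : σ i ≤ j) (h1 : a i ≤ e) (h2 : e ≤ b i) :
    gp r a b σ j e = (a i - 1, b i) := by
  classical
  have h : ∃ i < r, σ i ≤ j ∧ a i ≤ e ∧ e ≤ b i := ⟨i, hi, hσ, h1, h2⟩
  unfold gp
  rw [dif_pos h]
  obtain ⟨g1, g2, g3, g4⟩ := h.choose_spec
  have : h.choose = i := by
    rcases Nat.lt_trichotomy h.choose i with hlt | heq | hlt
    · have := hdisj _ _ hlt hi; omega
    · exact heq
    · have := hdisj _ _ hlt g1; omega
  rw [this]

theorem gp_other {r : ℕ} {a b σ : ℕ → ℕ} {j e : ℕ}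
    (h : ¬ ∃ i < r, σ i ≤ j ∧ a i ≤ e ∧ e ≤ b i) : gp r a b σ j e = (e - 1, e) := by
  classical
  unfold gp
  rw [dif_neg h]

open Classical in
theorem child_tame {z E A B r nb : ℕ} {a b σ : ℕ → ℕ} {i0 : ℕ} {V : Finset G}
    (hA : 1 ≤ A) (hB : B < w.length)
    (hT : S.Tame z E A B)
    (hi0 : i0 < r)
    (hreg : ∀ i < r, A ≤ a i ∧ a i ≤ b i ∧ b i ≤ B)
    (hdisj : ∀ i i', i < i' → i' < r → b i < a i')
    (hsolo : ∀ i < r, i ≠ i0 → σ i = σ i0 → ∀ t, S.nonclean t (a i0) (b i0) →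
      ¬ S.nonclean t (a i) (b i))
    (hV1 : (1 : G) ∈ V)
    (hV : ∀ i < r, σ i < σ i0 → ∀ e, a i ≤ e → e ≤ b i → ∃ v ∈ V, S.P e = S.P (a i) * v)
    (hnb : ((Finset.Icc A B).filter
      (fun e => ¬ ∃ i < r, σ i ≤ σ i0 ∧ a i ≤ e ∧ e ≤ b i)).card ≤ nb) :
    S.Tame (z * ((1 + K * V.card * (1 + 𝓑.card)) ^ K * (1 + K * V.card * (1 + 𝓑.card)) ^ K))
      (E + (r + nb)) (a i0) (b i0) := by
  obtain ⟨s, hs, hsE, hF⟩ := hT
  set j := σ i0 with hj
  set g := gp r a b σ j with hg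
  set TP := (Finset.Icc A B).image g with hTP
  have hTPcard : TP.card ≤ r + nb := by
    have hsub : TP ⊆ (Finset.range r).image (fun i => (a i - 1, b i)) ∪
        ((Finset.Icc A B).filter (fun e => ¬ ∃ i < r, σ i ≤ j ∧ a i ≤ e ∧ e ≤ b i)).image
          (fun e => (e - 1, e)) := by
      intro x hx
      rw [hTP, Finset.mem_image] at hx
      obtain ⟨e, he, rfl⟩ := hx
      by_cases h : ∃ i < r, σ i ≤ j ∧ a i ≤ e ∧ e ≤ b i
      · obtain ⟨i, h1, h2, h3, h4⟩ := h
        refine Finset.mem_union_left _ ?_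
        rw [hg, gp_child hdisj h1 h2 h3 h4]
        exact Finset.mem_image.2 ⟨i, Finset.mem_range.2 h1, rfl⟩
      · refine Finset.mem_union_right _ ?_
        rw [hg, gp_other h]
        exact Finset.mem_image.2 ⟨e, Finset.mem_filter.2 ⟨he, h⟩, rfl⟩
    refine (Finset.card_le_card hsub).trans ((Finset.card_union_le _ _).trans ?_)
    refine Nat.add_le_add (Finset.card_image_le.trans (by simp)) (Finset.card_image_le.trans hnb)
  -- pairs in `TP`
  have hTPle : ∀ pq ∈ TP, pq.1 < pq.2 ∧ pq.2 < w.length := by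
    intro x hx
    rw [hTP, Finset.mem_image] at hx
    obtain ⟨e, he, rfl⟩ := hx
    rw [Finset.mem_Icc] at he
    by_cases h : ∃ i < r, σ i ≤ j ∧ a i ≤ e ∧ e ≤ b i
    · obtain ⟨i, h1, h2, h3, h4⟩ := h
      rw [hg, gp_child hdisj h1 h2 h3 h4]
      have := hreg i h1
      constructor <;> dsimp only <;> omega
    · rw [hg, gp_other h]
      constructor <;> dsimp only <;> omega
  set tr : ℕ → ℕ := fun t => (TP.filter (fun pq => ¬ conn (S.cuts t) pq.1 pq.2)).card with htr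
  have htrsub : ∀ t t', t ≤ t' → TP.filter (fun pq => ¬ conn (S.cuts t) pq.1 pq.2) ⊆
      TP.filter (fun pq => ¬ conn (S.cuts t') pq.1 pq.2) := by
    intro t t' htt x hx
    rw [Finset.mem_filter] at hx ⊢
    refine ⟨hx.1, fun h => hx.2 ?_⟩
    obtain ⟨h1, h2⟩ := hTPle x hx.1
    exact S.mono_le htt h1.le h2 h
  have htrmono : Monotone tr := fun t t' htt => Finset.card_le_card (htrsub t t' htt)
  refine ⟨fun t => s t + tr t, fun t t' htt => Nat.add_le_add (hs htt) (htrmono htt), ?_, ?_⟩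
  · intro t
    exact Nat.add_le_add (hsE t) ((Finset.card_filter_le _ _).trans hTPcard)
  intro v
  by_cases hex : ∃ t, S.nonclean t (a i0) (b i0) ∧ s t + tr t = v
  swap
  · refine ⟨∅, Nat.zero_le _, ?_⟩
    intro t h1 h2
    exact absurd ⟨t, h1, h2⟩ hex
  set t0 := Nat.find hex with ht0
  obtain ⟨ht01, ht02⟩ := Nat.find_spec hex
  rw [← ht0] at ht01 ht02
  set P0 : Finset G := ((S.cuts t0).toFinset.image (fun c => S.P ((g c.1).1 + 1))) * V with hP0
  have hP0card : P0.card ≤ K * V.card := by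
    refine Finset.card_mul_le.trans (Nat.mul_le_mul_right _ ?_)
    exact Finset.card_image_le.trans ((List.toFinset_card_le _).trans (S.len t0))
  set X : Finset G := (Fs P0 𝓑) ^ K with hX
  have hXcard : X.card ≤ (1 + K * V.card * (1 + 𝓑.card)) ^ K := by
    refine Finset.card_pow_le.trans (Nat.pow_le_pow_left ?_ _)
    refine (card_Fs _ _).trans ?_
    exact Nat.add_le_add_left (Nat.mul_le_mul_right _ hP0card) _
  obtain ⟨FQ, hFQ1, hFQ2⟩ := hF (s t0)
  refine ⟨(FQ ×ˢ (X ×ˢ X)).image (fun x => (x.1.1 * x.2.1, x.2.2 * x.1.2)), ?_, ?_⟩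
  · refine Finset.card_image_le.trans ?_
    rw [Finset.card_product, Finset.card_product]
    exact Nat.mul_le_mul hFQ1 (Nat.mul_le_mul hXcard hXcard)
  intro t ht1 ht2
  have htt : t0 ≤ t := Nat.find_min' hex ⟨ht1, ht2⟩
  have hseq : s t = s t0 ∧ tr t = tr t0 := by
    have h1 := hs htt
    have h2 := htrmono htt
    have h3 : s t0 + tr t0 = v := ht02
    dsimp only at ht2
    omega
  have hconn : ∀ pq ∈ TP, conn (S.cuts t0) pq.1 pq.2 → conn (S.cuts t) pq.1 pq.2 := by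
    intro pq hpq h
    by_contra hno
    have heq := Finset.eq_of_subset_of_card_le (htrsub t0 t htt) (le_of_eq hseq.2)
    have : pq ∈ TP.filter (fun pq => ¬ conn (S.cuts t) pq.1 pq.2) := Finset.mem_filter.2 ⟨hpq, hno⟩
    rw [← heq] at this
    exact (Finset.mem_filter.1 this).2 h
  obtain ⟨hr1, hr2, hr3⟩ := hreg i0 hi0
  have hQ : S.nonclean t A B := by
    obtain ⟨c, hc, h1, h2⟩ := ht1
    exact ⟨c, hc, by omega, by omega⟩
  have hLR := hFQ2 t hQ hseq.1
  -- values of cuts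
  have hval : ∀ c ∈ S.cuts t, A ≤ c.1 → c.1 ≤ B → ¬ (a i0 ≤ c.1 ∧ c.1 ≤ b i0) → S.P c.1 ∈ P0 := by
    intro c hc hcA hcB hcn
    have hgTP : g c.1 ∈ TP := Finset.mem_image.2 ⟨c.1, Finset.mem_Icc.2 ⟨hcA, hcB⟩, rfl⟩
    by_cases h : ∃ i < r, σ i ≤ j ∧ a i ≤ c.1 ∧ c.1 ≤ b i
    · obtain ⟨i, h1, h2, h3, h4⟩ := h
      have hge : g c.1 = (a i - 1, b i) := by rw [hg]; exact gp_child hdisj h1 h2 h3 h4
      have hri := hreg i h1
      have hne : i ≠ i0 := by
        rintro rfl; exact hcn ⟨h3, h4⟩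
      have hlt : σ i < j := by
        rcases Nat.lt_or_ge (σ i) j with h | h
        · exact h
        · exact absurd ⟨c, hc, h3, h4⟩ (hsolo i h1 hne (by omega) t ht1)
      obtain ⟨c0, hc0, h5, h6⟩ := S.trace_gap (p := a i - 1) (q := b i) (by omega) (by omega) htt
        (by have := hconn _ hgTP; rw [hge] at this; exact this)
        ⟨c, hc, by omega, by omega⟩
      have hge0 : g c0.1 = (a i - 1, b i) := by
        rw [hg]; exact gp_child hdisj h1 h2 (by omega) (by omega)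
      obtain ⟨v, hv, hPv⟩ := hV i h1 hlt c.1 h3 h4
      rw [hPv, hP0]
      refine Finset.mul_mem_mul (Finset.mem_image.2 ⟨c0, List.mem_toFinset.2 hc0, ?_⟩) hv
      rw [hge0]
      dsimp only
      congr 1
      omega
    · have hge : g c.1 = (c.1 - 1, c.1) := by rw [hg]; exact gp_other h
      obtain ⟨c0, hc0, h5, h6⟩ := S.trace_gap (p := c.1 - 1) (q := c.1) (by omega) (by omega) htt
        (by have := hconn _ hgTP; rw [hge] at this; exact this)
        ⟨c, hc, by omega, by omega⟩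
      have hc0e : c0.1 = c.1 := by omega
      have : S.P c.1 = S.P c.1 * 1 := (mul_one _).symm
      rw [this, hP0]
      refine Finset.mul_mem_mul (Finset.mem_image.2 ⟨c0, List.mem_toFinset.2 hc0, ?_⟩) hV1
      rw [hc0e, hge]
      dsimp only
      congr 1
      omega
  rw [Finset.mem_image]
  refine ⟨((S.Lft t A, S.Rgt t B),
    (pv S.P (nxt false ((S.cuts t).filter (fun c => decide (c.1 < A))).length)
      ((S.cuts t).filter (fun c => decide (A ≤ c.1 ∧ c.1 < a i0))),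
     pv S.P (nxt false ((S.cuts t).countP (fun c => decide (c.1 ≤ b i0))))
      ((S.cuts t).filter (fun c => decide (b i0 < c.1 ∧ c.1 ≤ B))))), ?_, ?_⟩
  · rw [Finset.mem_product, Finset.mem_product]
    refine ⟨hLR, ?_, ?_⟩
    · refine pv_mem_pow' _ _ _ _ _ _ ((List.length_filter_le _ _).trans (S.len t)) ?_
      intro c hc
      rw [List.mem_filter] at hc
      simp only [decide_eq_true_eq] at hc
      obtain ⟨hc1, hc2, hc3⟩ := hc
      exact ⟨hval c hc1 hc2 (by omega) (by omega), S.hc t c hc1⟩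
    · refine pv_mem_pow' _ _ _ _ _ _ ((List.length_filter_le _ _).trans (S.len t)) ?_
      intro c hc
      rw [List.mem_filter] at hc
      simp only [decide_eq_true_eq] at hc
      obtain ⟨hc1, hc2, hc3⟩ := hc
      exact ⟨hval c hc1 (by omega) hc3 (by omega), S.hc t c hc1⟩
  · dsimp only
    rw [← S.Lft_eq hr1, ← S.Rgt_eq hr3]

end Sweep

end Pool.Agent.EDT
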