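import Mathlib
import Pool.Agent.EDT.Child

set_option autoImplicit false

namespace Pool.Agent.EDT

open scoped Pointwise

theorem countP_lt {β : Type} (L : List β) (p q : β → Bool) (h : ∀ c ∈ L, p c = true → q c = true)
    (hex : ∃ c ∈ L, q c = true ∧ p c = false) : L.countP p < L.countP q := by
  induction L with
  | nil => obtain ⟨c, hc, _⟩ := hex; exact absurd hc (by simp)
  | cons d L ih =>
    rw [List.countP_cons, List.countP_cons]
    obtain ⟨c, hc, h1, h2⟩ := hex
    have hle : L.countP p ≤ L.countP q :=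
      List.countP_mono_left (fun c hc => h c (List.mem_cons_of_mem _ hc))
    have hd := h d List.mem_cons_self
    rcases List.mem_cons.1 hc with rfl | hc'
    · simp only [h1, h2, if_true, Bool.false_eq_true, if_false]
      omega
    · have := ih (fun c hc => h c (List.mem_cons_of_mem _ hc)) ⟨c, hc', h1, h2⟩
      by_cases hp : p d = true
      · simp only [hp, hd hp, if_true]; omega
      · simp only [hp]
        have : (if q d = true then 1 else 0) ≥ 0 := Nat.zero_le _
        simp only [Bool.false_eq_true, if_false]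
        omega

variable {G : Type} [Group G]

namespace Sweep

variable {K D : ℕ} {𝓑 : Finset G} {w : List G} (S : Sweep K D 𝓑 w)

theorem card_le_cuts {t : ℕ} (I : Finset ℕ) (lo hi : ℕ → ℕ)
    (hdisj : ∀ i ∈ I, ∀ i' ∈ I, i < i' → hi i < lo i')
    (hcut : ∀ i ∈ I, ∃ c ∈ S.cuts t, lo i ≤ c.1 ∧ c.1 ≤ hi i) : I.card ≤ K := by
  classical
  choose! f hf using hcut
  have h1 : I.card ≤ ((S.cuts t).map Prod.fst).toFinset.card := by
    refine Finset.card_le_card_of_injOn (fun i => (f i).1) ?_ ?_
    · intro i hi'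
      have := (hf i hi').1
      simp only [List.coe_toFinset, Set.mem_ofPred_eq, List.mem_map]
      exact ⟨f i, this, rfl⟩
    · intro i hi' j hj heq
      obtain ⟨_, h2, h3⟩ := hf i hi'
      obtain ⟨_, h4, h5⟩ := hf j hj
      simp only at heq
      rcases Nat.lt_trichotomy i j with h | h | h
      · have := hdisj i hi' j hj h; omega
      · exact h
      · have := hdisj j hj i hi' h; omega
  refine h1.trans ((List.toFinset_card_le _).trans ?_)
  rw [List.length_map]
  exact S.len t

theorem count_split (t a b : ℕ) (ha : 1 ≤ a) (hab : a ≤ b) :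
    (S.cuts t).countP (fun c => decide (c.1 ≤ b)) =
      (S.cuts t).countP (fun c => decide (c.1 ≤ a - 1)) + S.cnt t a b := by
  unfold cnt
  induction S.cuts t with
  | nil => rfl
  | cons c L ih =>
    simp only [List.countP_cons, ih]
    by_cases hc : c.1 ≤ a - 1
    · have h1 : c.1 ≤ b := by omega
      have h2 : ¬ a ≤ c.1 := by omega
      simp [hc, h1, h2]; omega
    · by_cases hc' : c.1 ≤ b
      · have h2 : a ≤ c.1 := by omega
        simp [hc, hc', h2]; omega
      · simp [hc, hc']

theorem nonclean_of_cnt {t a b : ℕ} (h : 1 ≤ S.cnt t a b) : S.nonclean t a b := by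
  unfold cnt at h
  obtain ⟨c, hc, h1⟩ := List.countP_pos_iff.1 h
  simp only [decide_eq_true_eq] at h1
  exact ⟨c, hc, h1⟩

open Classical in
theorem no_small {z E A B r k N n0 : ℕ} {a b σ : ℕ → ℕ} {V : Finset G} {lab : ℕ → G} {h0 : G}
    (hA : 1 ≤ A) (hB : B < w.length) (hT : S.Tame z E A B) (hk1 : 1 ≤ k)
    (hreg : ∀ i < r, A ≤ a i ∧ a i ≤ b i ∧ b i ≤ B)
    (hdisj : ∀ i i', i < i' → i' < r → b i < a i')
    (hsize : ∀ i < r, D ≤ b i - a i + 1)
    (hk : ∀ t, S.cnt t A B ≤ k)
    (hcrit : ∀ i0 < r, (∀ i < r, i ≠ i0 → σ i = σ i0 → ∀ t, S.nonclean t (a i0) (b i0) →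
      ¬ S.nonclean t (a i) (b i)) → ∃ t, k ≤ S.cnt t (a i0) (b i0))
    (hcode : ∀ α ω : ℕ → ℕ, (∀ i < r, α i < ω i) →
      (∀ t, ((Finset.range r).filter (fun i => α i ≤ t ∧ t < ω i)).card ≤ K + 1) →
      (∀ t, ((Finset.range r).filter (fun i => t < α i ∧ (i + 1 = r ∨ α (i + 1) ≤ t))).card ≤ K + 1) →
      2 * ((Finset.range r).filter
        (fun i => ∃ j < r, j ≠ i ∧ σ j = σ i ∧ α j < ω i ∧ α i < ω j)).card < r)
    (hlab : ∀ i < N, ∀ j < N, lab i = lab j → i = j)
    (hV : ∀ i < r, ∀ e, a i ≤ e → e ≤ b i → ∃ v ∈ V, S.P e = h0 * lab (i % N) * v)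
    (hn0 : 1 ≤ n0) (hn0' : z * (1 + V.card * (1 + 𝓑.card)) ^ K ≤ n0)
    (hN : N = 4 * n0) (hr : r = N * (E + 1)) : False := by
  have hr4 : 4 ≤ r := by
    rw [hr, hN]
    nlinarith
  have hreg1 : ∀ i < r, 1 ≤ a i ∧ a i ≤ b i ∧ b i < w.length := by
    intro i hi; have := hreg i hi; omega
  -- coding
  have hcode' := hcode (fun i => S.al (a i) (b i)) (fun i => S.om (a i) (b i))
    (by
      intro i hi
      obtain ⟨h1, h2, h3⟩ := hreg1 i hi
      exact S.al_lt_om h1 h2 h3 (hsize i hi))
    (by
      intro t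
      refine (S.card_le_cuts (t := t) _ a b ?_ ?_).trans (Nat.le_succ _)
      · intro i hi i' hi' hlt
        rw [Finset.mem_filter, Finset.mem_range] at hi'
        exact hdisj i i' hlt hi'.1
      · intro i hi
        rw [Finset.mem_filter, Finset.mem_range] at hi
        obtain ⟨h1, h2, h3⟩ := hreg1 i hi.1
        exact (S.nonclean_iff h1 h2 h3).2 hi.2)
    (by
      intro t
      have hsub : (Finset.range r).filter (fun i => t < S.al (a i) (b i) ∧
          (i + 1 = r ∨ S.al (a (i + 1)) (b (i + 1)) ≤ t)) ⊆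
          insert (r - 1) ((Finset.range (r - 1)).filter (fun i => t < S.al (a i) (b i) ∧
          (S.al (a (i + 1)) (b (i + 1)) ≤ t))) := by
        intro i hi
        simp only [Finset.mem_filter, Finset.mem_range, Finset.mem_insert] at hi ⊢
        obtain ⟨h1, h2, h3⟩ := hi
        by_cases hir : i + 1 = r
        · left; omega
        · right
          refine ⟨by omega, h2, ?_⟩
          rcases h3 with h | h
          · exact absurd h hir
          · exact h
      refine (Finset.card_le_card hsub).trans ((Finset.card_insert_le _ _).trans ?_)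
      refine Nat.succ_le_succ (S.card_le_cuts (t := t) _ (fun i => b i + 1) (fun i => b (i + 1)) ?_ ?_)
      · intro i hi i' hi' hlt
        rw [Finset.mem_filter, Finset.mem_range] at hi hi'
        rcases Nat.lt_or_ge (i + 1) i' with h | h
        · have h1 := hdisj (i + 1) i' h (by omega)
          have h2 := hreg1 i' (by omega)
          omega
        · have : i' = i + 1 := by omega
          subst this
          omega
      · intro i hi
        rw [Finset.mem_filter, Finset.mem_range] at hi
        obtain ⟨h1, h2, h3⟩ := hi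
        have g1 := hreg1 i (by omega)
        have g2 := hreg1 (i + 1) (by omega)
        have g3 := hdisj i (i + 1) (by omega) (by omega)
        have c1 := S.conn_of_lt_al h2
        have c2 := S.not_conn_of_al_le g2.2.1 g2.2.2 h3
        by_contra hno
        push Not at hno
        apply c2
        have c3 : inn (S.cuts t) (b i) := conn_self.1 (conn_sub c1 (by omega) le_rfl le_rfl)
        have c4 : conn (S.cuts t) (b i) (b (i + 1)) := by
          refine ⟨c3, ?_⟩
          intro c hc hh
          have := hno c hc (by omega)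
          omega
        exact conn_sub c4 (by omega) (by omega) le_rfl)
  set NS := (Finset.range r).filter (fun i => ∃ j < r, j ≠ i ∧ σ j = σ i ∧
    S.al (a j) (b j) < S.om (a i) (b i) ∧ S.al (a i) (b i) < S.om (a j) (b j)) with hNS
  set I := (Finset.range r).filter (fun i => ¬ ∃ j < r, j ≠ i ∧ σ j = σ i ∧
    S.al (a j) (b j) < S.om (a i) (b i) ∧ S.al (a i) (b i) < S.om (a j) (b j)) with hI
  have hIcard : r < 2 * I.card := by
    have h := Finset.card_filter_add_card_filter_not (s := Finset.range r)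
      (fun i => ∃ j < r, j ≠ i ∧ σ j = σ i ∧
    S.al (a j) (b j) < S.om (a i) (b i) ∧ S.al (a i) (b i) < S.om (a j) (b j))
    rw [Finset.card_range] at h
    have h1 : 2 * NS.card < r := hcode'
    have h2 : NS.card + I.card = r := h
    omega
  have hIr : ∀ i ∈ I, i < r := fun i hi => Finset.mem_range.1 (Finset.mem_filter.1 hi).1
  have htau : ∀ i ∈ I, ∃ t, k ≤ S.cnt t (a i) (b i) := by
    intro i hi
    refine hcrit i (hIr i hi) ?_
    intro i' hi' hne hσ t h1 h2
    obtain ⟨g1, g2, g3⟩ := hreg1 i (hIr i hi)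
    obtain ⟨g4, g5, g6⟩ := hreg1 i' hi'
    have e1 := (S.nonclean_iff g1 g2 g3).1 h1
    have e2 := (S.nonclean_iff g4 g5 g6).1 h2
    exact (Finset.mem_filter.1 hi).2 ⟨i', hi', hne, hσ, by omega, by omega⟩
  choose! τ hτ using htau
  -- all cuts in `[A,B]` at time `τ i` are in child `i`
  have hcntle : ∀ i ∈ I, S.cnt (τ i) (a i) (b i) ≤ S.cnt (τ i) A B := by
    intro i hi
    obtain ⟨g1, g2, g3⟩ := hreg i (hIr i hi)
    unfold cnt
    apply List.countP_mono_left
    intro c _ hc
    simp only [decide_eq_true_eq] at hc ⊢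
    omega
  have hcnt : ∀ i ∈ I, S.cnt (τ i) (a i) (b i) = k ∧ S.cnt (τ i) A B = k := by
    intro i hi
    have h1 := hcntle i hi
    have h2 := hk (τ i)
    have h3 := hτ i hi
    omega
  have hall : ∀ i ∈ I, ∀ c ∈ S.cuts (τ i), A ≤ c.1 → c.1 ≤ B → a i ≤ c.1 ∧ c.1 ≤ b i := by
    intro i hi c hc h1 h2
    by_contra hno
    obtain ⟨g1, g2, g3⟩ := hreg i (hIr i hi)
    have := countP_lt (S.cuts (τ i)) (fun c => decide (a i ≤ c.1 ∧ c.1 ≤ b i))
      (fun c => decide (A ≤ c.1 ∧ c.1 ≤ B))
      (by intro c _ hc; simp only [decide_eq_true_eq] at hc ⊢; omega)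
      ⟨c, hc, by simp only [decide_eq_true_eq]; omega, by simp only [decide_eq_false_iff_not]; exact hno⟩
    have h3 := hcnt i hi
    unfold cnt at h3
    omega
  have hnc : ∀ i ∈ I, S.nonclean (τ i) (a i) (b i) := by
    intro i hi
    apply S.nonclean_of_cnt
    rw [(hcnt i hi).1]; exact hk1
  have hne : ∀ i ∈ I, ∀ j ∈ I, i ≠ j → τ i ≠ τ j := by
    intro i hi j hj hij heq
    obtain ⟨c, hc, h1, h2⟩ := hnc j hj
    rw [← heq] at hc
    obtain ⟨g1, g2, g3⟩ := hreg j (hIr j hj)
    obtain ⟨h3, h4⟩ := hall i hi c hc (by omega) (by omega)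
    rcases Nat.lt_or_gt_of_ne hij with h | h
    · have := hdisj i j h (hIr j hj); omega
    · have := hdisj j i h (hIr i hi); omega
  -- right status
  have hR : ∀ i ∈ I, ∀ j ∈ I, i < j → (inn (S.cuts (τ i)) (b i) ↔ τ i < τ j) := by
    intro i hi j hj hij
    obtain ⟨g1, g2, g3⟩ := hreg1 i (hIr i hi)
    obtain ⟨g4, g5, g6⟩ := hreg1 j (hIr j hj)
    obtain ⟨f1, f2, f3⟩ := hreg i (hIr i hi)
    obtain ⟨f4, f5, f6⟩ := hreg j (hIr j hj)
    have g7 := hdisj i j hij (hIr j hj)
    have hno : ∀ c ∈ S.cuts (τ i), ¬ (b i < c.1 ∧ c.1 ≤ B) := by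
      intro c hc hh
      have := hall i hi c hc (by omega) hh.2
      omega
    have hj2 := (S.nonclean_iff g4 g5 g6).1 (hnc j hj)
    constructor
    · intro hin
      by_contra hlt
      push Not at hlt
      have hc : conn (S.cuts (τ i)) (a j - 1) (b j) := by
        have : conn (S.cuts (τ i)) (b i) B := ⟨hin, hno⟩
        exact conn_sub this (by omega) (by omega) f6
      exact S.not_conn_of_al_le g5 g6 (hj2.1.trans hlt) hc
    · intro hlt
      by_contra hout
      have hallout : ∀ q, a j - 1 ≤ q → q ≤ b j → ¬ inn (S.cuts (τ i)) q := by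
        intro q hq1 hq2 hq3
        exact hout ((inn_congr (p := b i) (q := q) (by omega)
          (fun c hc hh => hno c hc ⟨hh.1, by omega⟩)).2 hq3)
      obtain ⟨q, hq1, hq2, hq3⟩ := S.ex_in_of_lt_om (hj2.2)
      exact hallout q hq1 hq2 (S.inn_mono hlt.le (by omega) hq3)
  -- left status
  have hL : ∀ i ∈ I, ∀ j ∈ I, j < i → (inn (S.cuts (τ i)) (a i - 1) ↔ τ i < τ j) := by
    intro i hi j hj hij
    obtain ⟨g1, g2, g3⟩ := hreg1 i (hIr i hi)
    obtain ⟨g4, g5, g6⟩ := hreg1 j (hIr j hj)
    obtain ⟨f1, f2, f3⟩ := hreg i (hIr i hi)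
    obtain ⟨f4, f5, f6⟩ := hreg j (hIr j hj)
    have g7 := hdisj j i hij (hIr i hi)
    have hno : ∀ c ∈ S.cuts (τ i), ¬ (A - 1 < c.1 ∧ c.1 ≤ a i - 1) := by
      intro c hc hh
      have := hall i hi c hc (by omega) (by omega)
      omega
    have hj2 := (S.nonclean_iff g4 g5 g6).1 (hnc j hj)
    constructor
    · intro hin
      by_contra hlt
      push Not at hlt
      have hc : conn (S.cuts (τ i)) (a j - 1) (b j) := by
        have : conn (S.cuts (τ i)) (A - 1) (a i - 1) :=
          ⟨(inn_congr (by omega) hno).2 hin, hno⟩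
        exact conn_sub this (by omega) (by omega) (by omega)
      exact S.not_conn_of_al_le g5 g6 (hj2.1.trans hlt) hc
    · intro hlt
      by_contra hout
      have hallout : ∀ q, a j - 1 ≤ q → q ≤ b j → ¬ inn (S.cuts (τ i)) q := by
        intro q hq1 hq2 hq3
        exact hout ((inn_congr (p := q) (q := a i - 1) (by omega)
          (fun c hc hh => hno c hc ⟨by omega, hh.2⟩)).1 hq3)
      obtain ⟨q, hq1, hq2, hq3⟩ := S.ex_in_of_lt_om (hj2.2)
      exact hallout q hq1 hq2 (S.inn_mono hlt.le (by omega) hq3)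
  have hpar : ∀ i ∈ I, (Even k → (inn (S.cuts (τ i)) (b i) ↔ inn (S.cuts (τ i)) (a i - 1))) ∧
      (¬ Even k → (inn (S.cuts (τ i)) (b i) ↔ ¬ inn (S.cuts (τ i)) (a i - 1))) := by
    intro i hi
    obtain ⟨g1, g2, g3⟩ := hreg1 i (hIr i hi)
    have h1 := S.count_split (τ i) (a i) (b i) g1 g2
    rw [(hcnt i hi).1] at h1
    unfold inn
    rw [h1]
    constructor
    · intro hk'
      rw [Nat.odd_add, iff_true_right hk']
    · intro hk'
      rw [Nat.odd_add, iff_false_right hk']
  by_cases hke : Even k
  · -- three solos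
    have h3 : 2 < I.card := by omega
    obtain ⟨x, hx, y, hy, u, hu, hxy, hxu, hyu⟩ := Finset.two_lt_card.1 h3
    have key : ∀ i ∈ I, ∀ j ∈ I, i ≠ j → (inn (S.cuts (τ i)) (b i) ↔ τ i < τ j) := by
      intro i hi j hj hij
      rcases Nat.lt_or_gt_of_ne hij with h | h
      · exact hR i hi j hj h
      · rw [(hpar i hi).1 hke]; exact hL i hi j hj h
    have e1 := key x hx y hy hxy
    have e2 := key x hx u hu hxu
    have e3 := key y hy x hx hxy.symm
    have e4 := key y hy u hu hyu
    have e5 := key u hu x hx hxu.symm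
    have e6 := key u hu y hy hyu.symm
    have n1 := hne x hx y hy hxy
    have n2 := hne x hx u hu hxu
    have n3 := hne y hy u hu hyu
    by_cases p1 : inn (S.cuts (τ x)) (b x) <;> by_cases p2 : inn (S.cuts (τ y)) (b y) <;>
      by_cases p3 : inn (S.cuts (τ u)) (b u) <;>
      simp only [p1, p2, p3, true_iff, false_iff, not_lt] at e1 e2 e3 e4 e5 e6 <;> omega
  · -- odd case
    have hsame : ∀ i ∈ I, ∀ j ∈ I, i < j →
        (inn (S.cuts (τ i)) (b i) ↔ inn (S.cuts (τ j)) (b j)) := by
      intro i hi j hj hij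
      rw [hR i hi j hj hij, (hpar j hj).2 hke, hL j hj i hi hij]
      have := hne i hi j hj (by omega)
      omega
    have hsame' : ∀ i ∈ I, ∀ j ∈ I,
        (inn (S.cuts (τ i)) (b i) ↔ inn (S.cuts (τ j)) (b j)) := by
      intro i hi j hj
      rcases Nat.lt_trichotomy i j with h | h | h
      · exact hsame i hi j hj h
      · rw [h]
      · exact (hsame j hj i hi h).symm
    obtain ⟨s, hs, hsE, hF⟩ := hT
    set X : Finset G := (Fs V 𝓑) ^ K with hX
    have hXcard : X.card ≤ (1 + V.card * (1 + 𝓑.card)) ^ K :=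
      Finset.card_pow_le.trans (Nat.pow_le_pow_left (card_Fs _ _) _)
    choose F hF1 hF2 using hF
    -- the equation
    have heqn : ∀ i ∈ I, ∃ x ∈ X,
        (inn (S.cuts (τ i)) (b i) → lab (i % N) = h0⁻¹ * (S.Rgt (τ i) B * S.Lft (τ i) A * x)) ∧
        (¬ inn (S.cuts (τ i)) (b i) →
          lab (i % N) = h0⁻¹ * ((S.Lft (τ i) A)⁻¹ * (S.Rgt (τ i) B)⁻¹ * x⁻¹)) := by
      intro i hi
      obtain ⟨g1, g2, g3⟩ := hreg1 i (hIr i hi)
      obtain ⟨f1, f2, f3⟩ := hreg i (hIr i hi)
      have h1 := S.region_eqn (t := τ i) (a := A) (b := B) (by omega)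
      set s0 := nxt false ((S.cuts (τ i)).countP (fun c => decide (c.1 < A))) with hs0
      set h := h0 * lab (i % N) with hh
      have h2 := pv_left_mul S.P (fun e => h⁻¹ * S.P e) h s0 (S.Mid (τ i) A B)
        (fun c _ => by simp)
      have hlen : (S.Mid (τ i) A B).length = k := by rw [S.Mid_length]; exact (hcnt i hi).2
      rw [hlen] at h2
      have hmem : pv (fun e => h⁻¹ * S.P e) s0 (S.Mid (τ i) A B) ∈ X := by
        refine pv_mem_pow' _ _ _ _ _ _ ?_ ?_
        · rw [S.Mid_length]; exact S.cnt_le _ _ _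
        · intro c hc
          unfold Mid at hc
          rw [List.mem_filter] at hc
          simp only [decide_eq_true_eq] at hc
          obtain ⟨hc1, hc2, hc3⟩ := hc
          obtain ⟨h3, h4⟩ := hall i hi c hc1 hc2 hc3
          obtain ⟨v, hv, hPv⟩ := hV i (hIr i hi) c.1 h3 h4
          refine ⟨?_, S.hc _ c hc1⟩
          have : h⁻¹ * S.P c.1 = v := by rw [hPv, ← hh]; group
          simp only [this]
          exact hv
      have hs0eq : s0 = true ↔ inn (S.cuts (τ i)) (a i - 1) := by
        rw [hs0, nxt_false_eq_true]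
        have hno : ∀ c ∈ S.cuts (τ i), ¬ (A - 1 < c.1 ∧ c.1 ≤ a i - 1) := by
          intro c hc hh
          have := hall i hi c hc (by omega) (by omega)
          omega
        rw [← inn_congr (by omega) hno]
        unfold inn
        have : (S.cuts (τ i)).countP (fun c => decide (c.1 < A)) =
            (S.cuts (τ i)).countP (fun c => decide (c.1 ≤ A - 1)) := by
          apply List.countP_congr
          intro c _
          simp only [decide_eq_true_eq]
          omega
        rw [this]
      refine ⟨_, hmem, ?_, ?_⟩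
      · intro hin
        have hs0f : s0 = false := by
          rw [(hpar i hi).2 hke] at hin
          rw [← hs0eq] at hin
          simpa using hin
        rw [hs0f] at h1 h2 ⊢
        have hnx : nxt false k = true := (nxt_false_eq_true k).2 (Nat.not_even_iff_odd.1 hke)
        rw [hnx] at h2
        simp only [Bool.false_eq_true, if_false, if_true, one_mul] at h2
        rw [h2] at h1
        set x := pv (fun e => h⁻¹ * S.P e) false (S.Mid (τ i) A B) with hx
        have h5 : h = S.Rgt (τ i) B * S.Lft (τ i) A * x := by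
          have h6 : S.Lft (τ i) A * (x * h⁻¹) = (S.Rgt (τ i) B)⁻¹ := eq_inv_of_mul_eq_one_left h1
          have h7 : S.Rgt (τ i) B * (S.Lft (τ i) A * (x * h⁻¹)) = 1 := by rw [h6]; group
          have h8 : (S.Rgt (τ i) B * S.Lft (τ i) A * x) * h⁻¹ = 1 := by
            rw [← h7]; group
          exact (mul_inv_eq_one.1 h8).symm
        rw [← h5, hh]; group
      · intro hout
        have hs0t : s0 = true := by
          rw [(hpar i hi).2 hke] at hout
          rw [← hs0eq] at hout
          simpa using hout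
        rw [hs0t] at h1 h2 ⊢
        have hnx : nxt true k = false := by
          unfold nxt; rw [if_neg hke]; rfl
        rw [hnx] at h2
        simp only [Bool.false_eq_true, if_false, if_true, mul_one] at h2
        rw [h2] at h1
        set x := pv (fun e => h⁻¹ * S.P e) true (S.Mid (τ i) A B) with hx
        have h5 : h = (S.Lft (τ i) A)⁻¹ * (S.Rgt (τ i) B)⁻¹ * x⁻¹ := by
          have h6 : S.Lft (τ i) A * (h * x) = (S.Rgt (τ i) B)⁻¹ := eq_inv_of_mul_eq_one_left h1
          have h7 : h * x = (S.Lft (τ i) A)⁻¹ * (S.Rgt (τ i) B)⁻¹ := by rw [← h6]; group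
          rw [← h7]; group
        rw [← h5, hh]; group
    have hQnc : ∀ i ∈ I, S.nonclean (τ i) A B := by
      intro i hi
      obtain ⟨c, hc, h1, h2⟩ := hnc i hi
      obtain ⟨f1, f2, f3⟩ := hreg i (hIr i hi)
      exact ⟨c, hc, by omega, by omega⟩
    -- final counting
    have hfinal : ∀ g : ℕ → ℕ, (∀ i ∈ I, g i ≤ E) → (∀ i ∈ I, ∀ j ∈ I, i ≤ j → g i ≤ g j) →
        (∀ i ∈ I, ∀ j ∈ I, g i = g j → s (τ i) = s (τ j)) →
        (∃ f : G × G → G → G, ∀ i ∈ I, ∃ x ∈ X,
          lab (i % N) = f (S.Lft (τ i) A, S.Rgt (τ i) B) x) → False := by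
      intro g hgE hgmono hgs hf
      obtain ⟨f, hf⟩ := hf
      have hNpos : 0 < N := by omega
      have hdiv : ∀ i ∈ I, i / N ≤ E := by
        intro i hi
        have h1 := hIr i hi
        have : i / N < E + 1 := by
          rw [Nat.div_lt_iff_lt_mul hNpos]
          rw [mul_comm, ← hr]; exact h1
        omega
      have hfib : ∀ v ∈ I.image (fun i => i / N + g i),
          (I.filter (fun i => i / N + g i = v)).card ≤ n0 := by
        intro v hv
        obtain ⟨i0, hi0, hi0v⟩ := Finset.mem_image.1 hv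
        have hsame2 : ∀ i ∈ I, ∀ j ∈ I, i / N + g i = j / N + g j → i / N = j / N ∧ g i = g j := by
          have : ∀ i ∈ I, ∀ j ∈ I, i ≤ j → i / N + g i = j / N + g j → i / N = j / N ∧ g i = g j := by
            intro i hi j hj hij h
            have h1 := Nat.div_le_div_right (c := N) hij
            have h2 := hgmono i hi j hj hij
            omega
          intro i hi j hj h
          rcases le_total i j with hij | hij
          · exact this i hi j hj hij h
          · have := this j hj i hi hij h.symm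
            exact ⟨this.1.symm, this.2.symm⟩
        have hsub : (I.filter (fun i => i / N + g i = v)).card ≤
            ((F (s (τ i0)) ×ˢ X).image (fun y => f y.1 y.2)).card := by
          refine Finset.card_le_card_of_injOn (fun i => lab (i % N)) ?_ ?_
          · intro i hi
            rw [Finset.mem_coe, Finset.mem_filter] at hi
            obtain ⟨hi1, hi2⟩ := hi
            obtain ⟨x, hx, hlx⟩ := hf i hi1
            have h3 := (hsame2 i hi1 i0 hi0 (by omega)).2
            have h4 := hgs i hi1 i0 hi0 h3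
            rw [Finset.mem_coe, Finset.mem_image]
            refine ⟨((S.Lft (τ i) A, S.Rgt (τ i) B), x), ?_, hlx.symm⟩
            rw [Finset.mem_product]
            exact ⟨hF2 _ _ (hQnc i hi1) h4, hx⟩
          · intro i hi j hj heq
            rw [Finset.mem_coe, Finset.mem_filter] at hi hj
            have h3 := hlab _ (Nat.mod_lt _ hNpos) _ (Nat.mod_lt _ hNpos) heq
            have h4 := (hsame2 i hi.1 j hj.1 (by omega)).1
            rw [← Nat.div_add_mod i N, ← Nat.div_add_mod j N, h3, h4]
        refine hsub.trans (Finset.card_image_le.trans ?_)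
        rw [Finset.card_product]
        exact (Nat.mul_le_mul (hF1 _) hXcard).trans hn0'
      have hcard := Finset.card_le_mul_card_image I n0 hfib
      have himg : (I.image (fun i => i / N + g i)).card ≤ 2 * E + 1 := by
        have : I.image (fun i => i / N + g i) ⊆ Finset.range (2 * E + 1) := by
          intro v hv
          obtain ⟨i, hi, rfl⟩ := Finset.mem_image.1 hv
          have h1 := hdiv i hi
          have h2 := hgE i hi
          rw [Finset.mem_range]; omega
        exact (Finset.card_le_card this).trans (by simp)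
      have h1 : I.card ≤ n0 * (2 * E + 1) := hcard.trans (Nat.mul_le_mul_left _ himg)
      have h2 : r = n0 * (4 * E + 4) := by rw [hr, hN]; ring
      have h3 : 2 * (n0 * (2 * E + 1)) ≤ n0 * (4 * E + 4) := by
        have : n0 * (4 * E + 4) = 2 * (n0 * (2 * E + 1)) + 2 * n0 := by ring
        omega
      omega
    have hIne : I.Nonempty := by
      rw [← Finset.card_pos]; omega
    obtain ⟨i0, hi0⟩ := hIne
    by_cases hor : inn (S.cuts (τ i0)) (b i0)
    · -- increasing
      have hor' : ∀ i ∈ I, inn (S.cuts (τ i)) (b i) := fun i hi => (hsame' i0 hi0 i hi).1 hor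
      refine hfinal (fun i => s (τ i)) (fun i _ => hsE _) ?_ (fun i _ j _ h => h) ?_
      · intro i hi j hj hij
        rcases Nat.eq_or_lt_of_le hij with h | h
        · rw [h]
        · exact hs ((hR i hi j hj h).1 (hor' i hi)).le
      · refine ⟨fun y x => h0⁻¹ * (y.2 * y.1 * x), ?_⟩
        intro i hi
        obtain ⟨x, hx, h1, _⟩ := heqn i hi
        exact ⟨x, hx, h1 (hor' i hi)⟩
    · have hor' : ∀ i ∈ I, ¬ inn (S.cuts (τ i)) (b i) := fun i hi h => hor ((hsame' i0 hi0 i hi).2 h)
      refine hfinal (fun i => E - s (τ i)) (fun i _ => Nat.sub_le _ _) ?_ ?_ ?_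
      · intro i hi j hj hij
        rcases Nat.eq_or_lt_of_le hij with h | h
        · rw [h]
        · have h1 : ¬ τ i < τ j := fun h' => hor' i hi ((hR i hi j hj h).2 h')
          have h2 : s (τ j) ≤ s (τ i) := hs (by omega)
          omega
      · intro i hi j hj h
        have h1 := hsE (τ i)
        have h2 := hsE (τ j)
        omega
      · refine ⟨fun y x => h0⁻¹ * (y.1⁻¹ * y.2⁻¹ * x⁻¹), ?_⟩
        intro i hi
        obtain ⟨x, hx, _, h1⟩ := heqn i hi
        exact ⟨x, hx, h1 (hor' i hi)⟩

end Sweep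

end Pool.Agent.EDT
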