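import Mathlib
import Pool.Agent.EDT.Main

set_option autoImplicit false
set_option linter.unusedSectionVars false

namespace Pool.Agent.EDT

open scoped Pointwise

variable {G : Type} [Group G]

/-- The word `ρ 0, g (σ 0), ρ 1, g (σ 1), ..., ρ i`. -/
def pre (ρ g : ℕ → List G) (σ : ℕ → ℕ) : ℕ → List G
  | 0 => ρ 0
  | i + 1 => pre ρ g σ i ++ g (σ i) ++ ρ (i + 1)

theorem pre_le (ρ g : ℕ → List G) (σ : ℕ → ℕ) {i j : ℕ} (h : i ≤ j) :
    ∃ s, pre ρ g σ j = pre ρ g σ i ++ s := by
  induction h with
  | refl => exact ⟨[], by simp⟩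
  | @step m _ ih =>
    obtain ⟨s, hs⟩ := ih
    refine ⟨s ++ g (σ m) ++ ρ (m + 1), ?_⟩
    show pre ρ g σ m ++ g (σ m) ++ ρ (m + 1) = _
    rw [hs]; simp only [List.append_assoc]

theorem pre_lt (ρ g : ℕ → List G) (σ : ℕ → ℕ) {i j : ℕ} (h : i < j) :
    ∃ s, pre ρ g σ j = pre ρ g σ i ++ g (σ i) ++ s := by
  obtain ⟨s, hs⟩ := pre_le ρ g σ (Nat.succ_le_of_lt h)
  refine ⟨ρ (i + 1) ++ s, ?_⟩
  rw [hs]
  show pre ρ g σ i ++ g (σ i) ++ ρ (i + 1) ++ s = _
  simp only [List.append_assoc]

theorem pre_length_succ (ρ g : ℕ → List G) (σ : ℕ → ℕ) (i : ℕ) :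
    (pre ρ g σ (i + 1)).length = (pre ρ g σ i).length + (g (σ i)).length + (ρ (i + 1)).length := by
  show (pre ρ g σ i ++ g (σ i) ++ ρ (i + 1)).length = _
  simp only [List.length_append]

theorem pre_length_mono (ρ g : ℕ → List G) (σ : ℕ → ℕ) {i j : ℕ} (h : i ≤ j) :
    (pre ρ g σ i).length ≤ (pre ρ g σ j).length := by
  obtain ⟨s, hs⟩ := pre_le ρ g σ h
  rw [hs]; simp

theorem pre_length_lt (ρ g : ℕ → List G) (σ : ℕ → ℕ) (hρ : ∀ i, ρ i ≠ []) {i j : ℕ} (h : i < j) :
    (pre ρ g σ i).length + (g (σ i)).length < (pre ρ g σ j).length := by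
  have h1 := pre_length_mono ρ g σ (Nat.succ_le_of_lt h)
  have h2 := pre_length_succ ρ g σ i
  have h3 := List.length_pos_iff.2 (hρ (i + 1))
  simp only [Nat.succ_eq_add_one] at h1
  omega

open Classical in
theorem count_positions (ρ g : ℕ → List G) (σ : ℕ → ℕ) (A j Lρ Lg : ℕ)
    (hLρ : ∀ i, (ρ i).length ≤ Lρ) (r : ℕ)
    (hLg : ∀ i < r, j < σ i → (g (σ i)).length ≤ Lg) :
    ((Finset.Ico A (A + (pre ρ g σ r).length)).filter (fun e => ¬ ∃ i < r, σ i ≤ j ∧
      A + (pre ρ g σ i).length ≤ e ∧ e ≤ A + (pre ρ g σ i).length + (g (σ i)).length)).card ≤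
      (r + 1) * Lρ + r * (Lg + 1) := by
  induction r with
  | zero =>
    refine (Finset.card_filter_le _ _).trans ?_
    rw [Nat.card_Ico]
    have := hLρ 0
    show A + (ρ 0).length - A ≤ _
    omega
  | succ r ih =>
    have ih' := ih (fun i hi => hLg i (by omega))
    have hlen := pre_length_succ ρ g σ r
    set a := A + (pre ρ g σ r).length with ha
    set b := a + (g (σ r)).length with hb
    have hsub : (Finset.Ico A (A + (pre ρ g σ (r + 1)).length)).filter (fun e => ¬ ∃ i < r + 1, σ i ≤ j ∧
        A + (pre ρ g σ i).length ≤ e ∧ e ≤ A + (pre ρ g σ i).length + (g (σ i)).length) ⊆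
        ((Finset.Ico A a).filter (fun e => ¬ ∃ i < r, σ i ≤ j ∧
        A + (pre ρ g σ i).length ≤ e ∧ e ≤ A + (pre ρ g σ i).length + (g (σ i)).length)) ∪
        ((if σ r ≤ j then ∅ else Finset.Icc a b) ∪ Finset.Ico (b + 1) (A + (pre ρ g σ (r + 1)).length)) := by
      intro e he
      rw [Finset.mem_filter, Finset.mem_Ico] at he
      obtain ⟨⟨h1, h2⟩, h3⟩ := he
      rcases Nat.lt_or_ge e a with h | h
      · refine Finset.mem_union_left _ (Finset.mem_filter.2 ⟨Finset.mem_Ico.2 ⟨h1, h⟩, ?_⟩)
        rintro ⟨i, hi, h4⟩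
        exact h3 ⟨i, by omega, h4⟩
      · refine Finset.mem_union_right _ ?_
        rcases Nat.lt_or_ge b e with h' | h'
        · exact Finset.mem_union_right _ (Finset.mem_Ico.2 ⟨h', h2⟩)
        · refine Finset.mem_union_left _ ?_
          by_cases hσ : σ r ≤ j
          · exact absurd ⟨r, by omega, hσ, h, h'⟩ h3
          · rw [if_neg hσ]; exact Finset.mem_Icc.2 ⟨h, h'⟩
    refine (Finset.card_le_card hsub).trans ((Finset.card_union_le _ _).trans ?_)
    have h4 : (if σ r ≤ j then (∅ : Finset ℕ) else Finset.Icc a b).card ≤ Lg + 1 := by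
      by_cases hσ : σ r ≤ j
      · rw [if_pos hσ]; simp
      · rw [if_neg hσ, Nat.card_Icc]
        have := hLg r (by omega) (by omega)
        omega
    have h5 : (Finset.Ico (b + 1) (A + (pre ρ g σ (r + 1)).length)).card ≤ Lρ := by
      rw [Nat.card_Ico, hlen]
      have := hLρ (r + 1)
      omega
    have h6 := Finset.card_union_le (if σ r ≤ j then (∅ : Finset ℕ) else Finset.Icc a b)
      (Finset.Ico (b + 1) (A + (pre ρ g σ (r + 1)).length))
    have h7 : (r + 1 + 1) * Lρ + (r + 1) * (Lg + 1) = (r + 1) * Lρ + r * (Lg + 1) + (Lρ + (Lg + 1)) := by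
      ring
    rw [h7]
    omega

/-- The induction statement. -/
def HH (K D : ℕ) (𝓑 : Finset G) (Sg : Set G) (k : ℕ) : Prop :=
  ∀ z : ℕ, ∃ V : Finset G, ∀ E : ℕ, ∃ g : List G, (∀ x ∈ g, x ∈ Sg) ∧ g.prod = 1 ∧
    D ≤ g.length + 1 ∧ (∀ i, (g.take i).prod ∈ V) ∧ Hard K D 𝓑 k z E g

theorem HH_one (K D : ℕ) (𝓑 : Finset G) (Sg : Set G) (c : G) (hc : c ∈ Sg) (hc' : c⁻¹ ∈ Sg) :
    HH K D 𝓑 Sg 1 := by
  classical
  intro z
  refine ⟨{1, c}, ?_⟩
  intro E
  have hprod : ∀ n, ((List.replicate n [c, c⁻¹]).flatten).prod = 1 := by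
    intro n
    induction n with
    | zero => simp
    | succ n ih => rw [List.replicate_succ, List.flatten_cons, List.prod_append, ih]; simp
  have hlen : ∀ n, ((List.replicate n [c, c⁻¹]).flatten).length = 2 * n := by
    intro n; simp [mul_comm]
  refine ⟨(List.replicate D [c, c⁻¹]).flatten, ?_, hprod D, ?_, ?_, ?_⟩
  · intro x hx
    rw [List.mem_flatten] at hx
    obtain ⟨l, hl, hx⟩ := hx
    rw [List.mem_replicate] at hl
    rw [hl.2] at hx
    simp only [List.mem_cons, List.not_mem_nil, or_false] at hx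
    rcases hx with rfl | rfl
    · exact hc
    · exact hc'
  · rw [hlen]; omega
  · intro i
    have : ∀ n i, (((List.replicate n [c, c⁻¹]).flatten).take i).prod = 1 ∨
        (((List.replicate n [c, c⁻¹]).flatten).take i).prod = c := by
      intro n
      induction n with
      | zero => intro i; simp
      | succ n ih =>
        intro i
        rw [List.replicate_succ, List.flatten_cons]
        show ((c :: c⁻¹ :: (List.replicate n [c, c⁻¹]).flatten).take i).prod = 1 ∨ _
        match i with
        | 0 => left; rfl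
        | 1 => right; simp
        | i + 2 =>
          have := ih i
          simp only [List.take_succ_cons, List.prod_cons]
          rw [← mul_assoc, mul_inv_cancel, one_mul]
          simpa using this
    rcases this D i with h | h <;> rw [h] <;> simp
  · intro w u v hw hu hv S _
    have h1 : 1 ≤ u.length := List.length_pos_iff.2 hu
    have h2 : 1 ≤ v.length := List.length_pos_iff.2 hv
    have hwl : w.length = u.length + 2 * D + v.length := by
      rw [hw, List.length_append, List.length_append, hlen]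
    rw [hlen]
    have h3 := S.al_lt_om (a := u.length) (b := u.length + 2 * D) h1 (by omega) (by omega) (by omega)
    have h4 := (S.nonclean_iff (a := u.length) (b := u.length + 2 * D) h1 (by omega)
      (by omega)).2 ⟨le_rfl, h3⟩
    obtain ⟨c0, hc0, h5, h6⟩ := h4
    refine ⟨_, List.countP_pos_iff.2 ⟨c0, hc0, ?_⟩⟩
    simp only [decide_eq_true_eq]
    exact ⟨h5, h6⟩

theorem take_append_prod (x y : List G) (n : ℕ) :
    ((x ++ y).take (x.length + n)).prod = x.prod * (y.take n).prod := by
  rw [List.take_length_add_append, List.prod_append]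

open Classical in
theorem HH_step [Infinite G] (K D : ℕ) (𝓑 : Finset G) (Sg : Set G)
    (W : G → List G) (hW1 : ∀ x, W x ≠ []) (hW2 : ∀ x, ∀ y ∈ W x, y ∈ Sg) (hW3 : ∀ x, (W x).prod = x)
    (k : ℕ) (hk : 1 ≤ k) (hH : HH K D 𝓑 Sg k) : HH K D 𝓑 Sg (k + 1) := by
  intro z
  choose nextV hnextV using hH
  obtain ⟨m, hm, hcoding⟩ := coding (K + 1)
  obtain ⟨Zf, hZf⟩ : ∃ Zf : ℕ → ℕ, ∀ c, Zf c =
    z * ((1 + K * c * (1 + 𝓑.card)) ^ K * (1 + K * c * (1 + 𝓑.card)) ^ K) := ⟨_, fun _ => rfl⟩
  -- accumulated value sets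
  let acc : ℕ → Finset G := fun j => Nat.rec {1} (fun _ s => s ∪ nextV (Zf s.card)) j
  have acc0 : acc 0 = {1} := rfl
  have accs : ∀ j, acc (j + 1) = acc j ∪ nextV (Zf (acc j).card) := fun _ => rfl
  have accmono : ∀ {i j : ℕ}, i ≤ j → acc i ⊆ acc j := by
    intro i j h
    induction h with
    | refl => exact Finset.Subset.refl _
    | step _ ih => rw [accs]; exact ih.trans Finset.subset_union_left
  have acc1 : ∀ j, (1 : G) ∈ acc j := fun j => accmono (Nat.zero_le j) (by simp [acc0])
  -- the gadgets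
  choose gch hg1 hg2 hg3 hg4 hg5 using fun (j : ℕ) => hnextV (Zf (acc j).card)
  set V := acc m with hV
  obtain ⟨n0, hn0⟩ : ∃ n0, n0 = (z + 1) * (1 + V.card * (1 + 𝓑.card)) ^ K := ⟨_, rfl⟩
  have hpos : 1 ≤ (1 + V.card * (1 + 𝓑.card)) ^ K := Nat.one_le_pow _ _ (by omega)
  have hn01 : 1 ≤ n0 := by
    rw [hn0]; exact Nat.mul_pos (Nat.succ_pos z) hpos
  have hn0' : z * (1 + V.card * (1 + 𝓑.card)) ^ K ≤ n0 := by
    rw [hn0]; exact Nat.mul_le_mul_right _ (Nat.le_succ z)
  obtain ⟨N, hN⟩ : ∃ N, N = 4 * n0 := ⟨_, rfl⟩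
  have hNpos : 0 < N := by omega
  obtain ⟨lab, hlab⟩ : ∃ lab : ℕ → G, Function.Injective lab :=
    ⟨Infinite.natEmbedding G, (Infinite.natEmbedding G).injective⟩
  set Lb : Finset G := insert 1 ((Finset.range N).image lab) with hLb
  set Lρ : ℕ := (Lb ×ˢ Lb).sup (fun x => (W (x.1⁻¹ * x.2)).length) with hLρ
  set VQ : Finset G := (Lb ×ˢ Lb).biUnion
    (fun x => (Finset.range (Lρ + 1)).image (fun t => x.1 * ((W (x.1⁻¹ * x.2)).take t).prod)) ∪
      Lb * V with hVQ
  refine ⟨VQ, ?_⟩
  intro E
  obtain ⟨r, hr⟩ : ∃ r, r = N * (E + 1) := ⟨_, rfl⟩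
  have hrpos : 0 < r := by rw [hr]; exact Nat.mul_pos hNpos (Nat.succ_pos E)
  obtain ⟨σ0, hσ0⟩ := hcoding r hrpos
  set σ : ℕ → ℕ := fun i => (σ0 i).val with hσ
  have hσm : ∀ i, σ i < m := fun i => (σ0 i).isLt
  -- labels
  set lam : ℕ → G := fun i => if i = 0 then 1 else if i < r + 1 then lab ((i - 1) % N) else 1 with hlam
  have hlamLb : ∀ i, lam i ∈ Lb := by
    intro i
    simp only [hlam]
    split_ifs
    · exact Finset.mem_insert_self _ _
    · exact Finset.mem_insert_of_mem (Finset.mem_image.2 ⟨_, Finset.mem_range.2 (Nat.mod_lt _ hNpos), rfl⟩)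
    · exact Finset.mem_insert_self _ _
  set ρ : ℕ → List G := fun i => W ((lam i)⁻¹ * lam (i + 1)) with hρ
  have hρne : ∀ i, ρ i ≠ [] := fun i => hW1 _
  have hρlen : ∀ i, (ρ i).length ≤ Lρ := by
    intro i
    have : (lam i, lam (i + 1)) ∈ Lb ×ˢ Lb := Finset.mem_product.2 ⟨hlamLb i, hlamLb (i + 1)⟩
    exact Finset.le_sup (f := fun x : G × G => (W (x.1⁻¹ * x.2)).length) this
  -- E-values
  obtain ⟨EE, hEE⟩ : ∃ EE : ℕ → ℕ, ∀ L, EE L = E + (r + ((r + 1) * Lρ + r * (L + 1) + 1)) :=
    ⟨_, fun _ => rfl⟩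
  let bnd : ℕ → ℕ := fun n => Nat.rec 0 (fun n L => max L (gch (m - 1 - n) (EE L)).length) n
  have bnds : ∀ n, bnd (n + 1) = max (bnd n) (gch (m - 1 - n) (EE (bnd n))).length := fun _ => rfl
  have bndmono : ∀ {i j : ℕ}, i ≤ j → bnd i ≤ bnd j := by
    intro i j h
    induction h with
    | refl => exact le_rfl
    | step _ ih => rw [bnds]; exact ih.trans (le_max_left _ _)
  set g : ℕ → List G := fun j => gch j (EE (bnd (m - 1 - j))) with hg
  have hglen : ∀ j j', j < j' → j' < m → (g j').length ≤ bnd (m - 1 - j) := by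
    intro j j' h1 h2
    have h3 : (g j').length ≤ bnd (m - 1 - j' + 1) := by
      rw [bnds]
      refine le_trans (le_of_eq ?_) (le_max_right _ _)
      have : m - 1 - (m - 1 - j') = j' := by omega
      rw [this]
    exact h3.trans (bndmono (i := m - 1 - j' + 1) (j := m - 1 - j) (by omega))
  have hgprod : ∀ j, (g j).prod = 1 := fun j => hg2 j _
  have hgsize : ∀ j, D ≤ (g j).length + 1 := fun j => hg3 j _
  have hgval : ∀ j i, ((g j).take i).prod ∈ nextV (Zf (acc j).card) := fun j => hg4 j _
  have hgvalV : ∀ j, j < m → ∀ i, ((g j).take i).prod ∈ V := by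
    intro j hj i
    have h1 : nextV (Zf (acc j).card) ⊆ acc (j + 1) := by rw [accs]; exact Finset.subset_union_right
    exact accmono (Nat.succ_le_of_lt hj) (h1 (hgval j i))
  have hpreprod : ∀ i, (pre ρ g σ i).prod = lam (i + 1) := by
    intro i
    induction i with
    | zero =>
      show (W ((lam 0)⁻¹ * lam 1)).prod = _
      rw [hW3]
      have : lam 0 = 1 := by simp [hlam]
      rw [this]; group
    | succ i ih =>
      show (pre ρ g σ i ++ g (σ i) ++ ρ (i + 1)).prod = _
      rw [List.prod_append, List.prod_append, ih, hgprod]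
      show _ * _ * (W ((lam (i + 1))⁻¹ * lam (i + 1 + 1))).prod = _
      rw [hW3]; group
  have hlamr : ∀ i < r, lam (i + 1) = lab (i % N) := by
    intro i hi
    simp only [hlam]
    rw [if_neg (by omega), if_pos (by omega)]
    simp
  refine ⟨pre ρ g σ r, ?_, ?_, ?_, ?_, ?_⟩
  · -- letters
    have : ∀ i, ∀ x ∈ pre ρ g σ i, x ∈ Sg := by
      intro i
      induction i with
      | zero => exact hW2 _
      | succ i ih =>
        intro x hx
        have hx' : x ∈ pre ρ g σ i ++ g (σ i) ++ ρ (i + 1) := hx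
        rw [List.mem_append, List.mem_append] at hx'
        rcases hx' with (h | h) | h
        · exact ih x h
        · exact hg1 _ _ x h
        · exact hW2 _ x h
    exact this r
  · rw [hpreprod]
    simp [hlam]
  · obtain ⟨s, hs⟩ := pre_lt ρ g σ hrpos
    rw [hs]
    have := hgsize (σ 0)
    simp only [List.length_append]
    omega
  · -- values
    have hrun : ∀ i t, lam i * ((ρ i).take t).prod ∈ VQ := by
      intro i t
      rw [hVQ]
      refine Finset.mem_union_left _ (Finset.mem_biUnion.2 ⟨(lam i, lam (i + 1)),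
        Finset.mem_product.2 ⟨hlamLb i, hlamLb (i + 1)⟩, ?_⟩)
      rw [Finset.mem_image]
      refine ⟨min t (ρ i).length, ?_, ?_⟩
      · rw [Finset.mem_range]
        have := hρlen i
        omega
      · dsimp only
        congr 2
        show (ρ i).take _ = _
        rcases le_total t (ρ i).length with h | h
        · rw [min_eq_left h]
        · rw [min_eq_right h, List.take_of_length_le h, List.take_length]
    have : ∀ i x, ((pre ρ g σ i).take x).prod ∈ VQ := by
      intro i
      induction i with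
      | zero =>
        intro x
        have h0 : lam 0 = 1 := by simp [hlam]
        have := hrun 0 x
        rw [h0, one_mul] at this
        exact this
      | succ i ih =>
        intro x
        show ((pre ρ g σ i ++ g (σ i) ++ ρ (i + 1)).take x).prod ∈ VQ
        rcases le_total x (pre ρ g σ i).length with h | h
        · rw [List.append_assoc, List.take_append_of_le_length h]
          exact ih x
        · obtain ⟨y, rfl⟩ := Nat.exists_eq_add_of_le h
          rw [List.append_assoc, take_append_prod, hpreprod]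
          rcases le_total y (g (σ i)).length with h' | h'
          · rw [List.take_append_of_le_length h']
            rw [hVQ]
            exact Finset.mem_union_right _ (Finset.mul_mem_mul (hlamLb _) (hgvalV _ (hσm i) y))
          · obtain ⟨t, rfl⟩ := Nat.exists_eq_add_of_le h'
            rw [take_append_prod, hgprod, one_mul]
            exact hrun (i + 1) t
    exact this r
  · -- hardness
    intro w u v hw hu hv S hT
    by_contra hno
    push Not at hno
    have hA : 1 ≤ u.length := List.length_pos_iff.2 hu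
    have hvl : 1 ≤ v.length := List.length_pos_iff.2 hv
    have hwl : w.length = u.length + (pre ρ g σ r).length + v.length := by
      rw [hw, List.length_append, List.length_append]
    -- decomposition at child `i`
    have hdec : ∀ i < r, ∃ s, w = (u ++ pre ρ g σ i) ++ g (σ i) ++ (s ++ v) := by
      intro i hi
      obtain ⟨s, hs⟩ := pre_lt ρ g σ hi
      refine ⟨s, ?_⟩
      rw [hw, hs]; simp only [List.append_assoc]
    have hPchild : ∀ i < r, ∀ x ≤ (g (σ i)).length,
        S.P (u.length + (pre ρ g σ i).length + x) = u.prod * lam (i + 1) * ((g (σ i)).take x).prod := by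
      intro i hi x hx
      obtain ⟨s, hs⟩ := hdec i hi
      show (w.take _).prod = _
      rw [hs, List.append_assoc, ← List.length_append, take_append_prod, List.prod_append, hpreprod,
        List.take_append_of_le_length hx]
    have hreg : ∀ i < r, u.length ≤ u.length + (pre ρ g σ i).length ∧
        u.length + (pre ρ g σ i).length ≤ u.length + (pre ρ g σ i).length + (g (σ i)).length ∧
        u.length + (pre ρ g σ i).length + (g (σ i)).length ≤ u.length + (pre ρ g σ r).length := by
      intro i hi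
      have := pre_length_lt ρ g σ hρne hi
      omega
    have hdisj : ∀ i i', i < i' → i' < r →
        u.length + (pre ρ g σ i).length + (g (σ i)).length < u.length + (pre ρ g σ i').length := by
      intro i i' h _
      have := pre_length_lt ρ g σ hρne h
      omega
    refine S.no_small (z := z) (E := E) (A := u.length) (B := u.length + (pre ρ g σ r).length)
      (r := r) (k := k) (N := N) (n0 := n0)
      (a := fun i => u.length + (pre ρ g σ i).length)
      (b := fun i => u.length + (pre ρ g σ i).length + (g (σ i)).length)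
      (σ := σ) (V := V) (lab := lab) (h0 := u.prod) hA (by omega) hT hk hreg hdisj ?_ ?_ ?_ ?_
      (fun i _ j _ h => hlab h) ?_ hn01 hn0' hN hr
    · intro i hi
      have := hgsize (σ i)
      omega
    · intro t
      have := hno t
      omega
    · -- critical times of solo children
      intro i0 hi0 hsolo
      obtain ⟨s, hs⟩ := hdec i0 hi0
      have hlt := pre_length_lt ρ g σ hρne hi0
      have hhard := hg5 (σ i0) (EE (bnd (m - 1 - σ i0))) w (u ++ pre ρ g σ i0) (s ++ v) hs
        (by simp [hu]) (by simp [hv]) S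
      rw [List.length_append] at hhard
      apply hhard
      have hcount := count_positions ρ g σ u.length (σ i0) Lρ (bnd (m - 1 - σ i0)) hρlen r
        (fun i _ h => hglen _ _ h (hσm i))
      have hch := S.child_tame (z := z) (E := E) (A := u.length)
        (B := u.length + (pre ρ g σ r).length) (r := r)
        (nb := (r + 1) * Lρ + r * (bnd (m - 1 - σ i0) + 1) + 1)
        (a := fun i => u.length + (pre ρ g σ i).length)
        (b := fun i => u.length + (pre ρ g σ i).length + (g (σ i)).length)
        (σ := σ) (i0 := i0) (V := acc (σ i0)) hA (by omega) hT hi0 hreg hdisj hsolo (acc1 _) ?_ ?_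
      · rw [← hEE, ← hZf] at hch
        exact hch
      · intro i hi hσi e he1 he2
        obtain ⟨x, rfl⟩ := Nat.exists_eq_add_of_le he1
        have hx : x ≤ (g (σ i)).length := by omega
        refine ⟨((g (σ i)).take x).prod, ?_, ?_⟩
        · have h1 : nextV (Zf (acc (σ i)).card) ⊆ acc (σ i + 1) := by
            rw [accs]; exact Finset.subset_union_right
          exact accmono (Nat.succ_le_of_lt hσi) (h1 (hgval _ _))
        · have h1 := hPchild i hi x hx
          have h2 := hPchild i hi 0 (Nat.zero_le _)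
          rw [List.take_zero, List.prod_nil, mul_one, Nat.add_zero] at h2
          rw [h1, h2]
      · have hsub : (Finset.Icc u.length (u.length + (pre ρ g σ r).length)).filter
            (fun e => ¬ ∃ i < r, σ i ≤ σ i0 ∧ u.length + (pre ρ g σ i).length ≤ e ∧
              e ≤ u.length + (pre ρ g σ i).length + (g (σ i)).length) ⊆
            insert (u.length + (pre ρ g σ r).length)
            ((Finset.Ico u.length (u.length + (pre ρ g σ r).length)).filter
            (fun e => ¬ ∃ i < r, σ i ≤ σ i0 ∧ u.length + (pre ρ g σ i).length ≤ e ∧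
              e ≤ u.length + (pre ρ g σ i).length + (g (σ i)).length)) := by
          intro e he
          rw [Finset.mem_filter, Finset.mem_Icc] at he
          rw [Finset.mem_insert, Finset.mem_filter, Finset.mem_Ico]
          by_cases h : e = u.length + (pre ρ g σ r).length
          · left; exact h
          · right; exact ⟨⟨he.1.1, by omega⟩, he.2⟩
        refine (Finset.card_le_card hsub).trans ((Finset.card_insert_le _ _).trans ?_)
        exact Nat.succ_le_succ hcount
    · intro α ω h1 h2 h3
      have := hσ0 α ω h1 h2 h3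
      refine lt_of_le_of_lt (Nat.mul_le_mul_left _ (Finset.card_le_card ?_)) this
      intro i hi
      rw [Finset.mem_filter] at hi ⊢
      refine ⟨hi.1, ?_⟩
      obtain ⟨j, hj, hji, hs, h4, h5⟩ := hi.2
      exact ⟨j, hj, hji, Fin.ext hs, h4, h5⟩
    · intro i hi e he1 he2
      obtain ⟨x, rfl⟩ := Nat.exists_eq_add_of_le he1
      have hx : x ≤ (g (σ i)).length := by omega
      refine ⟨((g (σ i)).take x).prod, hgvalV _ (hσm i) x, ?_⟩
      rw [hPchild i hi x hx, hlamr i hi]

open Classical in
/-- In an infinite group there are words without sweeps. -/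
theorem no_sweep [Infinite G] (K D : ℕ) (𝓑 : Finset G) (Sg : Set G)
    (W : G → List G) (hW1 : ∀ x, W x ≠ []) (hW2 : ∀ x, ∀ y ∈ W x, y ∈ Sg) (hW3 : ∀ x, (W x).prod = x)
    (c : G) (hc : c ∈ Sg) (hc' : c⁻¹ ∈ Sg) :
    ∃ w : List G, (∀ x ∈ w, x ∈ Sg) ∧ w.prod = 1 ∧ w ≠ [] ∧ IsEmpty (Sweep K D 𝓑 w) := by
  have hall : ∀ k, HH K D 𝓑 Sg (k + 1) := by
    intro k
    induction k with
    | zero => exact HH_one K D 𝓑 Sg c hc hc'
    | succ k ih => exact HH_step K D 𝓑 Sg W hW1 hW2 hW3 (k + 1) (by omega) ih
  set X : Finset G := (Fs {1, c} 𝓑) ^ K with hX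
  obtain ⟨V, hV⟩ := hall K ((𝓑 * X) ×ˢ X).card
  obtain ⟨g, hg1, hg2, hg3, hg4, hg5⟩ := hV 0
  refine ⟨[c, c⁻¹] ++ g ++ [c, c⁻¹], ?_, ?_, by simp, ⟨?_⟩⟩
  · intro x hx
    simp only [List.mem_append, List.mem_cons, List.not_mem_nil, or_false] at hx
    rcases hx with ((rfl | rfl) | h) | (rfl | rfl)
    · exact hc
    · exact hc'
    · exact hg1 x h
    · exact hc
    · exact hc'
  · rw [List.prod_append, List.prod_append, hg2]; simp
  · intro S
    have hlen : ([c, c⁻¹] : List G).length = 2 := rfl
    obtain ⟨t, ht⟩ := hg5 _ [c, c⁻¹] [c, c⁻¹] rfl (by simp) (by simp) S (by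
      refine ⟨fun _ => 0, monotone_const, fun _ => le_rfl, ?_⟩
      intro v
      refine ⟨(𝓑 * X) ×ˢ X, le_rfl, ?_⟩
      intro t _ _
      rw [Finset.mem_product]
      constructor
      · unfold Sweep.Lft
        refine Finset.mul_mem_mul (S.hb t) ?_
        refine pv_mem_pow' _ _ _ _ _ _ ((List.length_filter_le _ _).trans (S.len t)) ?_
        intro d hd
        rw [List.mem_filter] at hd
        simp only [decide_eq_true_eq, hlen] at hd
        refine ⟨?_, S.hc t d hd.1⟩
        show (List.take d.1 _).prod ∈ _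
        have : d.1 = 0 ∨ d.1 = 1 := by omega
        rcases this with h | h <;> rw [h] <;> simp
      · unfold Sweep.Rgt
        refine pv_mem_pow' _ _ _ _ _ _ ((List.length_filter_le _ _).trans (S.len t)) ?_
        intro d hd
        rw [List.mem_filter] at hd
        simp only [decide_eq_true_eq, hlen] at hd
        refine ⟨?_, S.hc t d hd.1⟩
        show (List.take d.1 _).prod ∈ _
        have hl : ([c, c⁻¹] ++ g).length = 2 + g.length := by simp; omega
        obtain ⟨y, hy⟩ : ∃ y, d.1 = ([c, c⁻¹] ++ g).length + (y + 1) :=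
          ⟨d.1 - (2 + g.length) - 1, by omega⟩
        rw [hy, take_append_prod, List.prod_append, hg2]
        cases y with
        | zero => simp
        | succ y => simp)
    have h1 := S.cnt_le t ([c, c⁻¹] : List G).length (([c, c⁻¹] : List G).length + g.length)
    omega

end Pool.Agent.EDT
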