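import Mathlib
import Pool.Agent.EDT.Sweep

set_option autoImplicit false
set_option linter.unusedSectionVars false

namespace Pool.Agent.EDT

section UpDown

variable (n : ℕ) (St : ℕ → ℕ)

def upf (s : ℕ) : ℕ := ((Finset.range (n + 1)).filter (fun p => St p < s)).card

def dnf (t : ℕ) : ℕ := ((Finset.range n).filter (fun p => St (p + 1) ≤ t)).card

variable {n St}

theorem up_iff (hSt : ∀ p q, p < q → q ≤ n → St p < St q) {s p : ℕ} (hp : p ≤ n) :
    s ≤ St p ↔ upf n St s ≤ p := by
  unfold upf
  constructor
  · intro h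
    have : (Finset.range (n + 1)).filter (fun p => St p < s) ⊆ Finset.range p := by
      intro q hq
      rw [Finset.mem_filter, Finset.mem_range] at hq
      rw [Finset.mem_range]
      by_contra hc
      push Not at hc
      rcases Nat.eq_or_lt_of_le hc with h' | h'
      · rw [← h'] at hq; omega
      · have := hSt p q h' (by omega)
        omega
    simpa using Finset.card_le_card this
  · intro h
    by_contra hc
    push Not at hc
    have : Finset.range (p + 1) ⊆ (Finset.range (n + 1)).filter (fun p => St p < s) := by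
      intro q hq
      rw [Finset.mem_range] at hq
      rw [Finset.mem_filter, Finset.mem_range]
      refine ⟨by omega, ?_⟩
      rcases Nat.eq_or_lt_of_le (Nat.lt_succ_iff.1 hq) with h' | h'
      · rw [h']; exact hc
      · exact (hSt q p h' hp).trans hc
    have := Finset.card_le_card this
    rw [Finset.card_range] at this
    omega

theorem dn_iff (h0 : St 0 = 0) (hSt : ∀ p q, p < q → q ≤ n → St p < St q) {t p : ℕ} (hp : p ≤ n) :
    St p ≤ t ↔ p ≤ dnf n St t := by
  unfold dnf
  constructor
  · intro h
    have : Finset.range p ⊆ (Finset.range n).filter (fun p => St (p + 1) ≤ t) := by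
      intro q hq
      rw [Finset.mem_range] at hq
      rw [Finset.mem_filter, Finset.mem_range]
      refine ⟨by omega, ?_⟩
      rcases Nat.eq_or_lt_of_le (Nat.succ_le_of_lt hq) with h' | h'
      · rw [Nat.succ_eq_add_one] at h'; rw [h']; exact h
      · exact (hSt (q + 1) p h' hp).le.trans h
    simpa using Finset.card_le_card this
  · intro h
    by_contra hc
    push Not at hc
    have hp0 : p ≠ 0 := by rintro rfl; omega
    have : (Finset.range n).filter (fun p => St (p + 1) ≤ t) ⊆ Finset.range (p - 1) := by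
      intro q hq
      rw [Finset.mem_filter, Finset.mem_range] at hq
      rw [Finset.mem_range]
      by_contra hc'
      push Not at hc'
      rcases Nat.eq_or_lt_of_le (show p ≤ q + 1 by omega) with h' | h'
      · rw [← h'] at hq; omega
      · have := hSt p (q + 1) h' (by omega)
        omega
    have := Finset.card_le_card this
    rw [Finset.card_range] at this
    omega

theorem dn_le (t : ℕ) : dnf n St t ≤ n := by
  unfold dnf
  refine (Finset.card_filter_le _ _).trans ?_
  simp

theorem up_mono {s s' : ℕ} (h : s ≤ s') : upf n St s ≤ upf n St s' := by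
  unfold upf
  apply Finset.card_le_card
  intro p hp
  rw [Finset.mem_filter] at hp ⊢
  exact ⟨hp.1, by omega⟩

theorem dn_mono {s s' : ℕ} (h : s ≤ s') : dnf n St s ≤ dnf n St s' := by
  unfold dnf
  apply Finset.card_le_card
  intro p hp
  rw [Finset.mem_filter] at hp ⊢
  exact ⟨hp.1, by omega⟩

theorem dn_le_up (h0 : St 0 = 0) (hSt : ∀ p q, p < q → q ≤ n → St p < St q) {s : ℕ}
    (hs : s ≤ St n) : dnf n St s ≤ upf n St s := by
  have h1 : St (dnf n St s) ≤ s := (dn_iff h0 hSt (dn_le s)).2 le_rfl
  have h2 : upf n St s ≤ n := (up_iff hSt le_rfl).1 hs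
  have h3 : s ≤ St (upf n St s) := (up_iff hSt h2).2 le_rfl
  by_contra hc
  push Not at hc
  have := hSt _ _ hc (dn_le s)
  omega

end UpDown

section IV

variable {G : Type} [Group G]

def cutsOf (L : List (ℕ × ℕ × G)) : List (ℕ × G) := L.flatMap (fun x => [(x.1, 1), (x.2.1, x.2.2)])

theorem mem_cutsOf {L : List (ℕ × ℕ × G)} {c : ℕ × G} :
    c ∈ cutsOf L ↔ ∃ x ∈ L, c = (x.1, 1) ∨ c = (x.2.1, x.2.2) := by
  unfold cutsOf
  rw [List.mem_flatMap]
  constructor
  · rintro ⟨x, hx, h⟩
    simp only [List.mem_cons, List.not_mem_nil, or_false] at h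
    exact ⟨x, hx, h⟩
  · rintro ⟨x, hx, h⟩
    refine ⟨x, hx, ?_⟩
    simp only [List.mem_cons, List.not_mem_nil, or_false]
    exact h

theorem cutsOf_length (L : List (ℕ × ℕ × G)) : (cutsOf L).length = 2 * L.length := by
  induction L with
  | nil => rfl
  | cons x L ih =>
    show ([(x.1, 1), (x.2.1, x.2.2)] ++ cutsOf L).length = _
    rw [List.length_append, ih]
    simp only [List.length_cons, List.length_nil]
    omega

theorem inn_cutsOf {L : List (ℕ × ℕ × G)} (hlt : ∀ x ∈ L, x.1 < x.2.1)
    (hp : L.Pairwise (fun x y => x.2.1 ≤ y.1)) (p : ℕ) :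
    inn (cutsOf L) p ↔ ∃ x ∈ L, x.1 ≤ p ∧ p < x.2.1 := by
  have hzero : ∀ L : List (ℕ × ℕ × G), (∀ y ∈ L, p < y.1 ∧ y.1 < y.2.1) →
      (cutsOf L).countP (fun c => decide (c.1 ≤ p)) = 0 := by
    intro L hL
    rw [List.countP_eq_zero]
    intro c hc
    obtain ⟨x, hx, h⟩ := mem_cutsOf.1 hc
    have := hL x hx
    simp only [decide_eq_true_eq]
    rcases h with rfl | rfl <;> dsimp only <;> omega
  induction L with
  | nil => simp [cutsOf, inn]
  | cons x L ih =>
    rw [List.pairwise_cons] at hp
    have hx := hlt x List.mem_cons_self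
    have ih' := ih (fun y hy => hlt y (List.mem_cons_of_mem _ hy)) hp.2
    have hcons : (cutsOf (x :: L)).countP (fun c => decide (c.1 ≤ p)) =
        (if x.1 ≤ p then 1 else 0) + (if x.2.1 ≤ p then 1 else 0) +
          (cutsOf L).countP (fun c => decide (c.1 ≤ p)) := by
      show ((x.1, 1) :: (x.2.1, x.2.2) :: cutsOf L).countP (fun c => decide (c.1 ≤ p)) = _
      rw [List.countP_cons, List.countP_cons]
      simp only [decide_eq_true_eq]
      omega
    unfold inn at ih' ⊢
    rw [hcons]
    by_cases h1 : x.1 ≤ p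
    · by_cases h2 : x.2.1 ≤ p
      · rw [if_pos h1, if_pos h2]
        have : Odd (1 + 1 + (cutsOf L).countP (fun c => decide (c.1 ≤ p))) ↔
            Odd ((cutsOf L).countP (fun c => decide (c.1 ≤ p))) := by
          rw [Nat.odd_add]
          constructor
          · intro h
            by_contra hc
            rw [Nat.not_odd_iff_even] at hc
            exact absurd (h.2 hc) (by decide)
          · intro h
            constructor
            · intro h'; exact absurd h' (by decide)
            · intro h'; exact absurd h' (Nat.not_even_iff_odd.2 h)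
        refine this.trans (ih'.trans ?_)
        constructor
        · rintro ⟨y, hy, h⟩; exact ⟨y, List.mem_cons_of_mem _ hy, h⟩
        · rintro ⟨y, hy, h⟩
          rcases List.mem_cons.1 hy with rfl | hy
          · omega
          · exact ⟨y, hy, h⟩
      · rw [if_pos h1, if_neg h2, hzero L (fun y hy => by
          have := hp.1 y hy
          have := hlt y (List.mem_cons_of_mem _ hy)
          omega)]
        constructor
        · intro _; exact ⟨x, List.mem_cons_self, h1, by omega⟩
        · intro _; decide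
    · rw [if_neg h1, if_neg (by omega), hzero L (fun y hy => by
          have := hp.1 y hy
          have := hlt y (List.mem_cons_of_mem _ hy)
          omega)]
      constructor
      · intro h; exact absurd h (by decide)
      · rintro ⟨y, hy, h⟩
        rcases List.mem_cons.1 hy with rfl | hy
        · omega
        · have := hp.1 y hy
          omega

theorem pairwise_tri {β : Type} {R : β → β → Prop} {L : List β} (h : L.Pairwise R) :
    ∀ x ∈ L, ∀ y ∈ L, x = y ∨ R x y ∨ R y x := by
  induction L with
  | nil => intro x hx; exact absurd hx (by simp)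
  | cons z L ih =>
    rw [List.pairwise_cons] at h
    intro x hx y hy
    rcases List.mem_cons.1 hx with rfl | hx' <;> rcases List.mem_cons.1 hy with rfl | hy'
    · left; rfl
    · right; left; exact h.1 y hy'
    · right; right; exact h.1 x hx'
    · exact ih h.2 x hx' y hy'

theorem conn_cutsOf {L : List (ℕ × ℕ × G)} (hlt : ∀ x ∈ L, x.1 < x.2.1)
    (hp : L.Pairwise (fun x y => x.2.1 ≤ y.1)) {p q : ℕ} (hpq : p ≤ q) :
    conn (cutsOf L) p q ↔ ∃ x ∈ L, x.1 ≤ p ∧ q < x.2.1 := by
  unfold conn
  rw [inn_cutsOf hlt hp]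
  constructor
  · rintro ⟨⟨x, hx, h1, h2⟩, h3⟩
    refine ⟨x, hx, h1, ?_⟩
    by_contra hc
    push Not at hc
    exact h3 (x.2.1, x.2.2) (mem_cutsOf.2 ⟨x, hx, Or.inr rfl⟩) ⟨h2, hc⟩
  · rintro ⟨x, hx, h1, h2⟩
    refine ⟨⟨x, hx, h1, by omega⟩, ?_⟩
    intro c hc hh
    obtain ⟨y, hy, h⟩ := mem_cutsOf.1 hc
    have hy1 := hlt y hy
    rcases pairwise_tri hp x hx y hy with h' | h' | h'
    · subst h'
      rcases h with rfl | rfl <;> dsimp only at hh <;> omega
    · rcases h with rfl | rfl <;> dsimp only at hh <;> omega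
    · rcases h with rfl | rfl <;> dsimp only at hh <;> omega

theorem sorted_cutsOf {L : List (ℕ × ℕ × G)} (hlt : ∀ x ∈ L, x.1 < x.2.1)
    (hp : L.Pairwise (fun x y => x.2.1 ≤ y.1)) :
    (cutsOf L).Pairwise (fun c c' => c.1 ≤ c'.1) := by
  induction L with
  | nil => simp [cutsOf]
  | cons x L ih =>
    rw [List.pairwise_cons] at hp
    have hx := hlt x List.mem_cons_self
    have ih' := ih (fun y hy => hlt y (List.mem_cons_of_mem _ hy)) hp.2
    have hlow : ∀ c ∈ cutsOf L, x.2.1 ≤ c.1 := by
      intro c hc
      obtain ⟨y, hy, h⟩ := mem_cutsOf.1 hc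
      have h1 := hp.1 y hy
      have h2 := hlt y (List.mem_cons_of_mem _ hy)
      rcases h with rfl | rfl <;> dsimp only <;> omega
    show ((x.1, 1) :: (x.2.1, x.2.2) :: cutsOf L).Pairwise _
    rw [List.pairwise_cons, List.pairwise_cons]
    refine ⟨?_, ?_, ih'⟩
    · intro c hc
      rcases List.mem_cons.1 hc with rfl | hc
      · exact hx.le
      · have := hlow c hc
        dsimp only; omega
    · intro c hc
      exact hlow c hc

theorem adj_cutsOf {L : List (ℕ × ℕ × G)} (hlt : ∀ x ∈ L, x.1 < x.2.1)
    (hp : L.Pairwise (fun x y => x.2.1 ≤ y.1)) :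
    ∀ c ∈ cutsOf L, inn (cutsOf L) c.1 ∨ (0 < c.1 ∧ inn (cutsOf L) (c.1 - 1)) := by
  intro c hc
  obtain ⟨x, hx, h⟩ := mem_cutsOf.1 hc
  have hx1 := hlt x hx
  rcases h with rfl | rfl
  · left
    rw [inn_cutsOf hlt hp]
    exact ⟨x, hx, le_rfl, hx1⟩
  · right
    refine ⟨by dsimp only; omega, ?_⟩
    rw [inn_cutsOf hlt hp]
    exact ⟨x, hx, by dsimp only; omega, by dsimp only; omega⟩

end IV

end Pool.Agent.EDT
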