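import Mathlib
import Pool.Agent.EDT.Sweep

set_option autoImplicit false
set_option linter.unusedSectionVars false

namespace Pool.Agent.EDT

variable {G : Type} [Group G]

/-- `(c c⁻¹)^e`. -/
def rp (c : G) : ℕ → List G
  | 0 => []
  | e + 1 => c :: c⁻¹ :: rp c e

def blk (c d x : G) (e : ℕ) : List G := x :: d :: d⁻¹ :: (rp c e ++ [d, d⁻¹])

/-- The padded word. -/
def pad (c d : G) : ℕ → List G → List G
  | _, [] => []
  | e, x :: w => blk c d x e ++ pad c d (e + 1) w

def ptn (c d : G) (e : ℕ) : List G := d⁻¹ :: (rp c e ++ [d])

theorem rp_length (c : G) (e : ℕ) : (rp c e).length = 2 * e := by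
  induction e with
  | zero => rfl
  | succ e ih => simp only [rp, List.length_cons, ih]; omega

theorem rp_prod (c : G) (e : ℕ) : (rp c e).prod = 1 := by
  induction e with
  | zero => rfl
  | succ e ih => simp [rp, ih]

theorem blk_length (c d x : G) (e : ℕ) : (blk c d x e).length = 2 * e + 5 := by
  simp only [blk, List.length_cons, List.length_append, rp_length, List.length_nil]

theorem blk_prod (c d x : G) (e : ℕ) : (blk c d x e).prod = x := by
  simp [blk, rp_prod]

theorem pad_append (c d : G) (e : ℕ) (u v : List G) :
    pad c d e (u ++ v) = pad c d e u ++ pad c d (e + u.length) v := by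
  induction u generalizing e with
  | nil => simp [pad]
  | cons x u ih =>
    show blk c d x e ++ pad c d (e + 1) (u ++ v) = (blk c d x e ++ pad c d (e + 1) u) ++ _
    rw [ih, List.append_assoc, List.length_cons]
    congr 3
    omega

theorem pad_prod (c d : G) (e : ℕ) (u : List G) : (pad c d e u).prod = u.prod := by
  induction u generalizing e with
  | nil => rfl
  | cons x u ih =>
    show (blk c d x e ++ pad c d (e + 1) u).prod = _
    rw [List.prod_append, blk_prod, ih, List.prod_cons]

theorem pad_mem (c d : G) (e : ℕ) (u : List G) (Sg : Set G) (hc : c ∈ Sg) (hc' : c⁻¹ ∈ Sg)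
    (hd : d ∈ Sg) (hd' : d⁻¹ ∈ Sg) (hu : ∀ x ∈ u, x ∈ Sg) : ∀ x ∈ pad c d e u, x ∈ Sg := by
  have hrp : ∀ e, ∀ x ∈ rp c e, x ∈ Sg := by
    intro e
    induction e with
    | zero => intro x hx; exact absurd hx (by simp [rp])
    | succ e ih =>
      intro x hx
      simp only [rp, List.mem_cons] at hx
      rcases hx with rfl | rfl | h
      · exact hc
      · exact hc'
      · exact ih x h
  induction u generalizing e with
  | nil => intro x hx; exact absurd hx (by simp [pad])
  | cons y u ih =>
    intro x hx
    have hx' : x ∈ blk c d y e ++ pad c d (e + 1) u := hx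
    rw [List.mem_append] at hx'
    rcases hx' with h | h
    · simp only [blk, List.mem_cons, List.mem_append, List.not_mem_nil, or_false] at h
      rcases h with rfl | rfl | rfl | h | rfl | rfl
      · exact hu _ List.mem_cons_self
      · exact hd
      · exact hd'
      · exact hrp e x h
      · exact hd
      · exact hd'
    · exact ih _ (fun z hz => hu z (List.mem_cons_of_mem _ hz)) x h

theorem run_case (c d : G) (hcd : c ≠ d) (e' : ℕ) (he' : 1 ≤ e') (e0 q : ℕ) (T s : List G)
    (hq : q < 2 * e0) : (rp c e0 ++ T).drop q ≠ ptn c d e' ++ s := by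
  obtain ⟨e', rfl⟩ : ∃ n, e' = n + 1 := ⟨e' - 1, by omega⟩
  induction e0 generalizing q with
  | zero => omega
  | succ e0 ih =>
    intro h
    match q with
    | 0 =>
      simp only [rp, ptn, List.drop_zero, List.cons_append, List.cons.injEq] at h
      obtain ⟨h1, h2, _⟩ := h
      apply hcd
      rw [← h2] at h1
      exact inv_injective h1
    | 1 =>
      simp only [rp, ptn, List.cons_append, List.drop_succ_cons, List.drop_zero, List.cons.injEq] at h
      exact hcd (inv_injective h.1)
    | q + 2 =>
      have : (rp c (e0 + 1) ++ T).drop (q + 2) = (rp c e0 ++ T).drop q := by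
        simp only [rp, List.cons_append, List.drop_succ_cons]
      rw [this] at h
      exact ih q (by omega) h

theorem rp_eq (c d : G) (hcd : c ≠ d) (e e' : ℕ) (X Y : List G)
    (h : rp c e ++ d :: X = rp c e' ++ d :: Y) : e = e' := by
  induction e generalizing e' with
  | zero =>
    cases e' with
    | zero => rfl
    | succ e' =>
      simp only [rp, List.nil_append, List.cons_append, List.cons.injEq] at h
      exact absurd h.1.symm hcd
  | succ e ih =>
    cases e' with
    | zero =>
      simp only [rp, List.nil_append, List.cons_append, List.cons.injEq] at h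
      exact absurd h.1 hcd
    | succ e' =>
      simp only [rp, List.cons_append, List.cons.injEq, true_and] at h
      rw [ih e' h]

theorem ptn_unique (c d : G) (hcd : c ≠ d) (e' : ℕ) (he' : 2 ≤ e') (w : List G) (e0 q : ℕ)
    (he0 : 1 ≤ e0) (s : List G) (h : (pad c d e0 w).drop q = ptn c d e' ++ s) :
    ∃ i < w.length, e' = e0 + i ∧ q = (pad c d e0 (w.take i)).length + 2 := by
  induction w generalizing e0 q with
  | nil => simp [pad, ptn] at h
  | cons x w ih =>
    rcases Nat.lt_or_ge q (blk c d x e0).length with hq | hq
    · rw [blk_length] at hq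
      have hL : pad c d e0 (x :: w) = x :: d :: d⁻¹ :: (rp c e0 ++ (d :: d⁻¹ :: pad c d (e0 + 1) w)) := by
        simp [pad, blk]
      rw [hL] at h
      obtain ⟨e1, rfl⟩ : ∃ n, e' = n + 2 := ⟨e' - 2, by omega⟩
      match q with
      | 0 =>
        simp only [ptn, rp, List.drop_zero, List.cons_append, List.cons.injEq] at h
        exact absurd h.2.1.symm hcd
      | 1 =>
        simp only [ptn, rp, List.drop_succ_cons, List.drop_zero, List.cons_append, List.cons.injEq] at h
        exact absurd (h.2.1.symm.trans h.1.symm) hcd
      | 2 =>
        simp only [ptn, List.drop_succ_cons, List.drop_zero, List.cons_append, List.cons.injEq,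
          true_and, List.append_assoc] at h
        have := rp_eq c d hcd _ _ _ _ h
        exact ⟨0, by simp, by omega, by simp [pad]⟩
      | q + 3 =>
        simp only [List.drop_succ_cons] at h
        rcases Nat.lt_or_ge q (2 * e0) with hq' | hq'
        · exact absurd h (run_case c d hcd (e1 + 2) (by omega) e0 q _ s hq')
        · have hdrop : (rp c e0 ++ (d :: d⁻¹ :: pad c d (e0 + 1) w)).drop q =
              (d :: d⁻¹ :: pad c d (e0 + 1) w).drop (q - 2 * e0) := by
            rw [List.drop_append, rp_length, List.drop_eq_nil_of_le (by rw [rp_length]; exact hq'),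
              List.nil_append]
          rw [hdrop] at h
          have h2 : q - 2 * e0 = 0 ∨ q - 2 * e0 = 1 := by omega
          rcases h2 with h2 | h2
          · rw [h2] at h
            simp only [ptn, rp, List.drop_zero, List.cons_append, List.cons.injEq] at h
            exact absurd (h.2.1.symm.trans h.1.symm) hcd
          · rw [h2] at h
            cases w with
            | nil => simp [pad, ptn, rp] at h
            | cons y w =>
              simp only [pad, blk, ptn, rp, List.drop_succ_cons, List.drop_zero, List.cons_append,
                List.cons.injEq] at h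
              obtain ⟨_, h3, h4, h5, h6, _⟩ := h
              exact absurd (h6.trans h4.symm) hcd
    · have hd : (pad c d e0 (x :: w)).drop q = (pad c d (e0 + 1) w).drop (q - (blk c d x e0).length) := by
        show (blk c d x e0 ++ pad c d (e0 + 1) w).drop q = _
        rw [List.drop_append, List.drop_eq_nil_of_le hq, List.nil_append]
      rw [hd] at h
      obtain ⟨i, hi, h1, h2⟩ := ih (e0 + 1) _ (by omega) h
      refine ⟨i + 1, by simpa using hi, by omega, ?_⟩
      rw [List.take_succ_cons]
      show q = (blk c d x e0 ++ pad c d (e0 + 1) (w.take i)).length + 2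
      rw [List.length_append]
      omega

end Pool.Agent.EDT
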