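import Mathlib
import Pool.Agent.EDT.Pad
import Pool.Agent.EDT.Interval

set_option autoImplicit false
set_option linter.unusedSectionVars false

namespace Pool.Agent.EDT

section Cont

variable {A : Type} (St : ℕ → ℕ)

/-- Blocks `p, ..., q` lie in the image of one letter of the list. -/
def cont (φ : A → List A) : ℕ → List A → ℕ → ℕ → Prop
  | _, [], _, _ => False
  | o, a :: z, p, q =>
    (o ≤ St p ∧ St (q + 1) ≤ o + (φ a).length) ∨ cont φ (o + (φ a).length) z p q

variable {St}

theorem cont_append (φ : A → List A) (o : ℕ) (x y : List A) (p q : ℕ) :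
    cont St φ o (x ++ y) p q ↔
      cont St φ o x p q ∨ cont St φ (o + (x.flatMap φ).length) y p q := by
  induction x generalizing o with
  | nil => simp [cont]
  | cons a x ih =>
    simp only [List.cons_append, cont, ih, List.flatMap_cons, List.length_append,
      ← Nat.add_assoc, or_assoc]

theorem cont_bound (φ : A → List A) (o : ℕ) (z : List A) (p q : ℕ) (h : cont St φ o z p q) :
    o ≤ St p ∧ St (q + 1) ≤ o + (z.flatMap φ).length := by
  induction z generalizing o with
  | nil => exact h.elim
  | cons a z ih =>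
    rw [List.flatMap_cons, List.length_append]
    rcases h with h | h
    · omega
    · have := ih _ h
      omega

theorem cont_mono {φ φ' σ : A → List A} (hφ : ∀ a, φ a = (σ a).flatMap φ') (o : ℕ) (z : List A)
    (p q : ℕ) (h : cont St φ' o (z.flatMap σ) p q) : cont St φ o z p q := by
  induction z generalizing o with
  | nil => exact h.elim
  | cons a z ih =>
    rw [List.flatMap_cons, cont_append] at h
    rcases h with h | h
    · left
      rw [hφ]
      exact cont_bound _ _ _ _ _ h
    · right
      rw [hφ]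
      exact ih _ h

theorem cont_jump0 {n : ℕ} (hSt : ∀ p q, p < q → q ≤ n → St p < St q) (φ : A → List A)
    (y : List A) (o p : ℕ) (hp : p + y.length < n) (h1 : o ≤ St p)
    (h2 : St (p + y.length + 1) ≤ o + (y.flatMap φ).length) :
    ∃ q, p ≤ q ∧ q ≤ p + y.length ∧ cont St φ o y q q := by
  induction y generalizing o p with
  | nil =>
    exfalso
    simp only [List.length_nil, List.flatMap_nil, Nat.add_zero] at h2 hp
    have := hSt p (p + 1) (by omega) (by omega)
    omega
  | cons b y ih =>
    rw [List.flatMap_cons, List.length_append] at h2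
    rw [List.length_cons] at hp h2 ⊢
    by_cases h : St (p + 1) ≤ o + (φ b).length
    · exact ⟨p, le_rfl, by omega, Or.inl ⟨h1, h⟩⟩
    · obtain ⟨q, hq1, hq2, hq3⟩ := ih (o + (φ b).length) (p + 1) (by omega) (by omega) (by
        have : p + 1 + y.length + 1 = p + (y.length + 1) + 1 := by omega
        rw [this]; omega)
      exact ⟨q, by omega, by omega, Or.inr hq3⟩

theorem cont_jump {n D : ℕ} (hSt : ∀ p q, p < q → q ≤ n → St p < St q)
    {φ φ' σ : A → List A} (hφ : ∀ a, φ a = (σ a).flatMap φ') (hD : ∀ a, (σ a).length ≤ D)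
    (o : ℕ) (z : List A) (p : ℕ) (hp : p + D < n) (h : cont St φ o z p (p + D)) :
    ∃ q, p ≤ q ∧ q ≤ p + D ∧ cont St φ' o (z.flatMap σ) q q := by
  induction z generalizing o with
  | nil => exact h.elim
  | cons a z ih =>
    rcases h with h | h
    · have hle : St (p + (σ a).length + 1) ≤ St (p + D + 1) := by
        rcases Nat.eq_or_lt_of_le (hD a) with h' | h'
        · rw [h']
        · exact (hSt _ _ (by omega) (by omega)).le
      obtain ⟨q, hq1, hq2, hq3⟩ := cont_jump0 hSt φ' (σ a) o p (by have := hD a; omega) h.1 (by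
        rw [← hφ]; omega)
      refine ⟨q, hq1, by have := hD a; omega, ?_⟩
      rw [List.flatMap_cons, cont_append]
      exact Or.inl hq3
    · obtain ⟨q, hq1, hq2, hq3⟩ := ih _ h
      refine ⟨q, hq1, hq2, ?_⟩
      rw [List.flatMap_cons, cont_append, ← hφ]
      exact Or.inr hq3

end Cont

section IL

variable {A : Type} (U Dn : ℕ → ℕ) (φ : A → List A)

/-- Interval list. -/
def il : ℕ → List A → List (ℕ × ℕ × A)
  | _, [] => []
  | o, a :: z =>
    if U o < Dn (o + (φ a).length) then
      (U o, Dn (o + (φ a).length), a) :: il (o + (φ a).length) z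
    else il (o + (φ a).length) z

variable {U Dn φ}

theorem mem_il {o : ℕ} {z : List A} {e : ℕ × ℕ × A} (h : e ∈ il U Dn φ o z) :
    ∃ x a x', z = x ++ a :: x' ∧
      e = (U (o + (x.flatMap φ).length), Dn (o + (x.flatMap φ).length + (φ a).length), a) ∧
      U (o + (x.flatMap φ).length) < Dn (o + (x.flatMap φ).length + (φ a).length) := by
  induction z generalizing o with
  | nil => exact absurd h (by simp [il])
  | cons b z ih =>
    rw [il] at h
    have hrec : e ∈ il U Dn φ (o + (φ b).length) z → ∃ x a x', b :: z = x ++ a :: x' ∧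
      e = (U (o + (x.flatMap φ).length), Dn (o + (x.flatMap φ).length + (φ a).length), a) ∧
      U (o + (x.flatMap φ).length) < Dn (o + (x.flatMap φ).length + (φ a).length) := by
      intro h
      obtain ⟨x, a, x', h1, h2, h3⟩ := ih h
      refine ⟨b :: x, a, x', by rw [h1]; rfl, ?_⟩
      rw [List.flatMap_cons, List.length_append, ← Nat.add_assoc]
      exact ⟨h2, h3⟩
    split_ifs at h with hc
    · rcases List.mem_cons.1 h with h | h
      · exact ⟨[], b, z, rfl, by simpa using h, by simpa using hc⟩
      · exact hrec h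
    · exact hrec h

theorem il_lt {o : ℕ} {z : List A} : ∀ e ∈ il U Dn φ o z, e.1 < e.2.1 := by
  intro e he
  obtain ⟨x, a, x', h1, h2, h3⟩ := mem_il he
  rw [h2]
  exact h3

theorem il_pairwise {M : ℕ} (hU : ∀ s s', s ≤ s' → U s ≤ U s') (hDU : ∀ s, s ≤ M → Dn s ≤ U s)
    {o : ℕ} {z : List A} (hM : o + (z.flatMap φ).length ≤ M) :
    (il U Dn φ o z).Pairwise (fun x y => x.2.1 ≤ y.1) := by
  induction z generalizing o with
  | nil => simp [il]
  | cons b z ih =>
    rw [List.flatMap_cons, List.length_append] at hM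
    have ih' := ih (o := o + (φ b).length) (by omega)
    rw [il]
    split_ifs with hc
    · rw [List.pairwise_cons]
      refine ⟨?_, ih'⟩
      intro e he
      obtain ⟨x, a, x', h1, h2, h3⟩ := mem_il he
      rw [h2]
      exact (hDU _ (by omega)).trans (hU _ _ (by omega))
    · exact ih'

theorem il_filter (Q : A → Bool) {o : ℕ} {z : List A}
    (hQ : ∀ x a x', z = x ++ a :: x' →
      (U (o + (x.flatMap φ).length) < Dn (o + (x.flatMap φ).length + (φ a).length) ↔
        Q a = true)) :
    (il U Dn φ o z).map (fun e => e.2.2) = z.filter Q := by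
  induction z generalizing o with
  | nil => rfl
  | cons b z ih =>
    have h0 := hQ [] b z rfl
    simp only [List.flatMap_nil, List.length_nil, Nat.add_zero] at h0
    have ih' := ih (o := o + (φ b).length) (by
      intro x a x' h
      have := hQ (b :: x) a x' (by rw [h]; rfl)
      rw [List.flatMap_cons, List.length_append, ← Nat.add_assoc] at this
      exact this)
    rw [il]
    split_ifs with hc
    · rw [List.map_cons, ih', List.filter_cons_of_pos (h0.1 hc)]
    · rw [ih', List.filter_cons_of_neg (fun h => hc (h0.2 h))]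

end IL

section IL2

variable {A : Type} {n : ℕ} {St : ℕ → ℕ} {φ : A → List A}

theorem il_cont (h0 : St 0 = 0) (hSt : ∀ p q, p < q → q ≤ n → St p < St q) {o : ℕ} {z : List A}
    {p q : ℕ} (hpq : p ≤ q) (hq : q < n) :
    (∃ e ∈ il (upf n St) (dnf n St) φ o z, e.1 ≤ p ∧ q < e.2.1) ↔ cont St φ o z p q := by
  induction z generalizing o with
  | nil => simp [il, cont]
  | cons b z ih =>
    have h1 : o ≤ St p ↔ upf n St o ≤ p := up_iff hSt (by omega)
    have h2 : St (q + 1) ≤ o + (φ b).length ↔ q + 1 ≤ dnf n St (o + (φ b).length) :=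
      dn_iff h0 hSt (by omega)
    rw [cont, h1, h2, ← ih, il]
    split_ifs with hc
    · constructor
      · rintro ⟨e, he, h3, h4⟩
        rcases List.mem_cons.1 he with rfl | he
        · exact Or.inl ⟨h3, h4⟩
        · exact Or.inr ⟨e, he, h3, h4⟩
      · rintro (⟨h3, h4⟩ | ⟨e, he, h3, h4⟩)
        · exact ⟨_, List.mem_cons_self, h3, h4⟩
        · exact ⟨e, List.mem_cons_of_mem _ he, h3, h4⟩
    · constructor
      · rintro ⟨e, he, h3, h4⟩
        exact Or.inr ⟨e, he, h3, h4⟩
      · rintro (⟨h3, h4⟩ | ⟨e, he, h3, h4⟩)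
        · omega
        · exact ⟨e, he, h3, h4⟩

end IL2

section Comb

variable {G : Type} [Group G] {A : Type}

open scoped Pointwise

/-- Segment decomposition. -/
def sg (Q : A → Bool) (τ : A → G) : List A → G × List (A × G)
  | [] => (1, [])
  | a :: z => if Q a then (1, (a, (sg Q τ z).1) :: (sg Q τ z).2)
    else (τ a * (sg Q τ z).1, (sg Q τ z).2)

theorem sg_fst (Q : A → Bool) (τ : A → G) (z : List A) :
    ((sg Q τ z).2.map Prod.fst) = z.filter Q := by
  induction z with
  | nil => rfl
  | cons a z ih =>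
    rw [sg]
    by_cases h : Q a = true
    · rw [if_pos h, List.filter_cons_of_pos h]
      simp only [List.map_cons, ih]
    · rw [if_neg h, List.filter_cons_of_neg h]
      exact ih

theorem sg_prod (Q : A → Bool) (τ f : A → G) (z : List A)
    (h : ∀ a ∈ z, ¬ Q a = true → f a = τ a) :
    (z.map f).prod = (sg Q τ z).1 * ((sg Q τ z).2.map (fun y => f y.1 * y.2)).prod := by
  induction z with
  | nil => simp [sg]
  | cons a z ih =>
    have ih' := ih (fun a ha => h a (List.mem_cons_of_mem _ ha))
    rw [List.map_cons, List.prod_cons, ih', sg]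
    by_cases hQ : Q a = true
    · rw [if_pos hQ]
      simp only [List.map_cons, List.prod_cons, one_mul, mul_assoc]
    · rw [if_neg hQ, h a List.mem_cons_self hQ]
      simp only [mul_assoc]

open Classical in
theorem comb (f : A → G) (P : ℕ → G) (Δ 𝓑 : Finset G) (hΔ : (1 : G) ∈ Δ)
    (IL : List (ℕ × ℕ × A)) (CL : List (A × G))
    (hlet : IL.map (fun e => e.2.2) = CL.map Prod.fst)
    (hval : ∀ e ∈ IL, ∃ η ∈ Δ, ∃ κ ∈ Δ, f e.2.2 = η * ((P e.1)⁻¹ * P e.2.1) * κ)
    (hco : ∀ y ∈ CL, y.2 ∈ 𝓑) :
    ∃ (h : G) (L : List (ℕ × ℕ × G)), h ∈ Δ ∧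
      L.map (fun x => (x.1, x.2.1)) = IL.map (fun x => (x.1, x.2.1)) ∧
      (∀ x ∈ L, x.2.2 ∈ Δ * 𝓑 * Δ) ∧
      (CL.map (fun y => f y.1 * y.2)).prod =
        h * (L.map (fun x => (P x.1)⁻¹ * (P x.2.1 * x.2.2))).prod := by
  induction IL generalizing CL with
  | nil =>
    have : CL = [] := by
      cases CL with
      | nil => rfl
      | cons y CL => simp at hlet
    subst this
    exact ⟨1, [], hΔ, rfl, by simp, by simp⟩
  | cons e IL ih =>
    cases CL with
    | nil => simp at hlet
    | cons y CL =>
      simp only [List.map_cons, List.cons.injEq] at hlet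
      obtain ⟨h, L, h1, h2, h3, h4⟩ := ih CL hlet.2
        (fun e he => hval e (List.mem_cons_of_mem _ he))
        (fun y hy => hco y (List.mem_cons_of_mem _ hy))
      obtain ⟨η, hη, κ, hκ, hf⟩ := hval e List.mem_cons_self
      refine ⟨η, (e.1, e.2.1, κ * y.2 * h) :: L, hη, ?_, ?_, ?_⟩
      · simp only [List.map_cons, h2]
      · intro x hx
        rcases List.mem_cons.1 hx with rfl | hx
        · exact Finset.mul_mem_mul (Finset.mul_mem_mul hκ (hco y List.mem_cons_self)) h1
        · exact h3 x hx
      · rw [List.map_cons, List.prod_cons, h4, List.map_cons, List.prod_cons, ← hlet.1, hf]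
        simp only [mul_assoc]

theorem pv_cutsOf (P : ℕ → G) (L : List (ℕ × ℕ × G)) :
    pv P false (cutsOf L) = (L.map (fun x => (P x.1)⁻¹ * (P x.2.1 * x.2.2))).prod := by
  induction L with
  | nil => rfl
  | cons x L ih =>
    show (P x.1)⁻¹ * (P x.2.1 * x.2.2 * pv P false (cutsOf L)) = _
    rw [ih, List.map_cons, List.prod_cons]
    simp only [mul_assoc]

end Comb

end Pool.Agent.EDT
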