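import Mathlib
import Pool.Agent.EDT.Derive

set_option autoImplicit false
set_option linter.unusedSectionVars false

namespace Pool.Agent.EDT

open scoped Pointwise

variable {G : Type} [Group G]

/-- Starting position of block `p`. -/
def Stt (c d : G) (w : List G) (p : ℕ) : ℕ := (pad c d 2 (w.take p)).length

theorem Stt_zero (c d : G) (w : List G) : Stt c d w 0 = 0 := by simp [Stt, pad]

theorem Stt_succ (c d : G) (w : List G) {p : ℕ} (hp : p < w.length) :
    Stt c d w (p + 1) = Stt c d w p + (2 * (p + 2) + 5) := by
  unfold Stt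
  rw [List.take_succ_eq_append_getElem hp, pad_append, List.length_append]
  congr 1
  rw [List.length_take, Nat.min_eq_left hp.le]
  show (blk c d w[p] (2 + p) ++ []).length = _
  rw [List.append_nil, blk_length]
  omega

theorem Stt_lt (c d : G) (w : List G) : ∀ p q, p < q → q ≤ w.length → Stt c d w p < Stt c d w q := by
  intro p q hpq
  induction hpq with
  | refl =>
    intro h
    rw [Nat.succ_eq_add_one, Stt_succ c d w (by omega)]
    omega
  | step h ih =>
    intro hq
    rw [Nat.succ_eq_add_one, Stt_succ c d w (by omega)]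
    have := ih (by omega)
    omega

theorem Stt_len (c d : G) (w : List G) : Stt c d w w.length = (pad c d 2 w).length := by
  unfold Stt; rw [List.take_length]

theorem take_Stt (c d : G) (w : List G) (p : ℕ) :
    (pad c d 2 w).take (Stt c d w p) = pad c d 2 (w.take p) := by
  conv_lhs => rw [← List.take_append_drop p w, pad_append]
  unfold Stt
  rw [List.take_append_of_le_length, List.take_of_length_le]
  · rw [List.take_append_drop]
  · rw [List.take_append_drop]

theorem drop_Stt (c d : G) (w : List G) {p : ℕ} (hp : p < w.length) :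
    (pad c d 2 w).drop (Stt c d w p) =
      blk c d w[p] (p + 2) ++ pad c d (p + 3) (w.drop (p + 1)) := by
  conv_lhs => rw [← List.take_append_drop p w, pad_append]
  have h1 : Stt c d (w.take p ++ w.drop p) p = (pad c d 2 (w.take p)).length := by
    rw [List.take_append_drop]; rfl
  rw [h1, List.drop_left, List.drop_eq_getElem_cons hp, List.length_take, Nat.min_eq_left hp.le]
  show blk c d w[p] (2 + p) ++ pad c d (2 + p + 1) _ = _
  rw [show 2 + p = p + 2 by omega]

theorem blk_ptn (c d x : G) (e : ℕ) : blk c d x e = x :: d :: (ptn c d e ++ [d⁻¹]) := by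
  simp [blk, ptn]

theorem ptn_length (c d : G) (e : ℕ) : (ptn c d e).length = 2 * e + 2 := by
  simp only [ptn, List.length_cons, List.length_append, rp_length, List.length_nil]

theorem drop_Stt2 (c d : G) (w : List G) {p : ℕ} (hp : p < w.length) :
    (pad c d 2 w).drop (Stt c d w p + 2) =
      ptn c d (p + 2) ++ ([d⁻¹] ++ pad c d (p + 3) (w.drop (p + 1))) := by
  rw [← List.drop_drop, drop_Stt c d w hp, blk_ptn]
  simp

theorem take_rp (c d : G) (e r : ℕ) :
    ((rp c e ++ [d, d⁻¹]).take r).prod ∈ ({1, c, d} : Set G) := by
  induction e generalizing r with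
  | zero =>
    match r with
    | 0 => left; rfl
    | 1 => right; right; simp [rp]
    | r + 2 => left; simp [rp]
  | succ e ih =>
    match r with
    | 0 => left; rfl
    | 1 => right; left; simp [rp]
    | r + 2 =>
      have := ih r
      simp only [rp, List.cons_append, List.take_succ_cons, List.prod_cons, mul_inv_cancel_left]
      exact this

theorem take_blk (c d x : G) (e r : ℕ) :
    ((blk c d x e).take r).prod ∈ ({1, x, x * d, x * c} : Set G) := by
  match r with
  | 0 => left; rfl
  | 1 => right; left; simp [blk]
  | 2 => right; right; left; simp [blk]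
  | r + 3 =>
    have := take_rp c d e r
    simp only [blk, List.take_succ_cons, List.prod_cons, mul_inv_cancel_left]
    rcases this with h | h | h
    · right; left; rw [h, mul_one]
    · right; right; right; rw [h]; rfl
    · right; right; left; rw [h]

theorem Pw_Stt (c d : G) (w : List G) (p : ℕ) :
    ((pad c d 2 w).take (Stt c d w p)).prod = (w.take p).prod := by
  rw [take_Stt, pad_prod]

theorem Pw_mid (c d : G) (w : List G) {p r : ℕ} (hp : p < w.length) (hr : r ≤ 2 * (p + 2) + 5) :
    ∃ δ ∈ ({1, w[p], w[p] * d, w[p] * c} : Set G),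
      ((pad c d 2 w).take (Stt c d w p + r)).prod = (w.take p).prod * δ := by
  refine ⟨((blk c d w[p] (p + 2)).take r).prod, take_blk _ _ _ _ _, ?_⟩
  rw [List.take_add, List.prod_append, Pw_Stt, drop_Stt c d w hp,
    List.take_append_of_le_length (by rw [blk_length]; exact hr)]

open Classical in
noncomputable def D1 (c d : G) (SF : Finset G) : Finset G :=
  {1} ∪ SF ∪ (SF * {d}) ∪ (SF * {c})

open Classical in
noncomputable def DD (c d : G) (SF : Finset G) : Finset G :=
  D1 c d SF ∪ (D1 c d SF)⁻¹ * (insert 1 SF)

open Classical in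
theorem mem_D1 {c d x δ : G} {SF : Finset G} (hx : x ∈ SF)
    (h : δ ∈ ({1, x, x * d, x * c} : Set G)) : δ ∈ D1 c d SF := by
  unfold D1
  rcases h with h | h | h | h
  · rw [h]; simp
  · rw [h]
    exact Finset.mem_union_left _ (Finset.mem_union_left _ (Finset.mem_union_right _ hx))
  · rw [h]
    exact Finset.mem_union_left _ (Finset.mem_union_right _
      (Finset.mul_mem_mul hx (Finset.mem_singleton_self _)))
  · rw [h]
    exact Finset.mem_union_right _ (Finset.mul_mem_mul hx (Finset.mem_singleton_self _))

open Classical in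
theorem one_mem_DD (c d : G) (SF : Finset G) : (1 : G) ∈ DD c d SF := by
  unfold DD D1; simp

open Classical in
theorem kappa_mem (c d : G) (w : List G) (SF : Finset G) (hw : ∀ x ∈ w, x ∈ SF) {t : ℕ}
    (ht : t ≤ Stt c d w w.length) :
    ((w.take (dnf w.length (Stt c d w) t)).prod)⁻¹ * ((pad c d 2 w).take t).prod ∈ DD c d SF := by
  have hp1 : dnf w.length (Stt c d w) t ≤ w.length := dn_le t
  have hp2 := (dn_iff (Stt_zero c d w) (Stt_lt c d w) (t := t) hp1).2 le_rfl
  generalize hpp : dnf w.length (Stt c d w) t = p at hp1 hp2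
  rcases Nat.eq_or_lt_of_le hp1 with h | h
  · have : t = Stt c d w p := by rw [h] at hp2 ⊢; omega
    rw [this, Pw_Stt, inv_mul_cancel]
    exact one_mem_DD _ _ _
  · have h3 : t < Stt c d w (p + 1) := by
      by_contra hc
      push Not at hc
      have := (dn_iff (Stt_zero c d w) (Stt_lt c d w) (t := t) (p := p + 1) (by omega)).1 hc
      omega
    rw [Stt_succ c d w h] at h3
    obtain ⟨δ, hδ, hδ2⟩ := Pw_mid c d w (r := t - Stt c d w p) h (by omega)
    rw [show Stt c d w p + (t - Stt c d w p) = t by omega] at hδ2
    rw [hδ2, inv_mul_cancel_left]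
    exact Finset.mem_union_left _ (mem_D1 (hw _ (List.getElem_mem h)) hδ)

open Classical in
theorem eta_mem (c d : G) (w : List G) (SF : Finset G) (hw : ∀ x ∈ w, x ∈ SF) {s : ℕ}
    (hs : s ≤ Stt c d w w.length) :
    (((pad c d 2 w).take s).prod)⁻¹ * (w.take (upf w.length (Stt c d w) s)).prod ∈ DD c d SF := by
  have hp1 : upf w.length (Stt c d w) s ≤ w.length := (up_iff (Stt_lt c d w) le_rfl).1 hs
  have hp2 := (up_iff (Stt_lt c d w) (s := s) hp1).2 le_rfl
  rcases Nat.eq_zero_or_pos (upf w.length (Stt c d w) s) with h | h
  · rw [h, Stt_zero] at hp2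
    rw [h]
    have : s = 0 := by omega
    rw [this]
    simpa using one_mem_DD c d SF
  · obtain ⟨p, hp⟩ : ∃ p, upf w.length (Stt c d w) s = p + 1 :=
      ⟨upf w.length (Stt c d w) s - 1, by omega⟩
    rw [hp] at hp1 hp2 ⊢
    have h3 : Stt c d w p < s := by
      by_contra hc
      push Not at hc
      have := (up_iff (Stt_lt c d w) (s := s) (p := p) (by omega)).1 hc
      omega
    rw [Stt_succ c d w (by omega)] at hp2
    obtain ⟨δ, hδ, hδ2⟩ := Pw_mid c d w (r := s - Stt c d w p) (show p < w.length by omega) (by omega)
    rw [show Stt c d w p + (s - Stt c d w p) = s by omega] at hδ2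
    rw [hδ2, List.take_succ_eq_append_getElem (show p < w.length by omega), List.prod_append,
      List.prod_singleton, mul_inv_rev, mul_assoc, inv_mul_cancel_left]
    have hxS : w[p] ∈ SF := hw _ (List.getElem_mem _)
    exact Finset.mem_union_right _ (Finset.mul_mem_mul
      (Finset.inv_mem_inv (mem_D1 hxS hδ)) (Finset.mem_insert_of_mem hxS))

open Classical in
theorem small_mem (c d : G) (w : List G) (SF : Finset G) (hw : ∀ x ∈ w, x ∈ SF)
    (hinv : ∀ x ∈ SF, x⁻¹ ∈ SF) {s t : ℕ} (hst : s ≤ t)
    (ht : t ≤ Stt c d w w.length)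
    (hle : dnf w.length (Stt c d w) t ≤ upf w.length (Stt c d w) s) :
    ((w.take (upf w.length (Stt c d w) s)).prod)⁻¹ *
      (w.take (dnf w.length (Stt c d w) t)).prod ∈ insert 1 SF := by
  have hp1 : dnf w.length (Stt c d w) t ≤ w.length := dn_le t
  have hq1 : upf w.length (Stt c d w) s ≤ w.length := (up_iff (Stt_lt c d w) le_rfl).1 (hst.trans ht)
  have hup : upf w.length (Stt c d w) s ≤ dnf w.length (Stt c d w) t + 1 := by
    rcases Nat.eq_or_lt_of_le hp1 with h | h
    · omega
    · refine (up_iff (Stt_lt c d w) (by omega)).1 ?_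
      by_contra hc
      push Not at hc
      have := (dn_iff (Stt_zero c d w) (Stt_lt c d w) (t := t)
        (p := dnf w.length (Stt c d w) t + 1) (by omega)).1 (by omega)
      omega
  rcases Nat.eq_or_lt_of_le hle with h | h
  · rw [h, inv_mul_cancel]
    exact Finset.mem_insert_self _ _
  · have he : upf w.length (Stt c d w) s = dnf w.length (Stt c d w) t + 1 := by omega
    have hlt : dnf w.length (Stt c d w) t < w.length := by omega
    rw [he, List.take_succ_eq_append_getElem hlt, List.prod_append, List.prod_singleton,
      mul_inv_rev, inv_mul_cancel_right]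
    exact Finset.mem_insert_of_mem (hinv _ (hw _ (List.getElem_mem _)))

section Tok

variable {A : Type}

theorem split_drop {z : List A} {φ : A → List A} {back : A → G} {W : List G}
    (hz : (z.flatMap φ).map back = W) {x x' : List A} {a : A} (h : z = x ++ a :: x') (k : ℕ)
    (hk : k ≤ (φ a).length) :
    W.drop ((x.flatMap φ).length + k) = ((φ a).drop k).map back ++ (x'.flatMap φ).map back := by
  rw [← hz, h, List.flatMap_append, List.flatMap_cons, List.map_append, List.map_append,
    ← List.drop_drop, ← List.length_map (f := back) (as := x.flatMap φ), List.drop_left,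
    List.drop_append_of_le_length (by rw [List.length_map]; exact hk), List.map_drop]

theorem split_take {z : List A} {φ : A → List A} {back : A → G} {W : List G}
    (hz : (z.flatMap φ).map back = W) {x x' : List A} {a : A} (h : z = x ++ a :: x') :
    (W.take ((x.flatMap φ).length + (φ a).length)).prod =
      (W.take (x.flatMap φ).length).prod * ((φ a).map back).prod := by
  rw [List.take_add, List.prod_append]
  have h1 := split_drop hz h 0 (Nat.zero_le _)
  rw [Nat.add_zero, List.drop_zero] at h1
  rw [h1, ← List.length_map (f := back) (as := φ a), List.take_left]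

theorem append_inj_of_offset {z : List A} {φ : A → List A} {x x' y y' : List A} {a : A}
    (h1 : z = x ++ a :: x') (h2 : z = y ++ a :: y') (ha : 0 < (φ a).length)
    (hlen : (x.flatMap φ).length = (y.flatMap φ).length) : x = y := by
  rw [h1] at h2
  rcases List.append_eq_append_iff.1 h2 with ⟨u, hu1, hu2⟩ | ⟨u, hu1, hu2⟩
  · cases u with
    | nil => rw [hu1, List.append_nil]
    | cons b u =>
      exfalso
      rw [List.cons_append, List.cons.injEq] at hu2
      rw [hu1, List.flatMap_append, List.flatMap_cons, ← hu2.1, List.length_append,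
        List.length_append] at hlen
      omega
  · cases u with
    | nil => rw [hu1, List.append_nil]
    | cons b u =>
      exfalso
      rw [List.cons_append, List.cons.injEq] at hu2
      rw [hu1, List.flatMap_append, List.flatMap_cons, ← hu2.1, List.length_append,
        List.length_append] at hlen
      omega

theorem tok_split {c d : G} (hcd : c ≠ d) {w : List G} {z : List A} {φ : A → List A}
    {back : A → G} (hz : (z.flatMap φ).map back = pad c d 2 w) {x x' y y' : List A} {a : A}
    (h1 : z = x ++ a :: x') (h2 : z = y ++ a :: y') {p : ℕ} (hp : p < w.length)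
    (hs : (x.flatMap φ).length ≤ Stt c d w p)
    (ht : Stt c d w (p + 1) ≤ (x.flatMap φ).length + (φ a).length) : x = y := by
  rw [Stt_succ c d w hp] at ht
  refine append_inj_of_offset (φ := φ) h1 h2 (by omega) ?_
  have hk : Stt c d w p + 2 - (x.flatMap φ).length ≤ (φ a).length := by omega
  have e1 := split_drop hz h1 _ hk
  have e2 := split_drop hz h2 _ hk
  rw [show (x.flatMap φ).length + (Stt c d w p + 2 - (x.flatMap φ).length) = Stt c d w p + 2 by omega,
    drop_Stt2 c d w hp] at e1
  have hle : (ptn c d (p + 2)).length ≤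
      (((φ a).drop (Stt c d w p + 2 - (x.flatMap φ).length)).map back).length := by
    rw [ptn_length, List.length_map, List.length_drop]
    omega
  have hpre : ptn c d (p + 2) <+: ((φ a).drop (Stt c d w p + 2 - (x.flatMap φ).length)).map back :=
    List.prefix_of_prefix_length_le ⟨_, e1⟩ ⟨_, rfl⟩ hle
  obtain ⟨R, hR⟩ := hpre
  rw [← hR, List.append_assoc] at e2
  obtain ⟨i, hi1, hi2, hi3⟩ := ptn_unique c d hcd (p + 2) (by omega) w 2 _ (by omega) _ e2
  have hip : i = p := by omega
  subst hip
  have : (pad c d 2 (w.take i)).length = Stt c d w i := rfl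
  omega

end Tok

end Pool.Agent.EDT
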