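import Mathlib
import Pool.Agent.EDT.Word

set_option autoImplicit false
set_option linter.unusedSectionVars false

namespace Pool.Agent.EDT

open scoped Pointwise

theorem il_mem_of_split {A : Type} {U Dn : ℕ → ℕ} {φ : A → List A} {o : ℕ} {z x x' : List A}
    {a : A} (h : z = x ++ a :: x')
    (hlt : U (o + (x.flatMap φ).length) < Dn (o + (x.flatMap φ).length + (φ a).length)) :
    (U (o + (x.flatMap φ).length), Dn (o + (x.flatMap φ).length + (φ a).length), a) ∈
      il U Dn φ o z := by
  subst h
  induction x generalizing o with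
  | nil =>
    simp only [List.flatMap_nil, List.length_nil, Nat.add_zero] at hlt
    simp only [List.flatMap_nil, List.length_nil, Nat.add_zero, List.nil_append, il, if_pos hlt]
    exact List.mem_cons_self
  | cons b x ih =>
    rw [List.flatMap_cons, List.length_append, ← Nat.add_assoc] at hlt ⊢
    rw [List.cons_append, il]
    split_ifs
    · exact List.mem_cons_of_mem _ (ih hlt)
    · exact ih hlt

theorem ev_flatMap {G : Type} [Group G] {A : Type} (back : A → G) (φ : A → List A) (z : List A) :
    ((z.flatMap φ).map back).prod = (z.map (fun a => ((φ a).map back).prod)).prod := by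
  induction z with
  | nil => rfl
  | cons a z ih =>
    rw [List.flatMap_cons, List.map_append, List.prod_append, ih, List.map_cons, List.prod_cons]

open Classical in
theorem stage {G : Type} [Group G] {A : Type} [Fintype A] (c d : G) (hcd : c ≠ d)
    (SF : Finset G) (hinv : ∀ x ∈ SF, x⁻¹ ∈ SF) (hc : c ∈ SF) (hd : d ∈ SF)
    (ι : G → A) (back : A → G) (hback : ∀ x ∈ SF, back (ι x) = x)
    (Der : List A → Prop) (Cmp : (A → List A) → Prop)
    (hDC : ∀ z φ, Der z → Cmp φ → Der (z.flatMap φ))
    (hDer : ∀ w : List G, (∀ x ∈ w, x ∈ SF) → Der (w.map ι) → w.prod = 1) :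
    ∃ 𝓑 : Finset G, (1 : G) ∈ 𝓑 ∧ ∀ w : List G, (∀ x ∈ w, x ∈ SF) →
      ∀ (z : List A) (φ : A → List A), Der z → Cmp φ →
        z.flatMap φ = (pad c d 2 w).map ι →
        ∃ b ∈ 𝓑, ∃ L : List (ℕ × ℕ × G),
          L.map (fun x => (x.1, x.2.1)) =
            (il (upf w.length (Stt c d w)) (dnf w.length (Stt c d w)) φ 0 z).map
              (fun x => (x.1, x.2.1)) ∧
          (∀ x ∈ L, x.2.2 ∈ 𝓑) ∧ L.length ≤ Fintype.card A ∧
          b * pv (fun i => (w.take i).prod) false (cutsOf L) = 1 := by
  set Δ : Finset G := DD c d SF with hΔdef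
  have hΔ1 : (1 : G) ∈ Δ := one_mem_DD c d SF
  set Δ0 : Finset G := Δ * (insert 1 SF) * Δ with hΔ0def
  have hΔ01 : (1 : G) ∈ Δ0 := by
    have := Finset.mul_mem_mul (Finset.mul_mem_mul hΔ1 (Finset.mem_insert_self (1 : G) SF)) hΔ1
    simpa using this
  let Kf : Set (List A × Finset A × (A → G)) :=
    {k | k.1.length ≤ Fintype.card A ∧ ∀ a, k.2.2 a ∈ Δ0}
  have hKf : Kf.Finite := by
    have h1 : Set.Finite {l : List A | l.length ≤ Fintype.card A} := List.finite_length_le A _
    have h2 : Set.Finite {τ : A → G | ∀ a, τ a ∈ (Δ0 : Set G)} :=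
      Set.Finite.pi' (fun _ => Δ0.finite_toSet)
    have h3 : Set.Finite (Set.univ : Set (Finset A)) := Set.finite_univ
    refine (h1.prod (h3.prod h2)).subset ?_
    rintro ⟨k1, k2, k3⟩ hk
    exact ⟨hk.1, Set.mem_univ _, hk.2⟩
  let Ref : (List A × Finset A × (A → G)) → List A → Prop := fun k z0 =>
    Der z0 ∧ z0.toFinset = k.2.1 ∧ z0.filter (fun a => decide (a ∈ k.1)) = k.1
  let ref : (List A × Finset A × (A → G)) → List A := fun k =>
    if h : ∃ z0, Ref k z0 then h.choose else []
  have href : ∀ k, (∃ z0, Ref k z0) → Ref k (ref k) := by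
    intro k h
    show Ref k (if h : ∃ z0, Ref k z0 then h.choose else [])
    rw [dif_pos h]
    exact h.choose_spec
  let sgk : (List A × Finset A × (A → G)) → G × List (A × G) := fun k =>
    sg (fun a => decide (a ∈ k.1)) k.2.2 (ref k)
  let 𝓑0 : Finset G := hKf.toFinset.biUnion
    (fun k => insert (sgk k).1 ((sgk k).2.map Prod.snd).toFinset)
  refine ⟨insert 1 (Δ * 𝓑0 * Δ), Finset.mem_insert_self _ _, ?_⟩
  intro w hw z φ hDz hCφ hzφ
  have hW : ∀ x ∈ pad c d 2 w, x ∈ SF := pad_mem c d 2 w (SF : Set G) hc (hinv c hc) hd (hinv d hd) hw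
  have hz : (z.flatMap φ).map back = pad c d 2 w := by
    rw [hzφ, List.map_map]
    conv_rhs => rw [← List.map_id (pad c d 2 w)]
    exact List.map_congr_left (fun x hx => hback x (hW x hx))
  have hlenW : (z.flatMap φ).length = Stt c d w w.length := by
    rw [Stt_len, ← hz, List.length_map]
  set U := upf w.length (Stt c d w) with hU
  set Dn := dnf w.length (Stt c d w) with hDn
  set IL := il U Dn φ 0 z with hIL
  -- lengths at splits
  have hsplit_le : ∀ x a x', z = x ++ a :: x' →
      (x.flatMap φ).length + (φ a).length ≤ Stt c d w w.length := by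
    intro x a x' h
    rw [← hlenW, h, List.flatMap_append, List.flatMap_cons, List.length_append, List.length_append]
    omega
  -- uniqueness
  have huniq : ∀ x a x' y y', z = x ++ a :: x' → z = y ++ a :: y' →
      U (x.flatMap φ).length < Dn ((x.flatMap φ).length + (φ a).length) → x = y := by
    intro x a x' y y' h1 h2 h3
    have hlt : U (x.flatMap φ).length < w.length := h3.trans_le (dn_le _)
    refine tok_split hcd hz h1 h2 (p := U (x.flatMap φ).length) hlt ?_ ?_
    · exact (up_iff (Stt_lt c d w) hlt.le).2 le_rfl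
    · exact (dn_iff (Stt_zero c d w) (Stt_lt c d w) (by omega)).2 h3
  set tl := IL.map (fun e => e.2.2) with htl
  have hQ : ∀ x a x', z = x ++ a :: x' →
      (U (0 + (x.flatMap φ).length) < Dn (0 + (x.flatMap φ).length + (φ a).length) ↔
        decide (a ∈ tl) = true) := by
    intro x a x' h
    rw [decide_eq_true_eq]
    constructor
    · intro hlt
      exact List.mem_map.2 ⟨_, il_mem_of_split h hlt, rfl⟩
    · intro hmem
      obtain ⟨e, he, hea⟩ := List.mem_map.1 hmem
      obtain ⟨y, a', y', h1, h2, h3⟩ := mem_il he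
      have : a' = a := by rw [← hea, h2]
      subst this
      rw [Nat.zero_add] at h3 ⊢
      have := huniq y a' y' x x' h1 h h3
      rw [← this]
      exact h3
  have hfilter : z.filter (fun a => decide (a ∈ tl)) = tl :=
    (il_filter (fun a => decide (a ∈ tl)) hQ).symm
  have hILlt : ∀ e ∈ IL, e.1 < e.2.1 := il_lt
  have hILpw : IL.Pairwise (fun x y => x.2.1 ≤ y.1) := by
    refine il_pairwise (M := Stt c d w w.length) (fun s s' h => up_mono h)
      (fun s hs => dn_le_up (Stt_zero c d w) (Stt_lt c d w) hs) ?_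
    omega
  have hILnd : IL.Nodup := by
    refine List.Pairwise.imp_of_mem ?_ hILpw
    intro e e' he he' hh heq
    have := hILlt e he
    rw [← heq] at hh
    omega
  have htlnd : tl.Nodup := by
    refine List.Nodup.map_on ?_ hILnd
    intro e he e' he' hee
    obtain ⟨x, a, x', h1, h2, h3⟩ := mem_il he
    obtain ⟨y, a', y', h1', h2', h3'⟩ := mem_il he'
    have haa : a' = a := by
      rw [h2, h2'] at hee
      exact hee.symm
    subst haa
    rw [Nat.zero_add] at h3 h2 h2'
    have := huniq x a' x' y y' h1 h1' h3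
    rw [h2, h2', this]
  have htlcard : tl.length ≤ Fintype.card A := htlnd.length_le_card
  -- values
  have hval : ∀ x a x', z = x ++ a :: x' → ∃ η ∈ Δ, ∃ κ ∈ Δ, ((φ a).map back).prod =
      η * (((w.take (U (x.flatMap φ).length)).prod)⁻¹ *
        (w.take (Dn ((x.flatMap φ).length + (φ a).length))).prod) * κ := by
    intro x a x' h
    have hle := hsplit_le x a x' h
    refine ⟨_, eta_mem c d w SF hw (s := (x.flatMap φ).length) (by omega), _,
      kappa_mem c d w SF hw (t := (x.flatMap φ).length + (φ a).length) hle, ?_⟩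
    rw [split_take hz h, ← hU, ← hDn]
    group
  set τ : A → G := fun a => if a ∈ z ∧ a ∉ tl then ((φ a).map back).prod else 1 with hτ
  set k : List A × Finset A × (A → G) := (tl, z.toFinset, τ) with hk
  have hkK : k ∈ Kf := by
    refine ⟨htlcard, ?_⟩
    intro a
    show τ a ∈ Δ0
    rw [hτ]
    dsimp only
    split_ifs with h
    · obtain ⟨x, x', hx⟩ := List.append_of_mem h.1
      obtain ⟨η, hη, κ, hκ, hv⟩ := hval x a x' hx
      rw [hv]
      refine Finset.mul_mem_mul (Finset.mul_mem_mul hη ?_) hκ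
      have hnot : ¬ U (x.flatMap φ).length < Dn ((x.flatMap φ).length + (φ a).length) := by
        intro hlt
        apply h.2
        have := (hQ x a x' hx).1 (by rw [Nat.zero_add]; exact hlt)
        simpa using this
      exact small_mem c d w SF hw hinv (Nat.le_add_right _ _) (hsplit_le x a x' hx) (not_lt.1 hnot)
    · exact hΔ01
  have hRef : Ref k (ref k) := href k ⟨z, hDz, rfl, hfilter⟩
  obtain ⟨hR1, hR2, hR3⟩ := hRef
  set z0 := ref k with hz0
  have hmem0 : ∀ a ∈ z0, a ∈ z := by
    intro a ha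
    have : a ∈ z0.toFinset := List.mem_toFinset.2 ha
    rw [hR2] at this
    exact List.mem_toFinset.1 this
  set f : A → G := fun a => ((φ a).map back).prod with hf
  have hprod1 : (z0.map f).prod = 1 := by
    have hletters : ∀ b ∈ z0.flatMap φ, ∃ x ∈ SF, b = ι x := by
      intro b hb
      obtain ⟨a, ha, hb⟩ := List.mem_flatMap.1 hb
      have : b ∈ z.flatMap φ := List.mem_flatMap.2 ⟨a, hmem0 a ha, hb⟩
      rw [hzφ] at this
      obtain ⟨x, hx, rfl⟩ := List.mem_map.1 this
      exact ⟨x, hW x hx, rfl⟩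
    have hw0 : ((z0.flatMap φ).map back).map ι = z0.flatMap φ := by
      rw [List.map_map]
      conv_rhs => rw [← List.map_id (z0.flatMap φ)]
      refine List.map_congr_left (fun b hb => ?_)
      obtain ⟨x, hx, rfl⟩ := hletters b hb
      show ι (back (ι x)) = ι x
      rw [hback x hx]
    rw [← ev_flatMap back φ z0]
    refine hDer _ ?_ ?_
    · intro y hy
      obtain ⟨b, hb, rfl⟩ := List.mem_map.1 hy
      obtain ⟨x, hx, rfl⟩ := hletters b hb
      rw [hback x hx]
      exact hx
    · rw [hw0]
      exact hDC _ _ hR1 hCφ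
  have hsg := sg_prod (fun a => decide (a ∈ tl)) τ f z0 (by
    intro a ha hna
    have : a ∉ tl := by simpa using hna
    show f a = if a ∈ z ∧ a ∉ tl then ((φ a).map back).prod else 1
    rw [if_pos ⟨hmem0 a ha, this⟩])
  have hsgk : sgk k = sg (fun a => decide (a ∈ tl)) τ z0 := rfl
  rw [← hsgk, hprod1] at hsg
  have hcoefs : ∀ g, (g = (sgk k).1 ∨ g ∈ (sgk k).2.map Prod.snd) → g ∈ 𝓑0 := by
    intro g hg
    refine Finset.mem_biUnion.2 ⟨k, (Set.Finite.mem_toFinset hKf).2 hkK, ?_⟩
    rcases hg with hg | hg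
    · rw [hg]; exact Finset.mem_insert_self _ _
    · exact Finset.mem_insert_of_mem (List.mem_toFinset.2 hg)
  obtain ⟨h, L, hh, hL1, hL2, hL3⟩ := comb f (fun i => (w.take i).prod) Δ 𝓑0 hΔ1 IL (sgk k).2
    (by
      rw [hsgk, sg_fst]
      exact hR3.symm)
    (by
      intro e he
      obtain ⟨x, a, x', h1, h2, h3⟩ := mem_il he
      rw [Nat.zero_add] at h2
      rw [h2]
      exact hval x a x' h1)
    (fun y hy => hcoefs _ (Or.inr (List.mem_map.2 ⟨y, hy, rfl⟩)))
  refine ⟨(sgk k).1 * h, ?_, L, hL1, ?_, ?_, ?_⟩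
  · refine Finset.mem_insert_of_mem (Finset.mul_mem_mul ?_ hh)
    have := Finset.mul_mem_mul hΔ1 (hcoefs _ (Or.inl rfl))
    simpa using this
  · intro x hx
    exact Finset.mem_insert_of_mem (hL2 x hx)
  · have : L.length = tl.length := by
      have := congrArg List.length hL1
      rw [List.length_map, List.length_map] at this
      rw [this, htl, List.length_map]
    omega
  · rw [pv_cutsOf, mul_assoc, ← hL3, ← hsg]

end Pool.Agent.EDT
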