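import Mathlib
import Pool.Agent.EDT.Stage
import Pool.Agent.EDT.Build

set_option autoImplicit false
set_option linter.unusedSectionVars false

namespace Pool.Agent.EDT

open scoped Pointwise

def run {A J : Type} (σ : J → A → List A) (js : List J) (u : List A) : List A :=
  js.foldl (fun u j => u.flatMap (σ j)) u

theorem run_append {A J : Type} (σ : J → A → List A) (js js' : List J) (u : List A) :
    run σ (js ++ js') u = run σ js' (run σ js u) := List.foldl_append

theorem run_flatMap {A J : Type} (σ : J → A → List A) (js : List J) (u : List A) :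
    run σ js u = u.flatMap (fun a => run σ js [a]) := by
  induction js generalizing u with
  | nil => simp [run]
  | cons j js ih =>
    show run σ js (u.flatMap (σ j)) = _
    rw [ih, List.flatMap_assoc]
    congr 1
    funext a
    show (σ j a).flatMap (fun a => run σ js [a]) = run σ js ([a].flatMap (σ j))
    rw [← ih, List.flatMap_singleton]

open Classical in
theorem exists_sweeps {G : Type} [Group G] {A J : Type} [Fintype A] [Fintype J] (c d : G)
    (hcd : c ≠ d) (SF : Finset G) (hinv : ∀ x ∈ SF, x⁻¹ ∈ SF) (hc : c ∈ SF) (hd : d ∈ SF)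
    (ι : G → A) (back : A → G) (hback : ∀ x ∈ SF, back (ι x) = x)
    (ω : List A) (σ : J → A → List A)
    (hiff : ∀ w : List G, (∀ x ∈ w, x ∈ SF) → (w.prod = 1 ↔ ∃ js, run σ js ω = w.map ι)) :
    ∃ (K D : ℕ) (𝓑 : Finset G), ∀ w : List G, (∀ x ∈ w, x ∈ SF) → w.prod = 1 → w ≠ [] →
      Nonempty (Sweep K D 𝓑 w) := by
  obtain ⟨𝓑, h𝓑1, hstage⟩ := stage c d hcd SF hinv hc hd ι back hback
    (fun z => ∃ js, run σ js ω = z) (fun φ => ∃ js, φ = fun a => run σ js [a])
    (by
      rintro z φ ⟨js, rfl⟩ ⟨js', rfl⟩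
      exact ⟨js ++ js', by rw [run_append, run_flatMap σ js' (run σ js ω)]⟩)
    (fun w hw h => (hiff w hw).2 h)
  obtain ⟨D, hD1, hD2⟩ : ∃ D, ω.length ≤ D ∧ ∀ j a, (σ j a).length ≤ D := by
    refine ⟨ω.length + (Finset.univ : Finset (J × A)).sup (fun x => (σ x.1 x.2).length),
      Nat.le_add_right _ _, ?_⟩
    intro j a
    have := Finset.le_sup (f := fun x : J × A => (σ x.1 x.2).length) (Finset.mem_univ (j, a))
    dsimp only at this
    omega
  refine ⟨2 * Fintype.card A + 2, D, 𝓑, ?_⟩
  intro w hw hw1 hwne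
  have hn : 0 < w.length := List.length_pos_iff.2 hwne
  have hWmem : ∀ x ∈ pad c d 2 w, x ∈ SF :=
    pad_mem c d 2 w (SF : Set G) hc (hinv c hc) hd (hinv d hd) hw
  obtain ⟨js, hjs⟩ := (hiff (pad c d 2 w) hWmem).1 (by rw [pad_prod]; exact hw1)
  set N := js.length with hN
  set zz : ℕ → List A := fun t => run σ (js.take t) ω with hzz
  set ph : ℕ → A → List A := fun t a => run σ (js.drop t) [a] with hph
  have hzph : ∀ t, (zz t).flatMap (ph t) = (pad c d 2 w).map ι := by
    intro t
    rw [← hjs]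
    show (run σ (js.take t) ω).flatMap (fun a => run σ (js.drop t) [a]) = _
    rw [← run_flatMap, ← run_append, List.take_append_drop]
  have hzstep : ∀ t, (ht : t < N) → zz (t + 1) = (zz t).flatMap (σ js[t]) := by
    intro t ht
    show run σ (js.take (t + 1)) ω = (run σ (js.take t) ω).flatMap (σ js[t])
    rw [List.take_succ_eq_append_getElem ht, run_append]
    rfl
  have hphstep : ∀ t, (ht : t < N) → ∀ a, ph t a = (σ js[t] a).flatMap (ph (t + 1)) := by
    intro t ht a
    show run σ (js.drop t) [a] = (σ js[t] a).flatMap (fun a => run σ (js.drop (t + 1)) [a])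
    rw [← run_flatMap, List.drop_eq_getElem_cons ht]
    show run σ (js.drop (t + 1)) ([a].flatMap (σ js[t])) = _
    rw [List.flatMap_singleton]
  have hlast : ∀ t, N ≤ t → ∀ a, ph t a = [a] := by
    intro t ht a
    show run σ (js.drop t) [a] = [a]
    rw [List.drop_eq_nil_of_le ht]
    rfl
  set St := Stt c d w with hSt
  have hst0 : St 0 = 0 := Stt_zero c d w
  have hstlt : ∀ p q, p < q → q ≤ w.length → St p < St q := Stt_lt c d w
  set IL : ℕ → List (ℕ × ℕ × A) :=
    fun t => il (upf w.length St) (dnf w.length St) (ph t) 0 (zz t) with hIL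
  have hex : ∀ t, ∃ b ∈ 𝓑, ∃ L : List (ℕ × ℕ × G),
      L.map (fun x => (x.1, x.2.1)) = (IL t).map (fun x => (x.1, x.2.1)) ∧
      (∀ x ∈ L, x.2.2 ∈ 𝓑) ∧ L.length ≤ Fintype.card A ∧
      b * pv (fun i => (w.take i).prod) false (cutsOf L) = 1 :=
    fun t => hstage w hw (zz t) (ph t) ⟨_, rfl⟩ ⟨_, rfl⟩ (hzph t)
  choose bb hbb L hL1 hL2 hL3 hL4 using hex
  have hILlt : ∀ t, ∀ e ∈ IL t, e.1 < e.2.1 := fun t => il_lt
  have hILpw : ∀ t, (IL t).Pairwise (fun x y => x.2.1 ≤ y.1) := by
    intro t
    refine il_pairwise (M := St w.length) (fun s s' h => up_mono h)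
      (fun s hs => dn_le_up hst0 hstlt hs) ?_
    rw [hzph, List.length_map, hSt, Stt_len]
    omega
  have hmem : ∀ t (l r : ℕ), (∃ g, (l, r, g) ∈ L t) ↔ ∃ a, (l, r, a) ∈ IL t := by
    intro t l r
    constructor
    · rintro ⟨g, hg⟩
      have : (l, r) ∈ (L t).map (fun x => (x.1, x.2.1)) := List.mem_map.2 ⟨_, hg, rfl⟩
      rw [hL1] at this
      obtain ⟨⟨l', r', a⟩, he, heq⟩ := List.mem_map.1 this
      simp only [Prod.mk.injEq] at heq
      obtain ⟨rfl, rfl⟩ := heq
      exact ⟨a, he⟩
    · rintro ⟨a, ha⟩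
      have : (l, r) ∈ (IL t).map (fun x => (x.1, x.2.1)) := List.mem_map.2 ⟨_, ha, rfl⟩
      rw [← hL1] at this
      obtain ⟨⟨l', r', g⟩, he, heq⟩ := List.mem_map.1 this
      simp only [Prod.mk.injEq] at heq
      obtain ⟨rfl, rfl⟩ := heq
      exact ⟨g, he⟩
  have hLlt : ∀ t, ∀ e ∈ L t, e.1 < e.2.1 := by
    rintro t ⟨l, r, g⟩ he
    obtain ⟨a, ha⟩ := (hmem t l r).1 ⟨g, he⟩
    exact hILlt t _ ha
  have hLpw : ∀ t, (L t).Pairwise (fun x y => x.2.1 ≤ y.1) := by
    intro t
    have h1 : ((IL t).map (fun x => (x.1, x.2.1))).Pairwise (fun x y : ℕ × ℕ => x.2 ≤ y.1) :=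
      List.pairwise_map.2 (hILpw t)
    rw [← hL1] at h1
    exact List.pairwise_map.1 h1
  have hconn : ∀ t p q, p ≤ q → q < w.length →
      (conn (cutsOf (L t)) p q ↔ cont St (ph t) 0 (zz t) p q) := by
    intro t p q hpq hq
    rw [conn_cutsOf (hLlt t) (hLpw t) hpq, ← il_cont hst0 hstlt hpq hq]
    constructor
    · rintro ⟨⟨l, r, g⟩, he, h1, h2⟩
      obtain ⟨a, ha⟩ := (hmem t l r).1 ⟨g, he⟩
      exact ⟨_, ha, h1, h2⟩
    · rintro ⟨⟨l, r, a⟩, he, h1, h2⟩
      obtain ⟨g, hg⟩ := (hmem t l r).2 ⟨a, he⟩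
      exact ⟨_, hg, h1, h2⟩
  have hend : ∀ t, N ≤ t → L t = [] := by
    intro t ht
    have h1 : IL t = [] := by
      rw [List.eq_nil_iff_forall_not_mem]
      intro e he
      obtain ⟨x, a, x', h1, h2, h3⟩ := mem_il he
      rw [hlast t ht, List.length_singleton, Nat.zero_add] at h3
      have hlt : upf w.length St (x.flatMap (ph t)).length < w.length := h3.trans_le (dn_le _)
      have h4 := (up_iff hstlt (s := (x.flatMap (ph t)).length) hlt.le).2 le_rfl
      have h5 := (dn_iff hst0 hstlt (t := (x.flatMap (ph t)).length + 1)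
        (p := upf w.length St (x.flatMap (ph t)).length + 1) (by omega)).2 h3
      have h6 : St (upf w.length St (x.flatMap (ph t)).length + 1) =
          St (upf w.length St (x.flatMap (ph t)).length) +
            (2 * (upf w.length St (x.flatMap (ph t)).length + 2) + 5) := Stt_succ c d w hlt
      omega
    have h2 := hL1 t
    rw [h1, List.map_nil] at h2
    exact List.map_eq_nil_iff.1 h2
  let LL : ℕ → List (ℕ × ℕ × G) := fun t => Nat.casesOn t [(0, w.length, 1)] L
  let b' : ℕ → G := fun t => Nat.casesOn t 1 bb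
  have hLL0 : LL 0 = [(0, w.length, 1)] := rfl
  have hLLlt : ∀ t, ∀ e ∈ LL t, e.1 < e.2.1 := by
    intro t
    cases t with
    | zero =>
      intro e he
      rw [hLL0, List.mem_singleton] at he
      rw [he]
      exact hn
    | succ t => exact hLlt t
  have hLLpw : ∀ t, (LL t).Pairwise (fun x y => x.2.1 ≤ y.1) := by
    intro t
    cases t with
    | zero => exact List.pairwise_singleton _ _
    | succ t => exact hLpw t
  refine ⟨{
    b := b'
    cuts := fun t => cutsOf (LL t)
    hb := ?_
    hc := ?_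
    sorted := fun t => sorted_cutsOf (hLLlt t) (hLLpw t)
    len := ?_
    eqn := ?_
    adj := fun t => adj_cutsOf (hLLlt t) (hLLpw t)
    mono := ?_
    init := ?_
    fin := ?_
    jump := ?_ }⟩
  · intro t
    cases t with
    | zero => exact h𝓑1
    | succ t => exact hbb t
  · intro t e he
    obtain ⟨x, hx, h⟩ := mem_cutsOf.1 he
    rcases h with h | h
    · rw [h]; exact h𝓑1
    · rw [h]
      cases t with
      | zero =>
        rw [hLL0, List.mem_singleton] at hx
        rw [hx]
        exact h𝓑1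
      | succ t => exact hL2 t x hx
  · intro t
    rw [cutsOf_length]
    cases t with
    | zero => rw [hLL0, List.length_singleton]; omega
    | succ t =>
      have : (LL (t + 1)).length ≤ Fintype.card A := hL3 t
      omega
  · intro t
    cases t with
    | zero =>
      show 1 * (((w.take 0).prod)⁻¹ * ((w.take w.length).prod * 1 * 1)) = 1
      rw [List.take_length, hw1]
      simp
    | succ t => exact hL4 t
  · intro t p q hpq hq h
    cases t with
    | zero =>
      rw [conn_cutsOf (hLLlt 0) (hLLpw 0) hpq]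
      exact ⟨(0, w.length, 1), by rw [hLL0]; exact List.mem_singleton_self _, Nat.zero_le _, hq⟩
    | succ t =>
      have h' : conn (cutsOf (L (t + 1))) p q := h
      show conn (cutsOf (L t)) p q
      rcases Nat.lt_or_ge t N with ht | ht
      · rw [hconn _ _ _ hpq hq] at h' ⊢
        rw [hzstep t ht] at h'
        exact cont_mono (hphstep t ht) 0 (zz t) p q h'
      · rw [hend (t + 1) (by omega)] at h'
        exact absurd h'.1 (not_inn_nil p)
  · intro p q hpq hq
    rw [conn_cutsOf (hLLlt 0) (hLLpw 0) hpq]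
    exact ⟨(0, w.length, 1), by rw [hLL0]; exact List.mem_singleton_self _, Nat.zero_le _, hq⟩
  · refine ⟨N + 1, ?_⟩
    intro t ht
    obtain ⟨t, rfl⟩ : ∃ t', t = t' + 1 := ⟨t - 1, by omega⟩
    show cutsOf (L t) = []
    rw [hend t (by omega)]
    rfl
  · intro t p hp h
    cases t with
    | zero =>
      have hlen : (ω.flatMap (ph 0)).length = St w.length := by
        have := hzph 0
        rw [show zz 0 = ω from rfl] at this
        rw [this, List.length_map, hSt, Stt_len]
      have hle : St (p + ω.length + 1) ≤ St w.length := by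
        rcases Nat.eq_or_lt_of_le (show p + ω.length + 1 ≤ w.length by omega) with h' | h'
        · rw [h']
        · exact (hstlt _ _ h' le_rfl).le
      obtain ⟨q, hq1, hq2, hq3⟩ := cont_jump0 hstlt (ph 0) ω 0 p (by omega) (Nat.zero_le _)
        (by rw [hlen]; omega)
      refine ⟨q, hq1, by omega, ?_⟩
      show inn (cutsOf (L 0)) q
      rw [← conn_self, hconn 0 q q le_rfl (by omega)]
      exact hq3
    | succ t =>
      have h' : conn (cutsOf (L t)) p (p + D) := h
      show ∃ q, p ≤ q ∧ q ≤ p + D ∧ inn (cutsOf (L (t + 1))) q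
      rcases Nat.lt_or_ge t N with ht | ht
      · rw [hconn _ _ _ (Nat.le_add_right _ _) hp] at h'
        obtain ⟨q, hq1, hq2, hq3⟩ := cont_jump hstlt (hphstep t ht) (hD2 _) 0 (zz t) p hp h'
        refine ⟨q, hq1, hq2, ?_⟩
        rw [← conn_self, hconn (t + 1) q q le_rfl (by omega), hzstep t ht]
        exact hq3
      · rw [hend t ht] at h'
        exact absurd h'.1 (not_inn_nil p)

open Classical in
theorem final {G : Type} [Group G] [Infinite G] (X : Finset G)
    (hX : Subgroup.closure (X : Set G) = ⊤) {A J : Type} [Fintype A] [Fintype J]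
    (ι : G → A) (ω : List A) (σ : J → A → List A)
    (hinj : Set.InjOn ι {x : G | x ∈ X ∨ x⁻¹ ∈ X})
    (hiff : ∀ w : List G, (∀ x ∈ w, x ∈ X ∨ x⁻¹ ∈ X) →
        (w.prod = 1 ↔
          ∃ js : List J, js.foldl (fun u j => u.flatMap (σ j)) ω = w.map ι)) : False := by
  set SF : Finset G := X ∪ X⁻¹ with hSF
  have hmem : ∀ x, x ∈ SF ↔ (x ∈ X ∨ x⁻¹ ∈ X) := by
    intro x
    rw [hSF, Finset.mem_union, Finset.mem_inv']
  have hinv : ∀ x ∈ SF, x⁻¹ ∈ SF := by
    intro x hx
    rw [hmem] at hx ⊢
    rw [inv_inv]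
    exact hx.symm
  have hwords : ∀ g : G, ∃ l : List G, (∀ x ∈ l, x ∈ SF) ∧ l.prod = g := by
    intro g
    have : g ∈ Subgroup.closure (X : Set G) := by rw [hX]; exact Subgroup.mem_top g
    rw [← Subgroup.mem_toSubmonoid, Subgroup.closure_toSubmonoid] at this
    obtain ⟨l, hl1, hl2⟩ := Submonoid.exists_list_of_mem_closure this
    refine ⟨l, fun x hx => (hmem x).2 ?_, hl2⟩
    rcases hl1 x hx with h | h
    · exact Or.inl h
    · exact Or.inr (Set.mem_inv.1 h)
  obtain ⟨c, hc, d, hd, hcd⟩ : ∃ c ∈ SF, ∃ d ∈ SF, c ≠ d := by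
    by_contra hcon
    push Not at hcon
    have hall : ∀ l : List G, (∀ x ∈ l, x ∈ SF) → l.prod ∈ insert 1 SF := by
      intro l
      induction l with
      | nil => intro _; simp
      | cons x l ih =>
        intro h
        have hx := h x List.mem_cons_self
        have := ih (fun y hy => h y (List.mem_cons_of_mem _ hy))
        rw [List.prod_cons]
        rcases Finset.mem_insert.1 this with h1 | h1
        · rw [h1, mul_one]; exact Finset.mem_insert_of_mem hx
        · rw [hcon _ h1 _ (hinv x hx), mul_inv_cancel]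
          exact Finset.mem_insert_self _ _
    have hfin : Finite G := by
      refine Finite.of_injective (fun g : G => (⟨g, ?_⟩ : {x // x ∈ insert 1 SF})) ?_
      · obtain ⟨l, hl1, hl2⟩ := hwords g
        rw [← hl2]
        exact hall l hl1
      · intro g g' h
        exact congrArg Subtype.val h
    exact not_finite G
  set back : A → G := Function.invFunOn ι {x : G | x ∈ X ∨ x⁻¹ ∈ X} with hbackdef
  have hback : ∀ x ∈ SF, back (ι x) = x := by
    intro x hx
    exact hinj.leftInvOn_invFunOn ((hmem x).1 hx)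
  obtain ⟨K, D, 𝓑, hsw⟩ := exists_sweeps c d hcd SF hinv hc hd ι back hback ω σ
    (fun w hw => hiff w (fun x hx => (hmem x).1 (hw x hx)))
  choose W0 hW01 hW02 using hwords
  obtain ⟨w, hw1, hw2, hw3, hw4⟩ := no_sweep K D 𝓑 (SF : Set G) (fun g => W0 g ++ [c, c⁻¹])
    (by intro x; simp)
    (by
      intro x y hy
      rw [List.mem_append] at hy
      rcases hy with hy | hy
      · exact hW01 x y hy
      · simp only [List.mem_cons, List.not_mem_nil, or_false] at hy
        rcases hy with rfl | rfl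
        · exact hc
        · exact hinv c hc)
    (by intro x; simp [hW02])
    c hc (hinv c hc)
  obtain ⟨S⟩ := hsw w hw1 hw2 hw3
  exact hw4.false S

end Pool.Agent.EDT
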